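import Pool.Agent.L7h43.MW.Stm

/-! The Gaussian kernel and the comparison of two scales. -/

set_option autoImplicit false

namespace Pool.Agent.L7h43.MW

open Finset MeasureTheory

lemma norm_ee (x : ℝ) : ‖ee x‖ = 1 := by
  unfold ee
  rw [show (2 * Real.pi * x * Complex.I : ℂ) = ((2 * Real.pi * x : ℝ) : ℂ) * Complex.I by push_cast; ring]
  exact Complex.norm_exp_ofReal_mul_I _

lemma ee_add (x y : ℝ) : ee (x + y) = ee x * ee y := by
  unfold ee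
  rw [← Complex.exp_add]; congr 1; push_cast; ring

lemma ee_neg (x : ℝ) : ee (-x) = (starRingEnd ℂ) (ee x) := by
  unfold ee
  rw [← Complex.exp_conj]; congr 1
  have h2 : (starRingEnd ℂ) (2 : ℂ) = 2 := Complex.conj_ofNat 2
  simp [Complex.conj_ofReal, h2]

lemma ee_zero : ee 0 = 1 := by simp [ee]

lemma ee_sum {ι : Type*} (s : Finset ι) (g : ι → ℝ) : ee (∑ i ∈ s, g i) = ∏ i ∈ s, ee (g i) := by
  classical
  induction s using Finset.induction_on with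
  | empty => simp [ee_zero]
  | insert a s ha ih => rw [sum_insert ha, prod_insert ha, ee_add, ih]

lemma continuous_ee : Continuous ee := by
  unfold ee; fun_prop

lemma gk (T u : ℝ) (hT : 0 < T) :
    ∫ ξ : ℝ, ((Real.exp (-(Real.pi * ξ ^ 2 / T ^ 2)) : ℝ) : ℂ) * ee (ξ * u) =
      ((T * Real.exp (-(Real.pi * T ^ 2 * u ^ 2)) : ℝ) : ℂ) := by
  have hpi := Real.pi_pos
  have hb : 0 < (((Real.pi / T ^ 2 : ℝ) : ℂ)).re := by
    rw [Complex.ofReal_re]; positivity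
  have h := fourierIntegral_gaussian hb ((2 * Real.pi * u : ℝ) : ℂ)
  have h1 : ∀ ξ : ℝ, ((Real.exp (-(Real.pi * ξ ^ 2 / T ^ 2)) : ℝ) : ℂ) * ee (ξ * u) =
      Complex.exp (Complex.I * ((2 * Real.pi * u : ℝ) : ℂ) * ξ) *
        Complex.exp (-((Real.pi / T ^ 2 : ℝ) : ℂ) * ξ ^ 2) := by
    intro ξ
    unfold ee
    rw [mul_comm]
    push_cast
    congr 1
    · congr 1; ring
    · congr 1; ring
  rw [integral_congr_ae (Filter.Eventually.of_forall h1), h]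
  have h2 : ((Real.pi : ℂ) / ((Real.pi / T ^ 2 : ℝ) : ℂ)) = ((T ^ 2 : ℝ) : ℂ) := by
    push_cast
    have : (Real.pi : ℂ) ≠ 0 := by exact_mod_cast hpi.ne'
    have hT' : (T : ℂ) ≠ 0 := by exact_mod_cast hT.ne'
    field_simp
  have h3 : ((T ^ 2 : ℝ) : ℂ) ^ (1 / 2 : ℂ) = (T : ℂ) := by
    have h4 : (1 / 2 : ℂ) = ((1 / 2 : ℝ) : ℂ) := by push_cast; rfl
    rw [h4, ← Complex.ofReal_cpow (by positivity)]
    congr 1
    rw [← Real.sqrt_eq_rpow, Real.sqrt_sq hT.le]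
  rw [h2, h3]
  push_cast
  congr 2
  have : (Real.pi : ℂ) ≠ 0 := by exact_mod_cast hpi.ne'
  have hT' : (T : ℂ) ≠ 0 := by exact_mod_cast hT.ne'
  field_simp
  ring

/-- the difference of the kernels -/
noncomputable def Kr (T T0 ξ : ℝ) : ℝ :=
  Real.exp (-(Real.pi * ξ ^ 2 / T ^ 2)) - Real.exp (-(Real.pi * ξ ^ 2 / T0 ^ 2))

lemma integrable_gauss (T : ℝ) (hT : 0 < T) :
    Integrable (fun ξ : ℝ => Real.exp (-(Real.pi * ξ ^ 2 / T ^ 2))) := by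
  have hpi := Real.pi_pos
  have h := integrable_exp_neg_mul_sq (b := Real.pi / T ^ 2) (by positivity)
  refine h.congr (Filter.Eventually.of_forall fun ξ => ?_)
  simp only
  congr 1; ring

lemma Kr_nonneg (T T0 ξ : ℝ) (h0 : 0 < T0) (h : T0 ≤ T) : 0 ≤ Kr T T0 ξ := by
  unfold Kr
  have hpi := Real.pi_pos
  rw [sub_nonneg]
  apply Real.exp_le_exp.2
  rw [neg_le_neg_iff]
  have : T0 ^ 2 ≤ T ^ 2 := pow_le_pow_left₀ h0.le h 2
  gcongr

lemma Kr_le_gauss (T T0 ξ : ℝ) : Kr T T0 ξ ≤ Real.exp (-(Real.pi * ξ ^ 2 / T ^ 2)) := by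
  unfold Kr
  have := Real.exp_pos (-(Real.pi * ξ ^ 2 / T0 ^ 2))
  linarith

lemma Kr_le_sq (T T0 ξ : ℝ) : Kr T T0 ξ ≤ Real.pi * ξ ^ 2 / T0 ^ 2 := by
  unfold Kr
  have hpi := Real.pi_pos
  have h1 : Real.exp (-(Real.pi * ξ ^ 2 / T ^ 2)) ≤ 1 := by
    rw [Real.exp_le_one_iff]
    have : 0 ≤ Real.pi * ξ ^ 2 / T ^ 2 := by positivity
    linarith
  have h2 := Real.add_one_le_exp (-(Real.pi * ξ ^ 2 / T0 ^ 2))
  linarith

/-- comparison of two scales -/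
theorem cmp {ι : Type*} (V : Finset ι) (u : ι → ℝ) (T T0 : ℝ) (h0 : 0 < T0) (h : T0 ≤ T) :
    ENNReal.ofReal |∑ v ∈ V, T * Real.exp (-(Real.pi * T ^ 2 * u v ^ 2)) -
      ∑ v ∈ V, T0 * Real.exp (-(Real.pi * T0 ^ 2 * u v ^ 2))| ≤
    2 * ∫⁻ ξ in Set.Ioi (0 : ℝ), ENNReal.ofReal (Kr T T0 ξ * ‖∑ v ∈ V, ee (ξ * u v)‖) := by
  have hT : 0 < T := lt_of_lt_of_le h0 h
  have hi : ∀ S : ℝ, 0 < S → ∀ v, Integrable (fun ξ : ℝ =>
      ((Real.exp (-(Real.pi * ξ ^ 2 / S ^ 2)) : ℝ) : ℂ) * ee (ξ * u v)) := by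
    intro S hS v
    refine ((integrable_gauss S hS).ofReal (𝕜 := ℂ)).mul_bdd (c := 1) ?_ ?_
    · exact ((continuous_ee.comp (continuous_id.mul continuous_const))).aestronglyMeasurable
    · exact Filter.Eventually.of_forall fun ξ => (norm_ee _).le
  have hS : ∀ S : ℝ, 0 < S → (((∑ v ∈ V, S * Real.exp (-(Real.pi * S ^ 2 * u v ^ 2)) : ℝ)) : ℂ) =
      ∫ ξ : ℝ, ((Real.exp (-(Real.pi * ξ ^ 2 / S ^ 2)) : ℝ) : ℂ) * ∑ v ∈ V, ee (ξ * u v) := by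
    intro S hS
    push_cast
    simp_rw [Finset.mul_sum]
    rw [integral_finsetSum _ fun v _ => by simpa using hi S hS v]
    refine Finset.sum_congr rfl fun v _ => ?_
    have := gk S (u v) hS
    push_cast at this
    rw [this]
  have hsum : ∀ S : ℝ, 0 < S → Integrable (fun ξ : ℝ =>
      ((Real.exp (-(Real.pi * ξ ^ 2 / S ^ 2)) : ℝ) : ℂ) * ∑ v ∈ V, ee (ξ * u v)) := by
    intro S hS
    simp_rw [Finset.mul_sum]
    exact integrable_finsetSum _ fun v _ => hi S hS v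
  have hdiff : (((∑ v ∈ V, T * Real.exp (-(Real.pi * T ^ 2 * u v ^ 2)) -
      ∑ v ∈ V, T0 * Real.exp (-(Real.pi * T0 ^ 2 * u v ^ 2)) : ℝ)) : ℂ) =
      ∫ ξ : ℝ, ((Kr T T0 ξ : ℝ) : ℂ) * ∑ v ∈ V, ee (ξ * u v) := by
    rw [Complex.ofReal_sub, hS T hT, hS T0 h0, ← integral_sub (hsum T hT) (hsum T0 h0)]
    congr 1
    ext ξ
    unfold Kr
    push_cast
    ring
  have hWc : Continuous fun ξ : ℝ => ∑ v ∈ V, ee (ξ * u v) :=
    continuous_finsetSum _ fun v _ => continuous_ee.comp (continuous_id.mul continuous_const)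
  have hKi : Integrable (fun ξ : ℝ => Kr T T0 ξ * ‖∑ v ∈ V, ee (ξ * u v)‖) := by
    refine ((integrable_gauss T hT).sub (integrable_gauss T0 h0)).mul_bdd (c := (V.card : ℝ)) ?_ ?_
    · exact hWc.norm.aestronglyMeasurable
    · refine Filter.Eventually.of_forall fun ξ => ?_
      rw [norm_norm]
      calc ‖∑ v ∈ V, ee (ξ * u v)‖ ≤ ∑ v ∈ V, ‖ee (ξ * u v)‖ := norm_sum_le _ _
        _ = V.card := by simp [norm_ee]
  have hle : |∑ v ∈ V, T * Real.exp (-(Real.pi * T ^ 2 * u v ^ 2)) -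
      ∑ v ∈ V, T0 * Real.exp (-(Real.pi * T0 ^ 2 * u v ^ 2))| ≤
      ∫ ξ : ℝ, Kr T T0 ξ * ‖∑ v ∈ V, ee (ξ * u v)‖ := by
    rw [← Real.norm_eq_abs, ← Complex.norm_real, hdiff]
    refine (norm_integral_le_integral_norm _).trans (le_of_eq ?_)
    congr 1
    ext ξ
    rw [norm_mul, Complex.norm_real, Real.norm_of_nonneg (Kr_nonneg T T0 ξ h0 h)]
  have heven : ∀ ξ : ℝ, Kr T T0 ξ * ‖∑ v ∈ V, ee (ξ * u v)‖ =
      (fun ξ : ℝ => Kr T T0 ξ * ‖∑ v ∈ V, ee (ξ * u v)‖) |ξ| := by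
    intro ξ
    rcases abs_choice ξ with h1 | h1
    · simp only [h1]
    · simp only [h1]
      congr 1
      · unfold Kr; simp
      · have : ∑ v ∈ V, ee (-ξ * u v) = (starRingEnd ℂ) (∑ v ∈ V, ee (ξ * u v)) := by
          rw [map_sum]
          refine Finset.sum_congr rfl fun v _ => ?_
          rw [← ee_neg]; congr 1; ring
        rw [this, RCLike.norm_conj]
  have h2 : ∫ ξ : ℝ, Kr T T0 ξ * ‖∑ v ∈ V, ee (ξ * u v)‖ =
      2 * ∫ ξ in Set.Ioi (0 : ℝ), Kr T T0 ξ * ‖∑ v ∈ V, ee (ξ * u v)‖ := by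
    rw [integral_congr_ae (Filter.Eventually.of_forall heven)]
    exact integral_comp_abs (f := fun ξ : ℝ => Kr T T0 ξ * ‖∑ v ∈ V, ee (ξ * u v)‖)
  rw [h2] at hle
  refine (ENNReal.ofReal_le_ofReal hle).trans ?_
  rw [ENNReal.ofReal_mul (by norm_num), ofReal_integral_eq_lintegral_ofReal hKi.integrableOn
    (Filter.Eventually.of_forall fun ξ => mul_nonneg (Kr_nonneg T T0 ξ h0 h) (norm_nonneg _))]
  rw [ENNReal.ofReal_ofNat]

end Pool.Agent.L7h43.MW
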