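import Pool.Agent.L7h43.MW.Coarse

/-! The count at the coarse scale with `k + 1` variables. -/

set_option autoImplicit false

namespace Pool.Agent.L7h43.MW

open Finset

/-- the constant for `k + 1` variables -/
def AB (d : ℕ) : ℕ := ∑ i : Fin (d + 1), 5 ^ (i.val * (d + 1)) + 5 ^ ((d + 1) * (d + 1))

lemma AB_pos (d : ℕ) : 0 < AB d := by unfold AB; positivity

theorem coarse2 (d B : ℕ) : ∃ c C₀ : ℝ, 0 < c ∧ 0 < C₀ ∧ ∃ X₀ : ℕ, 1 ≤ X₀ ∧ ∀ X : ℕ, X₀ ≤ X →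
    ∀ θ ∈ Box d B, ∀ τ H : ℝ, AB d * ((3 / 2) * X) ^ (d + 1) ≤ τ →
      τ ≤ AB d * ((7 / 2) * X) ^ (d + 1) → C₀ * (X : ℝ) ^ d ≤ H → H ≤ (X : ℝ) ^ (d + 1) →
      c * (X : ℝ) ^ (d + 1) * (H / (X : ℝ) ^ d) ≤
        ∑ x ∈ Bx X (d + 1), ∑ z ∈ I X (d + 1),
          Real.exp (-(Real.pi * (1 / H) ^ 2 * (∑ i, P d θ (x i) + P d θ z - τ) ^ 2)) := by
  set k := d + 1 with hk
  set C₁ : ℝ := k * (5 ^ k * (7 / 2)) ^ d with hC₁
  set C₂ : ℝ := d * B * (4 * 5 ^ k) ^ d with hC₂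
  set C₃ : ℝ := 2 * (d + 1) * (4 * 5 ^ k) ^ d with hC₃
  have hC₁0 : 0 < C₁ := by rw [hC₁]; positivity
  have hC₂0 : 0 ≤ C₂ := by rw [hC₂]; positivity
  have hC₃0 : 0 < C₃ := by rw [hC₃]; positivity
  set κ : ℝ := min (1 / 2) ((k * ((3 / 2) * 5 ^ k) ^ d * (5 ^ k / 4)) / (2 * k * C₁)) with hκ
  have hκ0 : 0 < κ := by
    rw [hκ]; apply lt_min (by norm_num)
    have : (0 : ℝ) < k := by rw [hk]; positivity
    positivity
  have hκ1 : κ ≤ 1 / 2 := min_le_left _ _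
  have hκ2 : 2 * k * C₁ * κ ≤ k * ((3 / 2) * 5 ^ k) ^ d * (5 ^ k / 4) := by
    have h1 : κ ≤ (k * ((3 / 2) * 5 ^ k) ^ d * (5 ^ k / 4)) / (2 * k * C₁) := min_le_right _ _
    have : (0 : ℝ) < k := by rw [hk]; positivity
    have h2 : (0 : ℝ) < 2 * k * C₁ := by positivity
    rw [le_div_iff₀ h2] at h1
    linarith
  refine ⟨(κ / 2) ^ (d + 1) * (1 / (2 * C₃)) * Real.exp (-Real.pi),
    2 * C₃ + 2 * (2 * k + 1) * C₂, by positivity, by positivity, ⌈2 / κ⌉₊ + 1, by omega, ?_⟩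
  intro X hX θ hθ τ H hτ1 hτ2 hH1 hH2
  have hXr : 2 / κ ≤ (X : ℝ) := by
    have h1 : (⌈2 / κ⌉₊ : ℝ) ≤ X := by exact_mod_cast (by omega : ⌈2 / κ⌉₊ ≤ X)
    exact (Nat.le_ceil _).trans h1
  have hX1 : (1 : ℝ) ≤ X := by exact_mod_cast (by omega : 1 ≤ X)
  have hX0 : (0 : ℝ) < X := by linarith
  have hκX : 2 ≤ κ * X := by
    rw [div_le_iff₀ hκ0] at hXr; linarith
  have hXd : (0 : ℝ) < (X : ℝ) ^ d := by positivity
  have hH0 : 0 < H := by
    have : 0 < (2 * C₃ + 2 * (2 * k + 1) * C₂) * (X : ℝ) ^ d := by positivity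
    linarith
  -- the real number t
  have hA0 : (0 : ℝ) < AB d := by exact_mod_cast AB_pos d
  have hτ0 : 0 < τ := lt_of_lt_of_le (by positivity) hτ1
  obtain ⟨t, ht0, htk⟩ : ∃ t : ℝ, 0 ≤ t ∧ t ^ k = τ / AB d := by
    refine ⟨(τ / AB d) ^ ((k : ℝ)⁻¹), by positivity, ?_⟩
    exact Real.rpow_inv_natCast_pow (by positivity) (by omega)
  have hk0 : k ≠ 0 := by omega
  have ht1 : (3 / 2) * X ≤ t := by
    apply le_of_pow_le_pow_left₀ hk0 ht0
    rw [htk, le_div_iff₀ hA0]; linarith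
  have ht2 : t ≤ (7 / 2) * X := by
    apply le_of_pow_le_pow_left₀ hk0 (by positivity)
    rw [htk, div_le_iff₀ hA0]; linarith
  have hτt : τ = AB d * t ^ k := by rw [htk]; field_simp
  -- the ranges of the coordinates
  let Jf : ℕ → Finset ℕ := fun i => Finset.Ioc ⌊5 ^ i * t - κ * X⌋₊ ⌊5 ^ i * t⌋₊
  have h5 : ∀ i : ℕ, (1 : ℝ) ≤ 5 ^ i := fun i => one_le_pow₀ (by norm_num)
  have hJmem : ∀ i : ℕ, ∀ n ∈ Jf i, 5 ^ i * t - κ * X < (n : ℝ) ∧ (n : ℝ) ≤ 5 ^ i * t := by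
    intro i n hn
    have h1 := Finset.mem_Ioc.1 hn
    refine ⟨Nat.lt_of_floor_lt h1.1, ?_⟩
    exact (Nat.le_floor_iff (by positivity)).1 h1.2
  have hlow : ∀ i : ℕ, 0 ≤ 5 ^ i * t - κ * X := by
    intro i
    have : κ * X ≤ 1 / 2 * X := by gcongr
    have h2 : t ≤ 5 ^ i * t := le_mul_of_one_le_left ht0 (h5 i)
    linarith
  have hJI : ∀ i : ℕ, Jf i ⊆ I X i := by
    intro i n hn
    obtain ⟨h1, h2⟩ := hJmem i n hn
    rw [mem_I]
    have h3 : κ * X ≤ 1 / 2 * X := by gcongr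
    have h6 : (5 : ℝ) ^ i * ((3 / 2) * X) ≤ 5 ^ i * t := by gcongr
    have h7 : (5 : ℝ) ^ i * t ≤ 5 ^ i * ((7 / 2) * X) := by gcongr
    have h8 : (X : ℝ) ≤ 5 ^ i * X := le_mul_of_one_le_left hX0.le (h5 i)
    constructor
    · have : ((5 ^ i * X : ℕ) : ℝ) < n := by push_cast; nlinarith
      exact_mod_cast this
    · have : (n : ℝ) ≤ ((4 * 5 ^ i * X : ℕ) : ℝ) := by push_cast; nlinarith
      exact_mod_cast this
  have hJcard : ∀ i : ℕ, κ / 2 * X ≤ ((Jf i).card : ℝ) := by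
    intro i
    rw [Nat.card_Ioc]
    have h1 : (⌊5 ^ i * t - κ * X⌋₊ : ℝ) ≤ 5 ^ i * t - κ * X := Nat.floor_le (hlow i)
    have h2 : 5 ^ i * t - 1 < (⌊5 ^ i * t⌋₊ : ℝ) := Nat.sub_one_lt_floor _
    have h3 : (⌊5 ^ i * t⌋₊ : ℝ) - (⌊5 ^ i * t - κ * X⌋₊ : ℝ) ≤
        ((⌊5 ^ i * t⌋₊ - ⌊5 ^ i * t - κ * X⌋₊ : ℕ) : ℝ) := by
      rw [sub_le_iff_le_add]
      exact_mod_cast (by omega : ⌊5 ^ i * t⌋₊ ≤ ⌊5 ^ i * t⌋₊ - ⌊5 ^ i * t - κ * X⌋₊ + ⌊5 ^ i * t - κ * X⌋₊)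
    linarith
  let J : Finset (Fin (d + 1) → ℕ) := Fintype.piFinset fun i : Fin (d + 1) => Jf i
  have hJB : J ⊆ Bx X (d + 1) := Fintype.piFinset_subset _ _ fun i => hJI i
  have hJc : (κ / 2 * X) ^ (d + 1) ≤ (J.card : ℝ) := by
    rw [Fintype.card_piFinset]
    push_cast
    calc (κ / 2 * X) ^ (d + 1) = ∏ _i : Fin (d + 1), (κ / 2 * X) := by simp
      _ ≤ _ := Finset.prod_le_prod (fun i _ => by positivity) fun i _ => hJcard i
  -- bound for the sum of powers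
  have hpow : ∀ x ∈ J, 0 ≤ ∑ i, ((5 ^ i.val * t) ^ k - (x i : ℝ) ^ k) ∧
      ∑ i, ((5 ^ i.val * t) ^ k - (x i : ℝ) ^ k) ≤ k * C₁ * κ * (X : ℝ) ^ k := by
    intro x hx
    have hx' : ∀ i : Fin (d + 1), x i ∈ Jf i := Fintype.mem_piFinset.1 hx
    constructor
    · refine Finset.sum_nonneg fun i _ => ?_
      have := (hJmem i _ (hx' i)).2
      rw [sub_nonneg]
      exact pow_le_pow_left₀ (Nat.cast_nonneg _) this k
    · calc ∑ i, ((5 ^ i.val * t) ^ k - (x i : ℝ) ^ k) ≤ ∑ _i : Fin (d + 1), C₁ * κ * (X : ℝ) ^ k := by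
            refine Finset.sum_le_sum fun i _ => ?_
            obtain ⟨h1, h2⟩ := hJmem i _ (hx' i)
            have h3 := pow_sub_pow_le' (5 ^ i.val * t) (x i) d (Nat.cast_nonneg _) h2
            have h4 : (5 : ℝ) ^ i.val * t ≤ 5 ^ k * (7 / 2) * X := by
              have : (5 : ℝ) ^ i.val ≤ 5 ^ k := pow_le_pow_right₀ (by norm_num) (by omega)
              calc (5 : ℝ) ^ i.val * t ≤ 5 ^ k * ((7 / 2) * X) := by gcongr
                _ = _ := by ring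
            calc (5 ^ i.val * t) ^ k - (x i : ℝ) ^ k ≤ (d + 1) * (5 ^ i.val * t) ^ d * (5 ^ i.val * t - x i) := h3
              _ ≤ (d + 1) * (5 ^ k * (7 / 2) * X) ^ d * (κ * X) := by
                  have h6 : 5 ^ i.val * t - (x i : ℝ) ≤ κ * X := by linarith
                  have h7 : 0 ≤ 5 ^ i.val * t - (x i : ℝ) := by linarith
                  gcongr
              _ = C₁ * κ * (X : ℝ) ^ k := by
                  rw [hC₁, mul_pow]; simp only [hk]; push_cast; ring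
        _ = k * C₁ * κ * (X : ℝ) ^ k := by simp [hk]; ring
  -- the lower order terms
  have hlot : ∀ n : ℕ, 1 ≤ n → (n : ℝ) ≤ 4 * 5 ^ k * X → |P d θ n - (n : ℝ) ^ (d + 1)| ≤ C₂ * (X : ℝ) ^ d := by
    intro n hn1 hn2
    have h1 : (1 : ℝ) ≤ n := by exact_mod_cast hn1
    refine (P_sub_le d B θ hθ n h1).trans ?_
    calc (d : ℝ) * B * (n : ℝ) ^ d ≤ d * B * (4 * 5 ^ k * X) ^ d := by gcongr
      _ = C₂ * (X : ℝ) ^ d := by rw [hC₂, mul_pow]; ring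
  have hlotB : ∀ x ∈ J, |∑ i, P d θ (x i) - ∑ i, (x i : ℝ) ^ k| ≤ k * C₂ * (X : ℝ) ^ d := by
    intro x hx
    rw [← Finset.sum_sub_distrib]
    refine (abs_sum_le_sum_abs _ _).trans ?_
    calc ∑ i, |P d θ (x i) - (x i : ℝ) ^ k| ≤ ∑ _i : Fin (d + 1), C₂ * (X : ℝ) ^ d := by
          refine Finset.sum_le_sum fun i _ => ?_
          have h1 := mem_I.1 (hJI i (Fintype.mem_piFinset.1 hx i))
          apply hlot
          · have : 0 < 5 ^ i.val * X := by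
              have : 0 < X := by omega
              positivity
            omega
          · have h2 : x i ≤ 4 * 5 ^ k * X := by
              refine h1.2.trans ?_
              have : 5 ^ i.val ≤ 5 ^ k := Nat.pow_le_pow_right (by norm_num) (by omega)
              gcongr
            exact_mod_cast h2
      _ = k * C₂ * (X : ℝ) ^ d := by simp [hk]; ring
  -- the last coordinate
  set h : ℝ := H / (C₃ * (X : ℝ) ^ d) with hh
  have hh2 : 2 ≤ h := by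
    rw [hh, le_div_iff₀ (by positivity)]
    have : 0 ≤ 2 * (2 * k + 1) * C₂ * (X : ℝ) ^ d := by positivity
    nlinarith
  have hhX : h ≤ 5 ^ k / 4 * X := by
    rw [hh, div_le_iff₀ (by positivity)]
    have h1 : (1 : ℝ) ≤ 5 ^ k / 4 * C₃ := by
      rw [hC₃]
      have h2 : (1 : ℝ) ≤ (4 * 5 ^ k) ^ d := one_le_pow₀ (by linarith [h5 k])
      have h3 : (5 : ℝ) ≤ 5 ^ k := by
        calc (5 : ℝ) = 5 ^ 1 := by norm_num
          _ ≤ 5 ^ k := pow_le_pow_right₀ (by norm_num) (by omega)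
      have h4 : (1 : ℝ) ≤ (d : ℝ) + 1 := by linarith [(Nat.cast_nonneg d : (0 : ℝ) ≤ d)]
      have h6 : (1 : ℝ) ≤ ((d : ℝ) + 1) * (4 * 5 ^ k) ^ d := by nlinarith
      nlinarith
    calc H ≤ (X : ℝ) ^ (d + 1) := hH2
      _ = 1 * (X * (X : ℝ) ^ d) := by ring
      _ ≤ (5 ^ k / 4 * C₃) * (X * (X : ℝ) ^ d) := by gcongr
      _ = _ := by ring
  have hz : ∀ x ∈ J, h / 2 * Real.exp (-Real.pi) ≤ ∑ z ∈ I X (d + 1),
      Real.exp (-(Real.pi * (1 / H) ^ 2 *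
            (∑ i, P d θ (x i) + P d θ z - τ) ^ 2)) := by
    intro x hx
    obtain ⟨p1, p2⟩ := hpow x hx
    set R : ℝ := τ - ∑ i, (x i : ℝ) ^ k with hR
    have hRe : R = (5 ^ k * t) ^ k + ∑ i, ((5 ^ i.val * t) ^ k - (x i : ℝ) ^ k) := by
      rw [hR, hτt, Finset.sum_sub_distrib]
      have e1 : ((AB d : ℕ) : ℝ) = ∑ i : Fin (d + 1), (5 : ℝ) ^ (i.val * (d + 1)) + 5 ^ ((d + 1) * (d + 1)) := by
        unfold AB; push_cast; ring
      have e2 : ∑ i : Fin (d + 1), ((5 : ℝ) ^ i.val * t) ^ k = (∑ i : Fin (d + 1), (5 : ℝ) ^ (i.val * (d + 1))) * t ^ k := by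
        rw [Finset.sum_mul]
        refine Finset.sum_congr rfl fun i _ => ?_
        rw [mul_pow, ← pow_mul]
      rw [e1, e2, mul_pow, ← pow_mul]
      ring
    have hRlo : (5 ^ k * t) ^ k ≤ R := by rw [hRe]; linarith
    have hRhi : R ≤ (5 ^ k * t + 5 ^ k / 4 * X) ^ k := by
      have h1 : (5 ^ k * t) ^ k + k * (5 ^ k * t) ^ d * (5 ^ k / 4 * X) ≤ (5 ^ k * t + 5 ^ k / 4 * X) ^ k :=
        bern (5 ^ k * t) (5 ^ k / 4 * X) d (by
          have : 0 < t := by linarith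
          positivity) (by positivity)
      refine le_trans ?_ h1
      rw [hRe]
      have h2 : k * ((3 / 2) * 5 ^ k) ^ d * (5 ^ k / 4) * (X : ℝ) ^ k ≤ k * (5 ^ k * t) ^ d * (5 ^ k / 4 * X) := by
        have e5 : (X : ℝ) ^ k = X ^ d * X := by rw [hk, pow_succ]
        have h6 : ((3 / 2) * 5 ^ k * (X : ℝ)) ^ d ≤ (5 ^ k * t) ^ d := by
          apply pow_le_pow_left₀ (by positivity)
          calc (3 / 2 : ℝ) * 5 ^ k * X = 5 ^ k * ((3 / 2) * X) := by ring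
            _ ≤ 5 ^ k * t := by gcongr
        calc (k : ℝ) * ((3 / 2) * 5 ^ k) ^ d * (5 ^ k / 4) * (X : ℝ) ^ k =
              k * ((3 / 2) * 5 ^ k * (X : ℝ)) ^ d * (5 ^ k / 4 * X) := by
                rw [e5, mul_pow (_ * _) (X : ℝ) d]; ring
          _ ≤ _ := by gcongr
      have h7 : 2 * (k * C₁ * κ * (X : ℝ) ^ k) ≤ k * ((3 / 2) * 5 ^ k) ^ d * (5 ^ k / 4) * (X : ℝ) ^ k := by
        calc 2 * (k * C₁ * κ * (X : ℝ) ^ k) = (2 * k * C₁ * κ) * (X : ℝ) ^ k := by ring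
          _ ≤ _ := by gcongr
      linarith
    have hR0 : 0 ≤ R := le_trans (by positivity) hRlo
    obtain ⟨ρ, hρ0, hρk⟩ : ∃ ρ : ℝ, 0 ≤ ρ ∧ ρ ^ k = R :=
      ⟨R ^ ((k : ℝ)⁻¹), by positivity, Real.rpow_inv_natCast_pow hR0 (by omega)⟩
    have hρ1 : 5 ^ k * t ≤ ρ := by
      apply le_of_pow_le_pow_left₀ hk0 hρ0
      rw [hρk]; exact hRlo
    have hρ2 : ρ ≤ 5 ^ k * t + 5 ^ k / 4 * X := by
      apply le_of_pow_le_pow_left₀ hk0 (by positivity)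
      rw [hρk]; exact hRhi
    let Z : Finset ℕ := Finset.Ioc ⌊ρ⌋₊ ⌊ρ + h⌋₊
    have hZmem : ∀ z ∈ Z, ρ < (z : ℝ) ∧ (z : ℝ) ≤ ρ + h := by
      intro z hz
      have h1 := Finset.mem_Ioc.1 hz
      exact ⟨Nat.lt_of_floor_lt h1.1, (Nat.le_floor_iff (by positivity)).1 h1.2⟩
    have hzup : ∀ z ∈ Z, (z : ℝ) ≤ 4 * 5 ^ k * X := by
      intro z hz
      have h1 := (hZmem z hz).2
      have h2 : (5 : ℝ) ^ k * t ≤ 5 ^ k * ((7 / 2) * X) := by gcongr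
      nlinarith
    have hZI : Z ⊆ I X (d + 1) := by
      intro z hz
      rw [mem_I]
      have h1 := (hZmem z hz).1
      have h2 := hzup z hz
      have h3 : (5 : ℝ) ^ k * ((3 / 2) * X) ≤ 5 ^ k * t := by gcongr
      have h4 : (0 : ℝ) < 5 ^ k * X := by positivity
      constructor
      · have : ((5 ^ (d + 1) * X : ℕ) : ℝ) < z := by push_cast; rw [← hk]; nlinarith
        exact_mod_cast this
      · have : (z : ℝ) ≤ ((4 * 5 ^ (d + 1) * X : ℕ) : ℝ) := by push_cast; rw [← hk]; exact h2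
        exact_mod_cast this
    have hZc : h / 2 ≤ (Z.card : ℝ) := by
      rw [Nat.card_Ioc]
      have h1 : (⌊ρ⌋₊ : ℝ) ≤ ρ := Nat.floor_le hρ0
      have h2 : ρ + h - 1 < (⌊ρ + h⌋₊ : ℝ) := Nat.sub_one_lt_floor _
      have h3 : (⌊ρ + h⌋₊ : ℝ) - (⌊ρ⌋₊ : ℝ) ≤ ((⌊ρ + h⌋₊ - ⌊ρ⌋₊ : ℕ) : ℝ) := by
        rw [sub_le_iff_le_add]
        exact_mod_cast (by omega : ⌊ρ + h⌋₊ ≤ ⌊ρ + h⌋₊ - ⌊ρ⌋₊ + ⌊ρ⌋₊)
      linarith
    have hterm : ∀ z ∈ Z, Real.exp (-Real.pi) ≤ Real.exp (-(Real.pi * (1 / H) ^ 2 *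
            (∑ i, P d θ (x i) + P d θ z - τ) ^ 2)) := by
      intro z hz
      apply Real.exp_le_exp.2
      rw [neg_le_neg_iff]
      have hpi := Real.pi_pos
      obtain ⟨z1, z2⟩ := hZmem z hz
      have hz1 : 1 ≤ z := by
        have : (0 : ℝ) < z := lt_of_le_of_lt hρ0 z1
        have : 0 < z := by exact_mod_cast this
        omega
      have q1 := hlot z hz1 (hzup z hz)
      have q2 := hlotB x hx
      have q4 : |(z : ℝ) ^ k - R| ≤ H / 2 := by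
        have r1 : ρ ^ k ≤ (z : ℝ) ^ k := pow_le_pow_left₀ hρ0 z1.le k
        rw [← hρk, abs_of_nonneg (by linarith)]
        have r2 := pow_sub_pow_le' (z : ℝ) ρ d hρ0 z1.le
        calc (z : ℝ) ^ k - ρ ^ k ≤ (d + 1) * (z : ℝ) ^ d * (z - ρ) := r2
          _ ≤ (d + 1) * (4 * 5 ^ k * X) ^ d * h := by
              have r3 : (z : ℝ) - ρ ≤ h := by linarith
              have r4 := hzup z hz
              have r5 : 0 ≤ (z : ℝ) - ρ := by linarith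
              gcongr
          _ = H / 2 := by
              rw [hh, hC₃, mul_pow (4 * 5 ^ k) (X : ℝ) d]
              field_simp
      have q5 : |∑ i, P d θ (x i) + P d θ z - τ| ≤ H := by
        have e6 : ∑ i, P d θ (x i) + P d θ z - τ =
            (∑ i, P d θ (x i) - ∑ i, (x i : ℝ) ^ k) +
              (P d θ z - (z : ℝ) ^ (d + 1)) + ((z : ℝ) ^ k - R) := by
          rw [hR, hk]; ring
        rw [e6]
        refine (abs_add_le _ _).trans ?_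
        refine (add_le_add ((abs_add_le _ _).trans (add_le_add q2 q1)) q4).trans ?_
        have w0 : 0 ≤ k * C₂ * (X : ℝ) ^ d := by positivity
        have : (2 * k + 1) * C₂ * (X : ℝ) ^ d ≤ H / 2 := by
          have w1 : 0 ≤ 2 * C₃ * (X : ℝ) ^ d := by positivity
          have w2 : (2 * C₃ + 2 * (2 * k + 1) * C₂) * (X : ℝ) ^ d =
            2 * C₃ * (X : ℝ) ^ d + 2 * ((2 * k + 1) * C₂ * (X : ℝ) ^ d) := by ring
          rw [w2] at hH1
          linarith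
        nlinarith
      have q6 : (∑ i, P d θ (x i) + P d θ z - τ) ^ 2 ≤ H ^ 2 := by
        rw [← sq_abs]
        exact pow_le_pow_left₀ (abs_nonneg _) q5 2
      calc Real.pi * (1 / H) ^ 2 * (∑ i, P d θ (x i) + P d θ z - τ) ^ 2 ≤
            Real.pi * (1 / H) ^ 2 * H ^ 2 := by gcongr
        _ = Real.pi := by field_simp
    calc h / 2 * Real.exp (-Real.pi) ≤ Z.card * Real.exp (-Real.pi) := by
          have := (Real.exp_pos (-Real.pi)).le
          gcongr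
      _ = ∑ _z ∈ Z, Real.exp (-Real.pi) := by rw [Finset.sum_const, nsmul_eq_mul]
      _ ≤ ∑ z ∈ Z, Real.exp (-(Real.pi * (1 / H) ^ 2 *
            (∑ i, P d θ (x i) + P d θ z - τ) ^ 2)) := Finset.sum_le_sum hterm
      _ ≤ _ := Finset.sum_le_sum_of_subset_of_nonneg hZI fun _ _ _ => (Real.exp_pos _).le
  -- conclusion
  calc (κ / 2) ^ (d + 1) * (1 / (2 * C₃)) * Real.exp (-Real.pi) * (X : ℝ) ^ (d + 1) * (H / (X : ℝ) ^ d)
      = (κ / 2 * X) ^ (d + 1) * (h / 2 * Real.exp (-Real.pi)) := by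
        rw [hh, mul_pow]
        field_simp
    _ ≤ J.card * (h / 2 * Real.exp (-Real.pi)) := by
        have w1 : 0 ≤ h / 2 * Real.exp (-Real.pi) :=
          mul_nonneg (by linarith) (Real.exp_pos _).le
        exact mul_le_mul_of_nonneg_right hJc w1
    _ = ∑ _x ∈ J, (h / 2 * Real.exp (-Real.pi)) := by
        rw [Finset.sum_const, nsmul_eq_mul]
    _ ≤ ∑ x ∈ J, ∑ z ∈ I X (d + 1), Real.exp (-(Real.pi * (1 / H) ^ 2 *
            (∑ i, P d θ (x i) + P d θ z - τ) ^ 2)) :=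
        Finset.sum_le_sum fun x hx => hz x hx
    _ ≤ _ := Finset.sum_le_sum_of_subset_of_nonneg hJB fun _ _ _ =>
          Finset.sum_nonneg fun _ _ => (Real.exp_pos _).le

end Pool.Agent.L7h43.MW
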