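import Pool.Agent.L7h43.MW.Fin2
import Pool.Agent.L7h43.MW.Coarse2

/-! Almost all targets, `k + 1` variables: one dyadic block. -/

set_option autoImplicit false

namespace Pool.Agent.L7h43.MW

open Finset MeasureTheory

lemma gauss_sq {ι : Type*} (E : Finset ι) (m : ι → ℝ) (T : ℝ) (hT : 0 < T) :
    ∫⁻ ξ : ℝ, ENNReal.ofReal (Real.exp (-(Real.pi * ξ ^ 2 / T ^ 2)) * ‖∑ i ∈ E, ee (ξ * m i)‖ ^ 2) =
      ENNReal.ofReal (∑ i ∈ E, ∑ j ∈ E, T * Real.exp (-(Real.pi * T ^ 2 * (m i - m j) ^ 2))) := by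
  have hi : ∀ u : ℝ, Integrable (fun ξ : ℝ =>
      ((Real.exp (-(Real.pi * ξ ^ 2 / T ^ 2)) : ℝ) : ℂ) * ee (ξ * u)) := by
    intro u
    refine ((integrable_gauss T hT).ofReal (𝕜 := ℂ)).mul_bdd (c := 1) ?_ ?_
    · exact ((continuous_ee.comp (continuous_id.mul continuous_const))).aestronglyMeasurable
    · exact Filter.Eventually.of_forall fun ξ => (norm_ee _).le
  have hsq : ∀ ξ : ℝ, (((Real.exp (-(Real.pi * ξ ^ 2 / T ^ 2)) * ‖∑ i ∈ E, ee (ξ * m i)‖ ^ 2 : ℝ)) : ℂ) =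
      ∑ i ∈ E, ∑ j ∈ E, ((Real.exp (-(Real.pi * ξ ^ 2 / T ^ 2)) : ℝ) : ℂ) * ee (ξ * (m i - m j)) := by
    intro ξ
    rw [Complex.ofReal_mul]
    have h1 : (((‖∑ i ∈ E, ee (ξ * m i)‖ ^ 2 : ℝ)) : ℂ) = (∑ i ∈ E, ee (ξ * m i)) *
        (starRingEnd ℂ) (∑ i ∈ E, ee (ξ * m i)) := by
      rw [Complex.mul_conj, Complex.normSq_eq_norm_sq]
    rw [h1, map_sum, Finset.sum_mul_sum, Finset.mul_sum]
    refine Finset.sum_congr rfl fun i _ => ?_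
    rw [Finset.mul_sum]
    refine Finset.sum_congr rfl fun j _ => ?_
    rw [← ee_neg, ← ee_add]
    congr 2
    ring
  have hval : ∫ ξ : ℝ, Real.exp (-(Real.pi * ξ ^ 2 / T ^ 2)) * ‖∑ i ∈ E, ee (ξ * m i)‖ ^ 2 =
      ∑ i ∈ E, ∑ j ∈ E, T * Real.exp (-(Real.pi * T ^ 2 * (m i - m j) ^ 2)) := by
    have h2 : ((∫ ξ : ℝ, Real.exp (-(Real.pi * ξ ^ 2 / T ^ 2)) * ‖∑ i ∈ E, ee (ξ * m i)‖ ^ 2 : ℝ) : ℂ) =
        ((∑ i ∈ E, ∑ j ∈ E, T * Real.exp (-(Real.pi * T ^ 2 * (m i - m j) ^ 2)) : ℝ) : ℂ) := by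
      rw [← integral_complex_ofReal]
      simp_rw [hsq]
      rw [integral_finsetSum _ fun i _ => integrable_finsetSum _ fun j _ => hi _]
      push_cast
      refine Finset.sum_congr rfl fun i _ => ?_
      rw [integral_finsetSum _ fun j _ => by simpa using hi _]
      refine Finset.sum_congr rfl fun j _ => ?_
      have := gk T (m i - m j) hT
      push_cast at this
      rw [this]
    exact_mod_cast h2
  have hint : Integrable (fun ξ : ℝ => Real.exp (-(Real.pi * ξ ^ 2 / T ^ 2)) * ‖∑ i ∈ E, ee (ξ * m i)‖ ^ 2) := by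
    refine (integrable_gauss T hT).mul_bdd (c := (E.card : ℝ) ^ 2) ?_ ?_
    · have : Continuous fun ξ : ℝ => ∑ i ∈ E, ee (ξ * m i) :=
        continuous_finsetSum _ fun v _ => continuous_ee.comp (continuous_id.mul continuous_const)
      exact (this.norm.pow 2).aestronglyMeasurable
    · refine Filter.Eventually.of_forall fun ξ => ?_
      rw [Real.norm_of_nonneg (by positivity)]
      apply pow_le_pow_left₀ (norm_nonneg _)
      calc ‖∑ v ∈ E, ee (ξ * m v)‖ ≤ ∑ v ∈ E, ‖ee (ξ * m v)‖ := norm_sum_le _ _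
        _ = E.card := by simp [norm_ee]
  rw [← hval, ofReal_integral_eq_lintegral_ofReal hint]
  exact Filter.Eventually.of_forall fun ξ => by positivity

/-- the index set with `k + 1` variables -/
def V2 (d X : ℕ) : Finset ((Fin (d + 1) → ℕ) × ℕ) := Bx X (d + 1) ×ˢ I X (d + 1)

/-- the value -/
noncomputable def U2 (d : ℕ) (θ : Fin d → ℝ) (v : (Fin (d + 1) → ℕ) × ℕ) : ℝ := ∑ i, P d θ (v.1 i) + P d θ v.2

lemma norm_V2 (d X : ℕ) (θ : Fin d → ℝ) (E : Finset ℝ) (ξ : ℝ) :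
    ‖∑ v ∈ V2 d X ×ˢ E, ee (ξ * (U2 d θ v.1 - v.2))‖ =
      G d X (d + 1) θ ξ * ‖f d X (d + 1) θ ξ‖ * ‖∑ m ∈ E, ee (ξ * (-m))‖ := by
  have h : ∑ v ∈ V2 d X ×ˢ E, ee (ξ * (U2 d θ v.1 - v.2)) =
      (∑ v ∈ Bx X (d + 1), ee (ξ * ∑ i, P d θ (v i))) * f d X (d + 1) θ ξ * ∑ m ∈ E, ee (ξ * (-m)) := by
    unfold V2 f
    rw [Finset.sum_product, Finset.sum_product, Finset.sum_mul_sum, Finset.sum_mul]
    refine Finset.sum_congr rfl fun a _ => ?_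
    rw [Finset.sum_mul]
    refine Finset.sum_congr rfl fun b _ => ?_
    rw [Finset.mul_sum]
    refine Finset.sum_congr rfl fun z _ => ?_
    rw [← ee_add, ← ee_add]
    congr 1
    unfold U2
    ring
  rw [h, norm_mul, norm_mul, ← G_eq2]

lemma card_V2 (d X : ℕ) : ((V2 d X).card : ℝ) ≤ (4 * 5 ^ (d + 1) * X) ^ (d + 2) := by
  unfold V2
  rw [Finset.card_product]
  have h1 := Pool.Agent.L7h14.MW.card_Bx_le X (d + 1) (d + 1) (by omega)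
  have h2 := Pool.Agent.L7h14.MW.card_I_le X (d + 1) (d + 1) le_rfl
  have h3 : (Bx X (d + 1)).card * (I X (d + 1)).card ≤
      (4 * 5 ^ (d + 1) * X) ^ (d + 1) * (4 * 5 ^ (d + 1) * X) := Nat.mul_le_mul h1 h2
  have h4 : (4 * 5 ^ (d + 1) * X) ^ (d + 1) * (4 * 5 ^ (d + 1) * X) =
      (4 * 5 ^ (d + 1) * X) ^ (d + 2) := by ring
  rw [h4] at h3
  exact_mod_cast h3

theorem near2 (d B : ℕ) (hd : 1 ≤ d) : ∃ c C : ℝ, 0 < c ∧ 0 < C ∧ ∃ X₀ : ℕ, 1 ≤ X₀ ∧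
    ∀ X : ℕ, X₀ ≤ X → ∀ θ ∈ Box d B, ∀ T H : ℝ, 0 < H →
    ∫⁻ ξ in Set.Ioc 0 (c / (X : ℝ) ^ d), ENNReal.ofReal (Kr T (1 / H) ξ * (G d X (d + 1) θ ξ * ‖f d X (d + 1) θ ξ‖)) ≤
      ENNReal.ofReal (C * (H ^ 2 / (X : ℝ) ^ (2 * d))) := by
  have hpi := Real.pi_pos
  obtain ⟨c, C, hc, hC, X₀, h⟩ := Pool.Agent.L7h14.MW.s_KL d B hd
  set M : ℝ := max C (4 * 5 ^ (d + 1)) with hM
  have hM0 : 0 < M := lt_max_of_lt_left hC
  refine ⟨c, c * (Real.pi * M ^ (d + 2)), hc, by positivity, max 1 X₀, le_max_left _ _, ?_⟩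
  intro X hX θ hθ T H hH
  have hX1 : 1 ≤ X := (le_max_left _ _).trans hX
  have hx1 : (1 : ℝ) ≤ X := by exact_mod_cast hX1
  have hx0 : (0 : ℝ) < X := by linarith
  have hpt : ∀ ξ ∈ Set.Ioc 0 (c / (X : ℝ) ^ d), Kr T (1 / H) ξ * (G d X (d + 1) θ ξ * ‖f d X (d + 1) θ ξ‖) ≤
      Real.pi * M ^ (d + 2) * (H ^ 2 / (X : ℝ) ^ d) := by
    intro ξ hξ
    have hξ0 : 0 < ξ := hξ.1
    have hf1 : ∀ i ≤ d + 1, ‖f d X i θ ξ‖ ≤ M * X := by
      intro i hi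
      refine (f_le d X i (d + 1) hi θ ξ).trans ?_
      have : (4 * 5 ^ (d + 1) : ℝ) ≤ M := le_max_right _ _
      gcongr
    have hf2 : ∀ i ≤ d + 1, ‖f d X i θ ξ‖ * (ξ * (X : ℝ) ^ d) ≤ M := by
      intro i hi
      have h1 := h X ((le_max_right _ _).trans hX) θ hθ ξ hξ0 (by
          have := hξ.2
          rwa [le_div_iff₀ (by positivity)] at this) i hi
      exact h1.trans (le_max_left _ _)
    have hG0 := G_nonneg d X (d + 1) θ ξ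
    -- G uses at least one factor with the second bound
    have hG : G d X (d + 1) θ ξ * (ξ * (X : ℝ) ^ d) ≤ M * (M * X) ^ d := by
      unfold G
      rw [Finset.prod_range_succ]
      have h3 : ∏ i ∈ range d, ‖f d X i θ ξ‖ ≤ (M * X) ^ d := by
        calc ∏ i ∈ range d, ‖f d X i θ ξ‖ ≤ ∏ _i ∈ range d, (M * X) := by
              refine Finset.prod_le_prod (fun _ _ => norm_nonneg _) fun i hi => ?_
              exact hf1 i (by have := Finset.mem_range.1 hi; omega)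
          _ = (M * X) ^ d := by simp
      have h4 := hf2 d (by omega)
      have h5 : 0 ≤ ‖f d X d θ ξ‖ * (ξ * (X : ℝ) ^ d) := by positivity
      calc (∏ i ∈ range d, ‖f d X i θ ξ‖) * ‖f d X d θ ξ‖ * (ξ * (X : ℝ) ^ d) =
          (‖f d X d θ ξ‖ * (ξ * (X : ℝ) ^ d)) * ∏ i ∈ range d, ‖f d X i θ ξ‖ := by ring
        _ ≤ M * (M * X) ^ d := by gcongr
    have hF : ‖f d X (d + 1) θ ξ‖ * (ξ * (X : ℝ) ^ d) ≤ M := hf2 (d + 1) le_rfl
    have hK : Kr T (1 / H) ξ ≤ Real.pi * ξ ^ 2 * H ^ 2 := by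
      refine (Kr_le_sq T (1 / H) ξ).trans (le_of_eq ?_)
      field_simp
    have h6 : 0 ≤ G d X (d + 1) θ ξ * ‖f d X (d + 1) θ ξ‖ := by positivity
    have hXd : (0 : ℝ) < (X : ℝ) ^ d := by positivity
    calc Kr T (1 / H) ξ * (G d X (d + 1) θ ξ * ‖f d X (d + 1) θ ξ‖) ≤
        (Real.pi * ξ ^ 2 * H ^ 2) * (G d X (d + 1) θ ξ * ‖f d X (d + 1) θ ξ‖) := by gcongr
      _ = Real.pi * (H ^ 2 / ((X : ℝ) ^ d * (X : ℝ) ^ d)) * ((G d X (d + 1) θ ξ * (ξ * (X : ℝ) ^ d)) *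
          (‖f d X (d + 1) θ ξ‖ * (ξ * (X : ℝ) ^ d))) := by field_simp
      _ ≤ Real.pi * (H ^ 2 / ((X : ℝ) ^ d * (X : ℝ) ^ d)) * ((M * (M * X) ^ d) * M) := by gcongr
      _ = Real.pi * M ^ (d + 2) * (H ^ 2 / (X : ℝ) ^ d) := by
          rw [mul_pow]; field_simp; ring
  calc ∫⁻ ξ in Set.Ioc 0 (c / (X : ℝ) ^ d), ENNReal.ofReal (Kr T (1 / H) ξ * (G d X (d + 1) θ ξ * ‖f d X (d + 1) θ ξ‖)) ≤
      ∫⁻ _ξ in Set.Ioc 0 (c / (X : ℝ) ^ d), ENNReal.ofReal (Real.pi * M ^ (d + 2) * (H ^ 2 / (X : ℝ) ^ d)) := by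
        refine setLIntegral_mono' measurableSet_Ioc fun ξ hξ => ?_
        exact ENNReal.ofReal_le_ofReal (hpt ξ hξ)
    _ = _ := by
        rw [lintegral_const, Measure.restrict_apply MeasurableSet.univ, Set.univ_inter, Real.volume_Ioc,
          ← ENNReal.ofReal_mul (by positivity)]
        congr 1
        rw [sub_zero]
        field_simp
        ring

end Pool.Agent.L7h43.MW
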