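import Pool.Agent.L7h43.MW.Alm1

/-! Almost all targets, `k + 1` variables: the bound for one dyadic block. -/

set_option autoImplicit false

namespace Pool.Agent.L7h43.MW

open Finset MeasureTheory

/-- `1`-separated -/
def Sep (E : Finset ℝ) : Prop := ∀ a ∈ E, ∀ b ∈ E, a ≠ b → 1 ≤ |a - b|

lemma card_sep (E : Finset ℝ) (hE : Sep E) (K : ℝ) (hK : 0 ≤ K) (h : ∀ a ∈ E, 0 ≤ a ∧ a ≤ K) :
    (E.card : ℝ) ≤ K + 1 := by
  have h1 : E.card ≤ (Finset.range (⌊K⌋₊ + 1)).card := by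
    refine Finset.card_le_card_of_injOn (fun a => ⌊a⌋₊) ?_ ?_
    · intro a ha
      have := h a ha
      have h2 : ⌊a⌋₊ ≤ ⌊K⌋₊ := Nat.floor_le_floor this.2
      have h3 : ⌊a⌋₊ ∈ Finset.range (⌊K⌋₊ + 1) := Finset.mem_range.2 (by omega)
      exact h3
    · intro a ha b hb hab
      by_contra hne
      have h2 := hE a ha b hb hne
      have ha1 := h a ha
      have hb1 := h b hb
      simp only at hab
      have h3 := Nat.floor_le ha1.1
      have h4 := Nat.lt_floor_add_one a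
      have h5 := Nat.floor_le hb1.1
      have h6 := Nat.lt_floor_add_one b
      rw [hab] at h3 h4
      have h7 : |a - b| < 1 := by rw [abs_lt]; constructor <;> linarith
      linarith
  rw [Finset.card_range] at h1
  have h2 : (E.card : ℝ) ≤ (⌊K⌋₊ : ℝ) + 1 := by exact_mod_cast h1
  have h3 := Nat.floor_le hK
  linarith

lemma diag_le (E : Finset ℝ) (hE : Sep E) (T : ℝ) (hT : 0 < T)
    (h : (E.card : ℝ) * Real.exp (-(Real.pi * T ^ 2)) ≤ 1) :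
    ∑ i ∈ E, ∑ j ∈ E, T * Real.exp (-(Real.pi * T ^ 2 * (-i - -j) ^ 2)) ≤ 2 * T * E.card := by
  have hpi := Real.pi_pos
  have h1 : ∀ i ∈ E, ∑ j ∈ E, T * Real.exp (-(Real.pi * T ^ 2 * (-i - -j) ^ 2)) ≤ 2 * T := by
    intro i hi
    rw [← Finset.add_sum_erase E _ hi]
    have h2 : ∑ j ∈ E.erase i, T * Real.exp (-(Real.pi * T ^ 2 * (-i - -j) ^ 2)) ≤
        ∑ _j ∈ E.erase i, T * Real.exp (-(Real.pi * T ^ 2)) := by
      refine Finset.sum_le_sum fun j hj => ?_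
      have hj2 := Finset.mem_erase.1 hj
      have h3 := hE i hi j hj2.2 (fun h => hj2.1 h.symm)
      apply mul_le_mul_of_nonneg_left _ hT.le
      apply Real.exp_le_exp.2
      rw [neg_le_neg_iff]
      have h4 : 1 ≤ (-i - -j) ^ 2 := by
        have e : (-i - -j) ^ 2 = |i - j| ^ 2 := by rw [sq_abs]; ring
        rw [e]
        exact one_le_pow₀ h3
      have h5 : 0 ≤ Real.pi * T ^ 2 := by positivity
      nlinarith
    rw [Finset.sum_const, nsmul_eq_mul] at h2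
    have h6 : ((E.erase i).card : ℝ) ≤ E.card := by exact_mod_cast Finset.card_erase_le
    have h7 : ((E.erase i).card : ℝ) * (T * Real.exp (-(Real.pi * T ^ 2))) ≤ T := by
      calc ((E.erase i).card : ℝ) * (T * Real.exp (-(Real.pi * T ^ 2))) ≤
          (E.card : ℝ) * (T * Real.exp (-(Real.pi * T ^ 2))) := by gcongr
        _ = T * ((E.card : ℝ) * Real.exp (-(Real.pi * T ^ 2))) := by ring
        _ ≤ T * 1 := by gcongr
        _ = T := mul_one T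
    have h8 : T * Real.exp (-(Real.pi * T ^ 2 * (-i - -i) ^ 2)) = T := by simp
    rw [h8]
    linarith
  calc ∑ i ∈ E, ∑ j ∈ E, T * Real.exp (-(Real.pi * T ^ 2 * (-i - -j) ^ 2)) ≤ ∑ _i ∈ E, 2 * T :=
        Finset.sum_le_sum h1
    _ = _ := by rw [Finset.sum_const, nsmul_eq_mul]; ring

lemma amgm (a b l : ℝ) (hl : 0 < l) : a * b ≤ l / 2 * a ^ 2 + 1 / (2 * l) * b ^ 2 := by
  have h : 0 ≤ (l * a - b) ^ 2 / (2 * l) := by positivity
  have e : (l * a - b) ^ 2 / (2 * l) = l / 2 * a ^ 2 + 1 / (2 * l) * b ^ 2 - a * b := by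
    field_simp; ring
  linarith

theorem block (d B : ℕ) (hd : 1 ≤ d) (hB : 1 ≤ B) : ∃ σ δ : ℝ, 0 < σ ∧ σ ≤ 1 ∧ 0 < δ ∧
    ∀ᵐ θ ∂(volume.restrict (Box d B)), ∀ᶠ n : ℕ in Filter.atTop, ∀ E : Finset ℝ, Sep E →
      (∀ τ ∈ E, AB d * ((3 / 2) * ((2 ^ n : ℕ) : ℝ)) ^ (d + 1) ≤ τ ∧
        τ ≤ AB d * ((7 / 2) * ((2 ^ n : ℕ) : ℝ)) ^ (d + 1)) →
      (∀ τ ∈ E, ∀ v ∈ V2 d (2 ^ n), (((2 ^ n : ℕ) : ℝ)) ^ (-δ) ≤ |U2 d θ v - τ|) →
      (E.card : ℝ) ≤ (((2 ^ n : ℕ) : ℝ)) ^ ((d : ℝ) + 1 - σ) := by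
  have hpi := Real.pi_pos
  obtain ⟨c₁, C₁, hc₁, hC₁, X1, hX11, hnear⟩ := near2 d B hd
  obtain ⟨σ₀, hσ₀, hbc⟩ := bc Pool.Agent.L7h47.MW.s_MOM d B hd hB c₁ hc₁
  obtain ⟨c₂, C₂, hc₂, hC₂, X2, hX21, hco⟩ := coarse2 d B
  set s : ℝ := min σ₀ 1 with hs
  have hs0 : 0 < s := lt_min hσ₀ one_pos
  have hs1 : s ≤ 1 := min_le_right _ _
  have hsσ : s ≤ σ₀ := min_le_left _ _
  set CI : ℝ := 4 * 5 ^ (d + 1) with hCI
  have hCI0 : 0 < CI := by rw [hCI]; positivity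
  set K : ℝ := AB d * (7 / 2) ^ (d + 1) + 1 with hK
  have hAB0 : (0 : ℝ) < AB d := by exact_mod_cast AB_pos d
  obtain ⟨X3, hX31, htiny⟩ := tiny (s / 8) (CI ^ (d + 2)) (d + 3) (by positivity)
  obtain ⟨X4, hX41, htiny2⟩ := tiny (s / 4) K (d + 1) (by positivity)
  refine ⟨s / 2, s / 8, by positivity, by linarith, by positivity, ?_⟩
  filter_upwards [hbc, ae_restrict_mem (measBox d B)] with θ hθ hθB
  filter_upwards [hθ, ev_of hnear, ev_of hco, ev_of htiny, ev_of htiny2,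
    large ((d : ℝ)) ((d : ℝ) + 1 / 4) C₂ (by linarith) hC₂,
    large 0 1 (8 / c₂) (by norm_num) (by positivity),
    large (1 / 2) 1 (16 * C₁ / c₂) (by norm_num) (by positivity),
    large ((d : ℝ) + 1 - 3 * s / 4) ((d : ℝ) + 1 - s / 2) (16 * CI / c₂ ^ 2) (by linarith) (by positivity)]
    with n h1 h2 h3 h4 h4' h5 h6 h7 h8
  intro E hE hE1 hE2
  set X : ℕ := 2 ^ n with hX
  have hX1 : 1 ≤ X := Nat.one_le_two_pow
  have hx1 : (1 : ℝ) ≤ X := by exact_mod_cast hX1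
  have hx0 : (0 : ℝ) < X := by linarith
  have hd0 : (0 : ℝ) ≤ d := Nat.cast_nonneg d
  set T : ℝ := (X : ℝ) ^ (s / 4) with hT
  have hT1 : 1 ≤ T := Real.one_le_rpow hx1 (by positivity)
  have hT0 : 0 < T := by linarith
  have hTX : T ≤ X := by
    calc T ≤ (X : ℝ) ^ (1 : ℝ) := Real.rpow_le_rpow_of_exponent_le hx1 (by linarith)
      _ = X := Real.rpow_one _
  have hT4 : T ≤ (X : ℝ) ^ (1 / 4 : ℝ) := Real.rpow_le_rpow_of_exponent_le hx1 (by linarith)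
  set H : ℝ := (X : ℝ) ^ ((d : ℝ) + 1 / 4) with hH
  have hH1 : 1 ≤ H := Real.one_le_rpow hx1 (by positivity)
  have hH0 : 0 < H := by linarith
  have hT00 : 0 < 1 / H := by positivity
  have hT0T : 1 / H ≤ T := by
    have : 1 / H ≤ 1 := by rw [div_le_one hH0]; exact hH1
    linarith
  -- the coarse sum
  have hcs : ∀ τ ∈ E, c₂ * (X : ℝ) ≤ ∑ v ∈ V2 d X, (1 / H) * Real.exp (-(Real.pi * (1 / H) ^ 2 * (U2 d θ v - τ) ^ 2)) := by
    intro τ hτ
    obtain ⟨hτ1, hτ2⟩ := hE1 τ hτ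
    have hcs := h3 θ hθB τ H hτ1 hτ2 (by rw [Real.rpow_natCast] at h5; exact h5) (by
      rw [hH, ← Real.rpow_natCast (X : ℝ) (d + 1)]
      apply Real.rpow_le_rpow_of_exponent_le hx1
      push_cast; linarith)
    rw [← Finset.mul_sum]
    unfold V2
    rw [Finset.sum_product]
    unfold U2
    have h9 := mul_le_mul_of_nonneg_left hcs hT00.le
    refine le_trans (le_of_eq ?_) h9
    rw [pow_succ]
    field_simp
  -- the number of targets is not too large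
  have hEK : (E.card : ℝ) * Real.exp (-(Real.pi * T ^ 2)) ≤ 1 := by
    have h9 := card_sep E hE (AB d * ((7 / 2) * (X : ℝ)) ^ (d + 1)) (by positivity) fun τ hτ =>
      ⟨le_trans (by positivity) (hE1 τ hτ).1, (hE1 τ hτ).2⟩
    have h10 : (E.card : ℝ) ≤ K * (X : ℝ) ^ (d + 1) := by
      have h11 : 1 ≤ (X : ℝ) ^ (d + 1) := one_le_pow₀ hx1
      calc (E.card : ℝ) ≤ AB d * ((7 / 2) * (X : ℝ)) ^ (d + 1) + 1 := h9
        _ ≤ AB d * ((7 / 2) * (X : ℝ)) ^ (d + 1) + (X : ℝ) ^ (d + 1) := by linarith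
        _ = _ := by rw [hK, mul_pow]; ring
    calc (E.card : ℝ) * Real.exp (-(Real.pi * T ^ 2)) ≤ K * (X : ℝ) ^ (d + 1) * Real.exp (-(Real.pi * T ^ 2)) := by gcongr
      _ ≤ 1 := h4'
  have hdiag := diag_le E hE T hT0 hEK
  set l : ℝ := 8 * T / (c₂ * X) with hl
  have hl0 : 0 < l := by positivity
  -- the error
  have hcmp := cmp (V2 d X ×ˢ E) (fun v => U2 d θ v.1 - v.2) T (1 / H) hT00 hT0T
  have hKE : ∀ ξ : ℝ, ‖∑ m ∈ E, ee (ξ * (-m))‖ ≤ E.card := by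
    intro ξ
    refine (norm_sum_le _ _).trans ?_
    simp [norm_ee]
  have herr : ENNReal.ofReal |∑ v ∈ V2 d X ×ˢ E, T * Real.exp (-(Real.pi * T ^ 2 * (U2 d θ v.1 - v.2) ^ 2)) -
      ∑ v ∈ V2 d X ×ˢ E, (1 / H) * Real.exp (-(Real.pi * (1 / H) ^ 2 * (U2 d θ v.1 - v.2) ^ 2))| ≤
      ENNReal.ofReal (2 * (E.card * (C₁ * (H ^ 2 / (X : ℝ) ^ (2 * d))) +
        (l / 2 * (CI * X) * (X : ℝ) ^ ((d : ℝ) + 2 - σ₀) + 1 / (2 * l) * (2 * T * E.card)))) := by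
    refine hcmp.trans ?_
    simp_rw [norm_V2]
    rw [ENNReal.ofReal_mul (by norm_num), ENNReal.ofReal_ofNat, ENNReal.ofReal_add (by positivity) (by positivity)]
    gcongr
    have hsub : Set.Ioi (0 : ℝ) ⊆ Set.Ioc 0 (c₁ / (X : ℝ) ^ d) ∪ Set.Ioi (c₁ / (X : ℝ) ^ d) := by
      intro x hx
      rcases le_or_gt x (c₁ / (X : ℝ) ^ d) with h | h
      · exact Or.inl ⟨hx, h⟩
      · exact Or.inr h
    refine (lintegral_mono_set hsub).trans ((lintegral_union_le _ _ _).trans (add_le_add ?_ ?_))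
    · calc ∫⁻ ξ in Set.Ioc 0 (c₁ / (X : ℝ) ^ d), ENNReal.ofReal (Kr T (1 / H) ξ *
            (G d X (d + 1) θ ξ * ‖f d X (d + 1) θ ξ‖ * ‖∑ m ∈ E, ee (ξ * (-m))‖)) ≤
          ∫⁻ ξ in Set.Ioc 0 (c₁ / (X : ℝ) ^ d), ENNReal.ofReal (E.card : ℝ) *
            ENNReal.ofReal (Kr T (1 / H) ξ * (G d X (d + 1) θ ξ * ‖f d X (d + 1) θ ξ‖)) := by
            refine lintegral_mono fun ξ => ?_
            simp only
            rw [← ENNReal.ofReal_mul (Nat.cast_nonneg _)]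
            apply ENNReal.ofReal_le_ofReal
            have w1 := Kr_nonneg T (1 / H) ξ hT00 hT0T
            have w2 := G_nonneg d X (d + 1) θ ξ
            have w3 := hKE ξ
            have w4 : 0 ≤ Kr T (1 / H) ξ * (G d X (d + 1) θ ξ * ‖f d X (d + 1) θ ξ‖) := by positivity
            calc Kr T (1 / H) ξ * (G d X (d + 1) θ ξ * ‖f d X (d + 1) θ ξ‖ * ‖∑ m ∈ E, ee (ξ * (-m))‖) =
                (Kr T (1 / H) ξ * (G d X (d + 1) θ ξ * ‖f d X (d + 1) θ ξ‖)) * ‖∑ m ∈ E, ee (ξ * (-m))‖ := by ring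
              _ ≤ (Kr T (1 / H) ξ * (G d X (d + 1) θ ξ * ‖f d X (d + 1) θ ξ‖)) * E.card := by gcongr
              _ = _ := by ring
        _ = ENNReal.ofReal (E.card : ℝ) * ∫⁻ ξ in Set.Ioc 0 (c₁ / (X : ℝ) ^ d),
            ENNReal.ofReal (Kr T (1 / H) ξ * (G d X (d + 1) θ ξ * ‖f d X (d + 1) θ ξ‖)) :=
            lintegral_const_mul' _ _ ENNReal.ofReal_ne_top
        _ ≤ ENNReal.ofReal (E.card : ℝ) * ENNReal.ofReal (C₁ * (H ^ 2 / (X : ℝ) ^ (2 * d))) := by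
            gcongr
            exact h2 θ hθB T H hH0
        _ = _ := by rw [← ENNReal.ofReal_mul (Nat.cast_nonneg _)]
    · calc ∫⁻ ξ in Set.Ioi (c₁ / (X : ℝ) ^ d), ENNReal.ofReal (Kr T (1 / H) ξ *
            (G d X (d + 1) θ ξ * ‖f d X (d + 1) θ ξ‖ * ‖∑ m ∈ E, ee (ξ * (-m))‖)) ≤
          ∫⁻ ξ in Set.Ioi (c₁ / (X : ℝ) ^ d), (ENNReal.ofReal (l / 2 * (CI * X)) * ENNReal.ofReal (Fw d X (θ, ξ)) +
            ENNReal.ofReal (1 / (2 * l)) * ENNReal.ofReal (Real.exp (-(Real.pi * ξ ^ 2 / T ^ 2)) *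
              ‖∑ m ∈ E, ee (ξ * (-m))‖ ^ 2)) := by
            refine lintegral_mono fun ξ => ?_
            simp only
            rw [← ENNReal.ofReal_mul (by positivity), ← ENNReal.ofReal_mul (by positivity),
              ← ENNReal.ofReal_add (mul_nonneg (by positivity) (Fw_nonneg _ _ _)) (by positivity)]
            apply ENNReal.ofReal_le_ofReal
            have w1 := Kr_nonneg T (1 / H) ξ hT00 hT0T
            have w2 := G_nonneg d X (d + 1) θ ξ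
            have w3 := Kr_le_gauss T (1 / H) ξ
            have w4 := amgm (G d X (d + 1) θ ξ * ‖f d X (d + 1) θ ξ‖) ‖∑ m ∈ E, ee (ξ * (-m))‖ l hl0
            have w5 : Real.exp (-(Real.pi * ξ ^ 2 / T ^ 2)) ≤ Real.exp (-(Real.pi * ξ ^ 2 / ((X : ℝ) ^ (1 / 4 : ℝ)) ^ 2)) := by
              apply Real.exp_le_exp.2
              rw [neg_le_neg_iff]
              have : T ^ 2 ≤ ((X : ℝ) ^ (1 / 4 : ℝ)) ^ 2 := pow_le_pow_left₀ hT0.le hT4 2
              gcongr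
            have w6 : (G d X (d + 1) θ ξ * ‖f d X (d + 1) θ ξ‖) ^ 2 ≤ Wn d X θ ξ * (CI * X) := by
              have w7 := f_le d X (d + 1) (d + 1) le_rfl θ ξ
              have w8 := Wn_nonneg d X θ ξ
              calc (G d X (d + 1) θ ξ * ‖f d X (d + 1) θ ξ‖) ^ 2 = Wn d X θ ξ * ‖f d X (d + 1) θ ξ‖ := by
                    unfold Wn; ring
                _ ≤ Wn d X θ ξ * (CI * X) := by gcongr
            have w9 := Wn_nonneg d X θ ξ
            have hg := (Real.exp_pos (-(Real.pi * ξ ^ 2 / T ^ 2))).le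
            unfold Fw
            calc Kr T (1 / H) ξ * (G d X (d + 1) θ ξ * ‖f d X (d + 1) θ ξ‖ * ‖∑ m ∈ E, ee (ξ * (-m))‖) ≤
                Real.exp (-(Real.pi * ξ ^ 2 / T ^ 2)) * (l / 2 * (G d X (d + 1) θ ξ * ‖f d X (d + 1) θ ξ‖) ^ 2 +
                  1 / (2 * l) * ‖∑ m ∈ E, ee (ξ * (-m))‖ ^ 2) := by gcongr
              _ ≤ Real.exp (-(Real.pi * ξ ^ 2 / T ^ 2)) * (l / 2 * (Wn d X θ ξ * (CI * X)) +
                  1 / (2 * l) * ‖∑ m ∈ E, ee (ξ * (-m))‖ ^ 2) := by gcongr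
              _ = l / 2 * (CI * X) * (Real.exp (-(Real.pi * ξ ^ 2 / T ^ 2)) * Wn d X θ ξ) +
                  1 / (2 * l) * (Real.exp (-(Real.pi * ξ ^ 2 / T ^ 2)) * ‖∑ m ∈ E, ee (ξ * (-m))‖ ^ 2) := by ring
              _ ≤ _ := by gcongr
        _ = ENNReal.ofReal (l / 2 * (CI * X)) * (∫⁻ ξ in Set.Ioi (c₁ / (X : ℝ) ^ d), ENNReal.ofReal (Fw d X (θ, ξ))) +
            ENNReal.ofReal (1 / (2 * l)) * ∫⁻ ξ in Set.Ioi (c₁ / (X : ℝ) ^ d),
              ENNReal.ofReal (Real.exp (-(Real.pi * ξ ^ 2 / T ^ 2)) * ‖∑ m ∈ E, ee (ξ * (-m))‖ ^ 2) := by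
            rw [lintegral_add_left, lintegral_const_mul' _ _ ENNReal.ofReal_ne_top,
              lintegral_const_mul' _ _ ENNReal.ofReal_ne_top]
            refine Measurable.const_mul ?_ _
            have : Continuous fun ξ : ℝ => Fw d X (θ, ξ) := (cont_Fw d X).comp (by fun_prop)
            exact this.measurable.ennreal_ofReal
        _ ≤ ENNReal.ofReal (l / 2 * (CI * X)) * ENNReal.ofReal ((X : ℝ) ^ ((d : ℝ) + 2 - σ₀)) +
            ENNReal.ofReal (1 / (2 * l)) * ENNReal.ofReal (2 * T * E.card) := by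
            gcongr
            refine (setLIntegral_le_lintegral _ _).trans ?_
            rw [gauss_sq E (fun m => -m) T hT0]
            exact ENNReal.ofReal_le_ofReal hdiag
        _ = _ := by
            rw [← ENNReal.ofReal_mul (by positivity), ← ENNReal.ofReal_mul (by positivity),
              ← ENNReal.ofReal_add (by positivity) (by positivity)]
  have herr2 := (ENNReal.ofReal_le_ofReal_iff (by positivity)).1 herr
  have hHX : H ^ 2 / (X : ℝ) ^ (2 * d) = (X : ℝ) ^ (1 / 2 : ℝ) := by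
    rw [hH, ← Real.rpow_natCast (X : ℝ) (2 * d), ← Real.rpow_natCast _ 2, ← Real.rpow_mul hx0.le, ← Real.rpow_sub hx0]
    congr 1; push_cast; ring
  rw [hHX] at herr2
  -- the coarse sum over all targets
  have hA : (E.card : ℝ) * (c₂ * X) ≤
      ∑ v ∈ V2 d X ×ˢ E, (1 / H) * Real.exp (-(Real.pi * (1 / H) ^ 2 * (U2 d θ v.1 - v.2) ^ 2)) := by
    rw [Finset.sum_product_right]
    calc (E.card : ℝ) * (c₂ * X) = ∑ _τ ∈ E, c₂ * (X : ℝ) := by rw [Finset.sum_const, nsmul_eq_mul]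
      _ ≤ _ := Finset.sum_le_sum hcs
  -- the fine sum over all targets
  have hF : ∑ v ∈ V2 d X ×ˢ E, T * Real.exp (-(Real.pi * T ^ 2 * (U2 d θ v.1 - v.2) ^ 2)) ≤ (E.card : ℝ) := by
    rw [Finset.sum_product_right]
    have w : ∀ τ ∈ E, ∑ v ∈ V2 d X, T * Real.exp (-(Real.pi * T ^ 2 * (U2 d θ v - τ) ^ 2)) ≤ 1 := by
      intro τ hτ
      refine le_trans ?_ h4
      calc ∑ v ∈ V2 d X, T * Real.exp (-(Real.pi * T ^ 2 * (U2 d θ v - τ) ^ 2)) ≤
          ∑ v ∈ V2 d X, X * Real.exp (-(Real.pi * ((X : ℝ) ^ (s / 8)) ^ 2)) := by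
            refine Finset.sum_le_sum fun v hv => ?_
            apply mul_le_mul hTX _ (Real.exp_pos _).le hx0.le
            apply Real.exp_le_exp.2
            rw [neg_le_neg_iff, mul_assoc]
            apply mul_le_mul_of_nonneg_left _ hpi.le
            rw [← mul_pow]
            have h11 := hE2 τ hτ v hv
            have h12 : (X : ℝ) ^ (s / 8) ≤ T * |U2 d θ v - τ| := by
              calc (X : ℝ) ^ (s / 8) = T * (X : ℝ) ^ (-(s / 8)) := by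
                    rw [hT, ← Real.rpow_add hx0]; congr 1; ring
                _ ≤ _ := by gcongr
            have h13 := pow_le_pow_left₀ (by positivity) h12 2
            rwa [mul_pow, sq_abs, ← mul_pow] at h13
        _ = ((V2 d X).card : ℝ) * (X * Real.exp (-(Real.pi * ((X : ℝ) ^ (s / 8)) ^ 2))) := by
            rw [Finset.sum_const, nsmul_eq_mul]
        _ ≤ (CI * X) ^ (d + 2) * (X * Real.exp (-(Real.pi * ((X : ℝ) ^ (s / 8)) ^ 2))) := by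
            gcongr
            exact card_V2 d X
        _ = _ := by rw [mul_pow, pow_succ (X : ℝ) (d + 2)]; ring
    calc ∑ τ ∈ E, ∑ v ∈ V2 d X, T * Real.exp (-(Real.pi * T ^ 2 * (U2 d θ v - τ) ^ 2)) ≤ ∑ _τ ∈ E, (1 : ℝ) :=
          Finset.sum_le_sum w
      _ = _ := by simp
  have h10 := (abs_le.1 herr2).1
  rw [Real.rpow_zero, Real.rpow_one] at h6
  rw [Real.rpow_one] at h7
  have e0 : (0 : ℝ) ≤ E.card := Nat.cast_nonneg _
  have e1 : 1 ≤ c₂ * X / 8 := by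
    have := mul_le_mul_of_nonneg_left h6 hc₂.le
    have e : c₂ * (8 / c₂ * 1) = 8 := by field_simp
    rw [e] at this
    linarith
  have e2 : 2 * C₁ * (X : ℝ) ^ (1 / 2 : ℝ) ≤ c₂ * X / 8 := by
    have := mul_le_mul_of_nonneg_left h7 hc₂.le
    have e : c₂ * (16 * C₁ / c₂ * (X : ℝ) ^ (1 / 2 : ℝ)) = 16 * C₁ * (X : ℝ) ^ (1 / 2 : ℝ) := by field_simp
    rw [e] at this
    linarith
  have e3 : 1 / (2 * l) * (2 * T * E.card) = E.card * (c₂ * X / 8) := by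
    rw [hl]; field_simp
  have e4 : l / 2 * (CI * X) * (X : ℝ) ^ ((d : ℝ) + 2 - σ₀) = 4 * CI / c₂ * T * (X : ℝ) ^ ((d : ℝ) + 2 - σ₀) := by
    rw [hl]; field_simp; ring
  rw [e3, e4] at h10
  have e5 : (E.card : ℝ) * 1 ≤ E.card * (c₂ * X / 8) := by gcongr
  have e6 : (E.card : ℝ) * (2 * C₁ * (X : ℝ) ^ (1 / 2 : ℝ)) ≤ E.card * (c₂ * X / 8) := by gcongr
  have e7 : (E.card : ℝ) * (c₂ * X / 2) ≤ 8 * CI / c₂ * T * (X : ℝ) ^ ((d : ℝ) + 2 - σ₀) := by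
    have e8 : 8 * CI / c₂ * T * (X : ℝ) ^ ((d : ℝ) + 2 - σ₀) = 2 * (4 * CI / c₂ * T * (X : ℝ) ^ ((d : ℝ) + 2 - σ₀)) := by ring
    rw [e8]
    nlinarith
  refine le_trans ?_ h8
  have e9 : T * (X : ℝ) ^ ((d : ℝ) + 2 - σ₀) ≤ X * (X : ℝ) ^ ((d : ℝ) + 1 - 3 * s / 4) := by
    calc T * (X : ℝ) ^ ((d : ℝ) + 2 - σ₀) = (X : ℝ) ^ (s / 4 + ((d : ℝ) + 2 - σ₀)) := by rw [hT, ← Real.rpow_add hx0]
      _ ≤ (X : ℝ) ^ (1 + ((d : ℝ) + 1 - 3 * s / 4)) := by
          apply Real.rpow_le_rpow_of_exponent_le hx1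
          linarith
      _ = _ := by rw [Real.rpow_add hx0, Real.rpow_one]
  have e10 : (E.card : ℝ) * (c₂ * X / 2) ≤ (16 * CI / c₂ ^ 2 * (X : ℝ) ^ ((d : ℝ) + 1 - 3 * s / 4)) * (c₂ * X / 2) := by
    calc (E.card : ℝ) * (c₂ * X / 2) ≤ 8 * CI / c₂ * (T * (X : ℝ) ^ ((d : ℝ) + 2 - σ₀)) := by rw [← mul_assoc]; exact e7
      _ ≤ 8 * CI / c₂ * (X * (X : ℝ) ^ ((d : ℝ) + 1 - 3 * s / 4)) := by gcongr
      _ = _ := by field_simp; ring
  exact le_of_mul_le_mul_right e10 (by positivity)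

end Pool.Agent.L7h43.MW
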