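import Pool.Agent.L7h43.MW.Alm2

/-! Almost all targets, `k + 1` variables: the final form. -/

set_option autoImplicit false

namespace Pool.Agent.L7h43.MW

open Finset MeasureTheory

/-- choosing the dyadic scale -/
lemma scaleA (A : ℝ) (hA : 0 < A) (d : ℕ) (τ : ℝ) (N : ℕ)
    (hτ : A * ((3 / 2) * ((2 ^ N : ℕ) : ℝ)) ^ (d + 1) ≤ τ) : ∃ n : ℕ, N ≤ n ∧
      A * ((3 / 2) * ((2 ^ n : ℕ) : ℝ)) ^ (d + 1) ≤ τ ∧ τ ≤ A * ((7 / 2) * ((2 ^ n : ℕ) : ℝ)) ^ (d + 1) := by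
  set K : ℝ := A * (3 / 2) ^ (d + 1) with hK
  have hK0 : 0 < K := by positivity
  set y : ℝ := 2 ^ (d + 1) with hy
  have hy1 : 1 < y := one_lt_pow₀ (by norm_num) (by omega)
  have hform : ∀ n : ℕ, A * ((3 / 2) * ((2 ^ n : ℕ) : ℝ)) ^ (d + 1) = K * y ^ n := by
    intro n
    rw [hK, hy, mul_pow]
    push_cast
    rw [← pow_mul, ← pow_mul, mul_comm n (d + 1)]
    ring
  have hx : 1 ≤ τ / K := by
    rw [le_div_iff₀ hK0, one_mul]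
    refine le_trans ?_ hτ
    rw [hform]
    have : 1 ≤ y ^ N := one_le_pow₀ hy1.le
    nlinarith
  obtain ⟨n, hn1, hn2⟩ := exists_nat_pow_near hx hy1
  rw [le_div_iff₀ hK0] at hn1
  rw [div_lt_iff₀ hK0] at hn2
  refine ⟨n, ?_, ?_, ?_⟩
  · by_contra hlt
    push Not at hlt
    have h1 : y ^ (n + 1) ≤ y ^ N := pow_le_pow_right₀ hy1.le hlt
    rw [hform] at hτ
    have : y ^ (n + 1) * K ≤ K * y ^ N := by rw [mul_comm]; gcongr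
    linarith
  · rw [hform, mul_comm]; exact hn1
  · refine hn2.le.trans ?_
    rw [mul_comm, ← hform]
    have e : (3 / 2 : ℝ) * ((2 ^ (n + 1) : ℕ) : ℝ) = 3 * ((2 ^ n : ℕ) : ℝ) := by push_cast; ring
    rw [e]
    gcongr
    norm_num

/-- from a pair to a family of `k + 1` positive integers -/
lemma family2 (d X : ℕ) (θ : Fin d → ℝ) (v : (Fin (d + 1) → ℕ) × ℕ)
    (hv : v ∈ V2 d X) : ∃ x : Fin (d + 2) → ℕ, (∀ i, 0 < x i) ∧ ∑ i, P d θ (x i) = U2 d θ v := by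
  unfold V2 at hv
  obtain ⟨hv1, hv2⟩ := Finset.mem_product.1 hv
  have hI : ∀ i n, n ∈ I X i → 0 < n := fun i n h => lt_of_le_of_lt (Nat.zero_le _) (mem_I.1 h).1
  refine ⟨Fin.snoc (α := fun _ => ℕ) v.1 v.2, ?_, ?_⟩
  · intro i
    refine Fin.lastCases ?_ (fun j => ?_) i
    · rw [Fin.snoc_last]
      exact hI _ _ hv2
    · rw [Fin.snoc_castSucc]
      exact hI _ _ (Pool.Agent.L7h14.MW.mem_Bx.1 hv1 j)
  · rw [Fin.sum_univ_castSucc]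
    simp only [Fin.snoc_castSucc, Fin.snoc_last]
    rfl

/-- a power of a large number beats the constants -/
lemma large' (a b K : ℝ) (hab : a < b) : ∀ᶠ n : ℕ in Filter.atTop,
    K * (n : ℝ) ^ a ≤ (n : ℝ) ^ b := by
  have h1 : Filter.Tendsto (fun n : ℕ => (n : ℝ) ^ (b - a)) Filter.atTop Filter.atTop :=
    (tendsto_rpow_atTop (by linarith)).comp tendsto_natCast_atTop_atTop
  filter_upwards [h1.eventually_ge_atTop K, Filter.eventually_ge_atTop 1] with n hn hn1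
  have hx : (0 : ℝ) < n := by exact_mod_cast hn1
  calc K * (n : ℝ) ^ a ≤ (n : ℝ) ^ (b - a) * (n : ℝ) ^ a := by gcongr
    _ = _ := by rw [← Real.rpow_add hx]; congr 1; ring

theorem sumup (d : ℕ) (θ : Fin d → ℝ) (σ δ : ℝ) (hσ : 0 < σ) (hσ1 : σ ≤ 1) (hδ : 0 < δ)
    (h : ∀ᶠ n : ℕ in Filter.atTop, ∀ E : Finset ℝ, Sep E →
      (∀ τ ∈ E, AB d * ((3 / 2) * ((2 ^ n : ℕ) : ℝ)) ^ (d + 1) ≤ τ ∧
        τ ≤ AB d * ((7 / 2) * ((2 ^ n : ℕ) : ℝ)) ^ (d + 1)) →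
      (∀ τ ∈ E, ∀ v ∈ V2 d (2 ^ n), (((2 ^ n : ℕ) : ℝ)) ^ (-δ) ≤ |U2 d θ v - τ|) →
      (E.card : ℝ) ≤ (((2 ^ n : ℕ) : ℝ)) ^ ((d : ℝ) + 1 - σ)) :
    ∃ δ' : ℝ, 0 < δ' ∧ ∀ᶠ N : ℕ in Filter.atTop, ∀ S : Finset ℝ, Sep S → (∀ τ ∈ S, 0 ≤ τ ∧ τ ≤ N) →
      (∀ τ ∈ S, ∀ x : Fin (d + 2) → ℕ, (∀ i, 0 < x i) → τ ^ (-δ') ≤ |∑ i, P d θ (x i) - τ|) →
      (S.card : ℝ) ≤ (N : ℝ) ^ (1 - δ') := by
  classical
  have hAB0 : (0 : ℝ) < AB d := by exact_mod_cast AB_pos d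
  have hAB1 : (1 : ℝ) ≤ AB d := by exact_mod_cast AB_pos d
  have hd1 : (0 : ℝ) < (d : ℝ) + 1 := by positivity
  set K : ℝ := AB d * (7 / 2) ^ (d + 1) with hK
  have hK0 : 0 < K := by positivity
  set e : ℝ := σ / ((d : ℝ) + 1) with he
  have he0 : 0 < e := by positivity
  have he1 : e ≤ 1 := by
    rw [he, div_le_one hd1]
    linarith [(Nat.cast_nonneg d : (0 : ℝ) ≤ d)]
  set δ' : ℝ := min (e / 2) (δ / (2 * ((d : ℝ) + 1))) with hδ'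
  have hδ'0 : 0 < δ' := lt_min (by positivity) (by positivity)
  have hδ'1 : δ' ≤ e / 2 := min_le_left _ _
  have hδ'2 : ((d : ℝ) + 1) * δ' ≤ δ / 2 := by
    have : δ' ≤ δ / (2 * ((d : ℝ) + 1)) := min_le_right _ _
    calc ((d : ℝ) + 1) * δ' ≤ ((d : ℝ) + 1) * (δ / (2 * ((d : ℝ) + 1))) := by gcongr
      _ = δ / 2 := by field_simp
  refine ⟨δ', hδ'0, ?_⟩
  have hl := large (δ / 2) δ (K ^ δ') (by linarith) (by positivity)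
  obtain ⟨n₀, hn₀⟩ := Filter.eventually_atTop.1 (h.and hl)
  set τ₀ : ℝ := AB d * ((3 / 2) * ((2 ^ n₀ : ℕ) : ℝ)) ^ (d + 1) with hτ₀
  have hτ₀0 : 0 ≤ τ₀ := by positivity
  obtain ⟨C, hC, hlog⟩ := log_bd 0 1 (e / 4) one_pos (by positivity)
  filter_upwards [Filter.eventually_ge_atTop 1, large' 0 (1 - e / 2) (2 * (τ₀ + 1)) (by linarith),
    large' (1 - 3 * e / 4) (1 - e / 2) (2 * C) (by linarith)] with N hN1 hN2 hN3
  intro S hS hS1 hS2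
  have hN0 : (0 : ℝ) < N := by exact_mod_cast hN1
  have hN1' : (1 : ℝ) ≤ N := by exact_mod_cast hN1
  set M := Nat.log 2 N with hM
  let Sm : Finset ℝ := S.filter (fun τ => τ < τ₀)
  let Sn : ℕ → Finset ℝ := fun n => S.filter (fun τ => n₀ ≤ n ∧ AB d * ((3 / 2) * ((2 ^ n : ℕ) : ℝ)) ^ (d + 1) ≤ τ ∧
        τ ≤ AB d * ((7 / 2) * ((2 ^ n : ℕ) : ℝ)) ^ (d + 1))
  -- powers of two below N
  have hpow : ∀ n : ℕ, ∀ τ : ℝ, τ ≤ N → AB d * ((3 / 2) * ((2 ^ n : ℕ) : ℝ)) ^ (d + 1) ≤ τ →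
      (((2 ^ n : ℕ) : ℝ)) ^ (d + 1) ≤ N := by
    intro n τ h1 h2
    refine le_trans ?_ (h2.trans h1)
    have h3 : (((2 ^ n : ℕ) : ℝ)) ≤ (3 / 2) * ((2 ^ n : ℕ) : ℝ) := by
      have : (0 : ℝ) ≤ ((2 ^ n : ℕ) : ℝ) := Nat.cast_nonneg _
      linarith
    calc (((2 ^ n : ℕ) : ℝ)) ^ (d + 1) ≤ ((3 / 2) * ((2 ^ n : ℕ) : ℝ)) ^ (d + 1) := by gcongr
      _ ≤ AB d * ((3 / 2) * ((2 ^ n : ℕ) : ℝ)) ^ (d + 1) := le_mul_of_one_le_left (by positivity) hAB1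
  have hcov : S ⊆ Sm ∪ (Finset.range (M + 1)).biUnion Sn := by
    intro τ hτ
    obtain ⟨h1, h2⟩ := hS1 τ hτ
    rw [Finset.mem_union]
    by_cases hlt : τ < τ₀
    · exact Or.inl (Finset.mem_filter.2 ⟨hτ, hlt⟩)
    · right
      obtain ⟨n, hn1, hn2, hn3⟩ := scaleA (AB d) hAB0 d τ n₀ (not_lt.1 hlt)
      rw [Finset.mem_biUnion]
      refine ⟨n, ?_, Finset.mem_filter.2 ⟨hτ, hn1, hn2, hn3⟩⟩
      rw [Finset.mem_range, Nat.lt_succ_iff]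
      have h4 := hpow n τ h2 hn2
      have h5 : (((2 ^ n : ℕ) : ℝ)) ≤ N := by
        refine le_trans ?_ h4
        have : (1 : ℝ) ≤ ((2 ^ n : ℕ) : ℝ) := by exact_mod_cast Nat.one_le_two_pow
        exact le_self_pow₀ this (by omega)
      have h6 : 2 ^ n ≤ N := by exact_mod_cast h5
      exact Nat.le_log_of_pow_le (by norm_num) h6
  have hsm : (Sm.card : ℝ) ≤ τ₀ + 1 := by
    refine card_sep Sm (fun a ha b hb hab => hS a (Finset.mem_filter.1 ha).1 b (Finset.mem_filter.1 hb).1 hab)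
      τ₀ hτ₀0 fun a ha => ?_
    obtain ⟨h1, h2⟩ := Finset.mem_filter.1 ha
    exact ⟨(hS1 a h1).1, h2.le⟩
  have hsn : ∀ n ∈ Finset.range (M + 1), ((Sn n).card : ℝ) ≤ (N : ℝ) ^ (1 - e) := by
    intro n _
    rcases (Sn n).eq_empty_or_nonempty with h0 | ⟨τ₁, hτ₁⟩
    · rw [h0, Finset.card_empty]; push_cast; positivity
    · obtain ⟨h1, hn, h2, h3⟩ := Finset.mem_filter.1 hτ₁
      have h4 := hpow n τ₁ (hS1 τ₁ h1).2 h2
      obtain ⟨hb, hlg⟩ := hn₀ n hn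
      have hXpos : (0 : ℝ) < ((2 ^ n : ℕ) : ℝ) := by positivity
      have h5 := hb (Sn n) (fun a ha b hb hab => hS a (Finset.mem_filter.1 ha).1 b (Finset.mem_filter.1 hb).1 hab)
        (fun τ hτ => (Finset.mem_filter.1 hτ).2.2) (by
        intro τ hτ v hv
        obtain ⟨g1, _, g2, g3⟩ := Finset.mem_filter.1 hτ
        obtain ⟨x, hx0, hx⟩ := family2 d (2 ^ n) θ v hv
        have g4 := hS2 τ g1 x hx0
        rw [hx] at g4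
        refine le_trans ?_ g4
        have hτ0 : 0 < τ := lt_of_lt_of_le (by positivity) g2
        rw [Real.rpow_neg hXpos.le, Real.rpow_neg hτ0.le]
        apply inv_anti₀ (by positivity)
        refine le_trans ?_ hlg
        have e1 : K * ((2 ^ n : ℕ) : ℝ) ^ (d + 1) = AB d * ((7 / 2) * ((2 ^ n : ℕ) : ℝ)) ^ (d + 1) := by
          rw [hK, mul_pow]; ring
        rw [← e1] at g3
        have hX1 : (1 : ℝ) ≤ ((2 ^ n : ℕ) : ℝ) := by exact_mod_cast Nat.one_le_two_pow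
        calc τ ^ δ' ≤ (K * ((2 ^ n : ℕ) : ℝ) ^ (d + 1)) ^ δ' := by
              apply Real.rpow_le_rpow hτ0.le g3 hδ'0.le
          _ = K ^ δ' * ((2 ^ n : ℕ) : ℝ) ^ (((d : ℝ) + 1) * δ') := by
              rw [Real.mul_rpow hK0.le (by positivity), ← Real.rpow_natCast, ← Real.rpow_mul hXpos.le]
              push_cast
              rfl
          _ ≤ K ^ δ' * ((2 ^ n : ℕ) : ℝ) ^ (δ / 2) := by
              gcongr)
      refine h5.trans ?_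
      have e2 : (((2 ^ n : ℕ) : ℝ)) ^ ((d : ℝ) + 1 - σ) = ((((2 ^ n : ℕ) : ℝ)) ^ (d + 1)) ^ (1 - e) := by
        rw [← Real.rpow_natCast _ (d + 1), ← Real.rpow_mul hXpos.le]
        congr 1
        rw [he]; push_cast; field_simp
      rw [e2]
      exact Real.rpow_le_rpow (by positivity) h4 (by linarith)
  have hMc : (M : ℝ) + 1 ≤ C * (N : ℝ) ^ (e / 4) := by
    apply hlog N hN1 M
    have : 2 ^ M ≤ N := Nat.pow_log_le_self 2 (by omega)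
    have h1 : (2 : ℝ) ^ M ≤ N := by exact_mod_cast this
    simpa using h1
  calc (S.card : ℝ) ≤ ((Sm ∪ (Finset.range (M + 1)).biUnion Sn).card : ℝ) := by
        exact_mod_cast Finset.card_le_card hcov
    _ ≤ (Sm.card : ℝ) + ∑ n ∈ Finset.range (M + 1), ((Sn n).card : ℝ) := by
        have h1 := Finset.card_union_le Sm ((Finset.range (M + 1)).biUnion Sn)
        have h2 := Finset.card_biUnion_le (s := Finset.range (M + 1)) (t := Sn)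
        exact_mod_cast h1.trans (Nat.add_le_add_left h2 _)
    _ ≤ (τ₀ + 1) + ∑ _n ∈ Finset.range (M + 1), (N : ℝ) ^ (1 - e) := add_le_add hsm (Finset.sum_le_sum hsn)
    _ = (τ₀ + 1) + ((M : ℝ) + 1) * (N : ℝ) ^ (1 - e) := by
        rw [Finset.sum_const, Finset.card_range, nsmul_eq_mul]; push_cast; ring
    _ ≤ (τ₀ + 1) + (C * (N : ℝ) ^ (e / 4)) * (N : ℝ) ^ (1 - e) := by gcongr
    _ = (τ₀ + 1) + C * (N : ℝ) ^ (1 - 3 * e / 4) := by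
        rw [mul_assoc, ← Real.rpow_add hN0]; congr 3; ring
    _ ≤ (N : ℝ) ^ (1 - e / 2) := by
        rw [Real.rpow_zero, mul_one] at hN2
        linarith
    _ ≤ (N : ℝ) ^ (1 - δ') := Real.rpow_le_rpow_of_exponent_le hN1' (by linarith)

theorem almost (d : ℕ) (hd : 1 ≤ d) : ∀ᵐ θ : Fin d → ℝ, ∃ δ : ℝ, 0 < δ ∧ ∀ᶠ N : ℕ in Filter.atTop,
    ∀ S : Finset ℝ, Sep S → (∀ τ ∈ S, 0 ≤ τ ∧ τ ≤ N) →
      (∀ τ ∈ S, ∀ x : Fin (d + 2) → ℕ, (∀ i, 0 < x i) → τ ^ (-δ) ≤ |∑ i, P d θ (x i) - τ|) →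
      (S.card : ℝ) ≤ (N : ℝ) ^ (1 - δ) := by
  have h1 : ∀ᵐ θ : Fin d → ℝ, ∀ B : ℕ, 1 ≤ B → θ ∈ Box d B → ∃ σ δ : ℝ, 0 < σ ∧ σ ≤ 1 ∧ 0 < δ ∧
      ∀ᶠ n : ℕ in Filter.atTop, ∀ E : Finset ℝ, Sep E →
      (∀ τ ∈ E, AB d * ((3 / 2) * ((2 ^ n : ℕ) : ℝ)) ^ (d + 1) ≤ τ ∧
        τ ≤ AB d * ((7 / 2) * ((2 ^ n : ℕ) : ℝ)) ^ (d + 1)) →
      (∀ τ ∈ E, ∀ v ∈ V2 d (2 ^ n), (((2 ^ n : ℕ) : ℝ)) ^ (-δ) ≤ |U2 d θ v - τ|) →
      (E.card : ℝ) ≤ (((2 ^ n : ℕ) : ℝ)) ^ ((d : ℝ) + 1 - σ) := by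
    rw [ae_all_iff]
    intro B
    by_cases hB : 1 ≤ B
    · obtain ⟨σ, δ, hσ, hσ1, hδ, hb⟩ := block d B hd hB
      have h2 := (ae_restrict_iff' (measBox d B)).1 hb
      filter_upwards [h2] with θ hθ _ hm
      exact ⟨σ, δ, hσ, hσ1, hδ, hθ hm⟩
    · exact Filter.Eventually.of_forall fun θ h => absurd h hB
  filter_upwards [h1] with θ hθ
  obtain ⟨B, hB1, hBθ⟩ : ∃ B : ℕ, 1 ≤ B ∧ θ ∈ Box d B := by
    obtain ⟨n, hn⟩ := exists_nat_ge (∑ j, |θ j|)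
    refine ⟨max 1 n, le_max_left _ _, fun j => ?_⟩
    have h3 : |θ j| ≤ ∑ j, |θ j| := Finset.single_le_sum (f := fun j => |θ j|) (fun _ _ => abs_nonneg _) (Finset.mem_univ j)
    have h4 : (n : ℝ) ≤ ((max 1 n : ℕ) : ℝ) := by exact_mod_cast le_max_right 1 n
    linarith
  obtain ⟨σ, δ, hσ, hσ1, hδ, hb⟩ := hθ B hB1 hBθ
  exact sumup d θ σ δ hσ hσ1 hδ hb

/-- the final form, for all real targets -/
theorem almost_final (k : ℕ) (hk : 2 ≤ k) : ∀ᵐ θ : Fin (k - 1) → ℝ, ∃ δ : ℝ, 0 < δ ∧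
    ∀ᶠ N : ℕ in Filter.atTop, ∀ S : Finset ℝ, (∀ a ∈ S, ∀ b ∈ S, a ≠ b → 1 ≤ |a - b|) →
      (∀ τ ∈ S, 0 ≤ τ ∧ τ ≤ N) →
      (∀ τ ∈ S, ¬ ∃ x : Fin (k + 1) → ℕ, (∀ i, 0 < x i) ∧
        |∑ i, ((x i : ℝ) ^ k + ∑ j : Fin (k - 1), θ j * (x i : ℝ) ^ (j.val + 1)) - τ| < τ ^ (-δ)) →
      (S.card : ℝ) ≤ (N : ℝ) ^ (1 - δ) := by
  obtain ⟨d, rfl⟩ : ∃ d, k = d + 1 := ⟨k - 1, by omega⟩
  have h := almost d (by omega)
  filter_upwards [h] with θ hθ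
  obtain ⟨δ, hδ, h1⟩ := hθ
  refine ⟨δ, hδ, ?_⟩
  filter_upwards [h1] with N hN
  intro S hS1 hS2 hS3
  refine hN S hS1 hS2 fun τ hτ x hx => ?_
  have h2 := hS3 τ hτ
  push Not at h2
  exact h2 x hx

end Pool.Agent.L7h43.MW
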