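import Pool.Agent.L7h43.MW.Kern
import Pool.Agent.L7h14.MW.J

/-! Gaussian sums and counts; shifts; products of the exponential sums. -/

set_option autoImplicit false

namespace Pool.Agent.L7h43.MW

open Finset MeasureTheory

/-- the power sums -/
noncomputable def Dv (d : ℕ) {r : ℕ} (v : Fin r → ℕ) (j : Fin (d + 1)) : ℝ := ∑ i, (v i : ℝ) ^ (j.val + 1)

/-- the Gaussian sum -/
noncomputable def GS (d X r : ℕ) (Ξ : ℝ) : ℝ :=
  ∑ v ∈ Bx X r, ∑ v' ∈ Bx X r, Real.exp (-(Real.pi * Ξ ^ 2 * ∑ j : Fin (d + 1), (Dv d v j - Dv d v' j) ^ 2))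

/-- products of the exponential sums -/
noncomputable def G (d X r : ℕ) (θ : Fin d → ℝ) (ξ : ℝ) : ℝ := ∏ i ∈ range r, ‖f d X i θ ξ‖

lemma prod_f (d X r : ℕ) (θ : Fin d → ℝ) (ξ : ℝ) :
    ∏ i : Fin r, f d X i θ ξ = ∑ v ∈ Bx X r,
      ee (ξ * (Dv d v (Fin.last d) + ∑ j : Fin d, θ j * Dv d v j.castSucc)) := by
  unfold f Bx
  rw [Finset.prod_univ_sum]
  refine Finset.sum_congr rfl fun v _ => ?_
  rw [← ee_sum, ← Finset.mul_sum]
  congr 2
  unfold P Dv
  rw [Finset.sum_add_distrib]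
  congr 1
  rw [Finset.sum_comm]
  refine Finset.sum_congr rfl fun j _ => ?_
  rw [Finset.mul_sum]
  rfl

lemma G_eq (d X r : ℕ) (θ : Fin d → ℝ) (ξ : ℝ) :
    G d X r θ ξ = ‖∑ v ∈ Bx X r,
      ee (ξ * (Dv d v (Fin.last d) + ∑ j : Fin d, θ j * Dv d v j.castSucc))‖ := by
  rw [← prod_f, norm_prod]
  unfold G
  rw [Finset.prod_range]

lemma G_nonneg (d X r : ℕ) (θ : Fin d → ℝ) (ξ : ℝ) : 0 ≤ G d X r θ ξ :=
  Finset.prod_nonneg fun _ _ => norm_nonneg _

lemma f_le (d X i k : ℕ) (hi : i ≤ k) (θ : Fin d → ℝ) (ξ : ℝ) : ‖f d X i θ ξ‖ ≤ 4 * 5 ^ k * X := by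
  unfold f
  refine (norm_sum_le _ _).trans ?_
  simp only [norm_ee, sum_const, nsmul_eq_mul, mul_one]
  have := Pool.Agent.L7h14.MW.card_I_le X i k hi
  exact_mod_cast this

lemma G_le (d X r s k : ℕ) (hr : r ≤ s) (hs : s ≤ k + 1) (θ : Fin d → ℝ) (ξ : ℝ) :
    G d X s θ ξ ≤ G d X r θ ξ * (4 * 5 ^ k * X) ^ (s - r) := by
  unfold G
  rw [← Finset.prod_range_mul_prod_Ico _ hr]
  refine mul_le_mul_of_nonneg_left ?_ (Finset.prod_nonneg fun _ _ => norm_nonneg _)
  calc ∏ i ∈ Ico r s, ‖f d X i θ ξ‖ ≤ ∏ _i ∈ Ico r s, (4 * 5 ^ k * X : ℝ) := by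
        refine Finset.prod_le_prod (fun _ _ => norm_nonneg _) fun i hi => ?_
        have := Finset.mem_Ico.1 hi
        exact f_le d X i k (by omega) θ ξ
    _ = _ := by simp

/-- near-diagonal pair -/
def NearP {r : ℕ} (k : ℕ) (L : ℝ) (p : (Fin r → ℕ) × (Fin r → ℕ)) : Prop := ∀ j, 1 ≤ j → j ≤ k →
    |∑ i, ((p.1 i : ℝ) ^ j - (p.2 i : ℝ) ^ j)| ≤ L

/-- exact solution -/
def ExP {r : ℕ} (k : ℕ) (p : (Fin r → ℕ) × (Fin r → ℕ)) : Prop :=
  ∀ j, 1 ≤ j → j ≤ k → ∑ i, (p.1 i) ^ j = ∑ i, (p.2 i) ^ j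

open Classical in
/-- the near-diagonal pairs -/
noncomputable def Nr (X r k : ℕ) (L : ℝ) : Finset ((Fin r → ℕ) × (Fin r → ℕ)) :=
  (Bx X r ×ˢ Bx X r).filter (NearP k L)

open Classical in
/-- the exact solutions -/
noncomputable def Ex (X r k : ℕ) : Finset ((Fin r → ℕ) × (Fin r → ℕ)) :=
  (Bx X r ×ˢ Bx X r).filter (ExP k)

lemma GS_le (d X r : ℕ) (Ξ L : ℝ) (hL : 0 ≤ L) :
    GS d X r Ξ ≤ (Nr X r (d + 1) L).card + ((Bx X r).card : ℝ) ^ 2 * Real.exp (-(Real.pi * Ξ ^ 2 * L ^ 2)) := by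
  classical
  have hpi := Real.pi_pos
  unfold GS
  rw [← Finset.sum_product']
  rw [← Finset.sum_filter_add_sum_filter_not (Bx X r ×ˢ Bx X r) (NearP (d + 1) L)]
  apply add_le_add
  · calc _ ≤ ∑ p ∈ (Bx X r ×ˢ Bx X r).filter (NearP (d + 1) L), (1 : ℝ) := by
          refine Finset.sum_le_sum fun p _ => ?_
          rw [Real.exp_le_one_iff]
          have : 0 ≤ Real.pi * Ξ ^ 2 * ∑ j : Fin (d + 1), (Dv d p.1 j - Dv d p.2 j) ^ 2 := by positivity
          linarith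
      _ = _ := by
          unfold Nr
          simp
  · calc _ ≤ ∑ p ∈ (Bx X r ×ˢ Bx X r).filter (fun p => ¬ NearP (d + 1) L p), Real.exp (-(Real.pi * Ξ ^ 2 * L ^ 2)) := by
          refine Finset.sum_le_sum fun p hp => ?_
          have hp2 := (Finset.mem_filter.1 hp).2
          unfold NearP at hp2
          push Not at hp2
          obtain ⟨j, hj1, hj2, hj3⟩ := hp2
          apply Real.exp_le_exp.2
          rw [neg_le_neg_iff]
          apply mul_le_mul_of_nonneg_left _ (by positivity)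
          have h1 : (Dv d p.1 ⟨j - 1, by omega⟩ - Dv d p.2 ⟨j - 1, by omega⟩) ^ 2 ≤
              ∑ j : Fin (d + 1), (Dv d p.1 j - Dv d p.2 j) ^ 2 :=
            Finset.single_le_sum (f := fun j : Fin (d + 1) => (Dv d p.1 j - Dv d p.2 j) ^ 2)
              (fun _ _ => sq_nonneg _) (Finset.mem_univ _)
          refine le_trans ?_ h1
          unfold Dv
          simp only
          have e : j - 1 + 1 = j := by omega
          rw [e, ← Finset.sum_sub_distrib]
          have h2 := pow_le_pow_left₀ hL hj3.le 2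
          rwa [sq_abs] at h2
      _ ≤ ∑ p ∈ (Bx X r ×ˢ Bx X r), Real.exp (-(Real.pi * Ξ ^ 2 * L ^ 2)) :=
          Finset.sum_le_sum_of_subset_of_nonneg (Finset.filter_subset _ _) fun _ _ _ => (Real.exp_pos _).le
      _ = _ := by rw [Finset.sum_const, Finset.card_product, nsmul_eq_mul]; push_cast; ring

/-- differences equal to `h` are at most as frequent as the difference `0` -/
lemma shift_le {ι α : Type*} [DecidableEq ι] [AddCommGroup α] [DecidableEq α] (V : Finset ι) (E : ι → α) (h : α) :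
    ((V ×ˢ V).filter (fun p : ι × ι => E p.1 - E p.2 = h)).card ≤
      ((V ×ˢ V).filter (fun p : ι × ι => E p.1 = E p.2)).card := by
  classical
  set r : α → ℕ := fun z => (V.filter (fun v => E v = z)).card with hr
  set Z := V.image E with hZ
  have h1 : ∀ g : α, ((V ×ˢ V).filter (fun p : ι × ι => E p.1 - E p.2 = g)).card = ∑ z ∈ Z, r z * r (z - g) := by
    intro g
    rw [Finset.card_eq_sum_card_fiberwise (f := fun p : ι × ι => E p.1) (t := Z)]
    · refine Finset.sum_congr rfl fun z _ => ?_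
      rw [hr]; simp only
      rw [← Finset.card_product]
      congr 1
      ext p
      simp only [Finset.mem_filter, Finset.mem_product]
      constructor
      · rintro ⟨⟨⟨a, b⟩, c⟩, e⟩
        refine ⟨⟨a, e⟩, b, ?_⟩
        rw [← e, ← c]; abel
      · rintro ⟨⟨a, e⟩, b, c⟩
        refine ⟨⟨⟨a, b⟩, ?_⟩, e⟩
        rw [e, c]; abel
    · intro p hp
      have := (Finset.mem_product.1 (Finset.mem_filter.1 hp).1).1
      exact Finset.mem_image_of_mem E this
  have h2 : ((V ×ˢ V).filter (fun p : ι × ι => E p.1 = E p.2)).card = ∑ z ∈ Z, r z * r z := by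
    have := h1 0
    simp only [sub_zero] at this
    rw [← this]
    congr 1
    ext p
    simp only [Finset.mem_filter, sub_eq_zero]
  rw [h1 h, h2]
  have h3 : ∑ z ∈ Z, r (z - h) * r (z - h) ≤ ∑ z ∈ Z, r z * r z := by
    calc ∑ z ∈ Z, r (z - h) * r (z - h) = ∑ z ∈ Z.filter (fun z => z - h ∈ Z), r (z - h) * r (z - h) := by
          symm
          apply Finset.sum_filter_of_ne
          intro z _ hne
          by_contra hc
          apply hne
          have : r (z - h) = 0 := by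
            rw [hr]; simp only
            rw [Finset.card_eq_zero, Finset.filter_eq_empty_iff]
            intro v hv hE
            exact hc (hE ▸ Finset.mem_image_of_mem E hv)
          rw [this, mul_zero]
      _ = ∑ z ∈ (Z.filter (fun z => z - h ∈ Z)).image (fun z => z - h), r z * r z := by
          rw [Finset.sum_image]
          intro a _ b _ hab
          exact sub_left_injective hab
      _ ≤ ∑ z ∈ Z, r z * r z := by
          apply Finset.sum_le_sum_of_subset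
          intro z hz
          obtain ⟨w, hw, rfl⟩ := Finset.mem_image.1 hz
          exact (Finset.mem_filter.1 hw).2
  have h4 : 2 * ∑ z ∈ Z, r z * r (z - h) ≤ ∑ z ∈ Z, r z * r z + ∑ z ∈ Z, r (z - h) * r (z - h) := by
    rw [Finset.mul_sum, ← Finset.sum_add_distrib]
    refine Finset.sum_le_sum fun z _ => ?_
    have := two_mul_le_add_sq (r z) (r (z - h))
    nlinarith
  omega

/-- near solutions of Vinogradov's system are few when the exact solutions are -/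
lemma near_le (X r k : ℕ) (L : ℝ) (hL : 1 ≤ L) :
    ((Nr X r k L).card : ℝ) ≤ (3 * L) ^ k * ((Ex X r k).card : ℝ) := by
  classical
  let E : (Fin r → ℕ) → (Fin k → ℤ) := fun x j => ∑ i, (x i : ℤ) ^ (j.val + 1)
  let Hs : Finset (Fin k → ℤ) := Fintype.piFinset fun _ => Finset.Icc (-⌊L⌋) ⌊L⌋
  have e1 : ((Bx X r ×ˢ Bx X r).filter (fun p : (Fin r → ℕ) × (Fin r → ℕ) => E p.1 = E p.2)).card ≤
      (Ex X r k).card := by
    apply Finset.card_le_card
    intro p hp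
    unfold Ex
    rw [Finset.mem_filter] at hp ⊢
    refine ⟨hp.1, fun j h1 h2 => ?_⟩
    have := congrFun hp.2 ⟨j - 1, by omega⟩
    simp only [E] at this
    have e : j - 1 + 1 = j := by omega
    rw [e] at this
    exact_mod_cast this
  have h1 : Nr X r k L ⊆ Hs.biUnion fun h =>
      (Bx X r ×ˢ Bx X r).filter (fun p : (Fin r → ℕ) × (Fin r → ℕ) => E p.1 - E p.2 = h) := by
    intro p hp
    unfold Nr at hp
    rw [Finset.mem_filter] at hp
    rw [Finset.mem_biUnion]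
    refine ⟨E p.1 - E p.2, ?_, Finset.mem_filter.2 ⟨hp.1, rfl⟩⟩
    rw [Fintype.mem_piFinset]
    intro j
    have h2 := hp.2 (j.val + 1) (by omega) (by omega)
    have h3 : ((E p.1 - E p.2) j : ℝ) = ∑ i, ((p.1 i : ℝ) ^ (j.val + 1) - (p.2 i : ℝ) ^ (j.val + 1)) := by
      simp only [E, Pi.sub_apply]
      push_cast
      rw [Finset.sum_sub_distrib]
    rw [← h3] at h2
    rw [Finset.mem_Icc]
    have h4 := abs_le.1 h2
    constructor
    · have : -((E p.1 - E p.2) j) ≤ ⌊L⌋ := Int.le_floor.2 (by push_cast; linarith)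
      linarith
    · exact Int.le_floor.2 h4.2
  have h2 : (Nr X r k L).card ≤ Hs.card * (Ex X r k).card := by
    refine (Finset.card_le_card h1).trans (Finset.card_biUnion_le.trans ?_)
    calc _ ≤ ∑ _h ∈ Hs, (Ex X r k).card := Finset.sum_le_sum fun h _ => (shift_le (Bx X r) E h).trans e1
      _ = _ := by rw [Finset.sum_const, smul_eq_mul]
  have h3 : (Hs.card : ℝ) ≤ (3 * L) ^ k := by
    rw [Fintype.card_piFinset]
    simp only [Int.card_Icc, Finset.prod_const, Finset.card_univ, Fintype.card_fin]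
    push_cast
    apply pow_le_pow_left₀ (by positivity)
    have hfl : (⌊L⌋ : ℝ) ≤ L := Int.floor_le L
    have hnn : 0 ≤ ⌊L⌋ := Int.floor_nonneg.2 (by linarith)
    have : ((⌊L⌋ + 1 - -⌊L⌋).toNat : ℝ) = (⌊L⌋ : ℝ) + 1 + ⌊L⌋ := by
      have e : ((⌊L⌋ + 1 - -⌊L⌋).toNat : ℤ) = ⌊L⌋ + 1 - -⌊L⌋ := Int.toNat_of_nonneg (by omega)
      have e2 : (((⌊L⌋ + 1 - -⌊L⌋).toNat : ℤ) : ℝ) = ((⌊L⌋ + 1 - -⌊L⌋ : ℤ) : ℝ) := by rw [e]
      push_cast at e2
      push_cast
      linarith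
    rw [this]
    linarith
  calc ((Nr X r k L).card : ℝ) ≤ (Hs.card : ℝ) * (Ex X r k).card := by exact_mod_cast h2
    _ ≤ (3 * L) ^ k * (Ex X r k).card := by gcongr

lemma N1' (h : S_N1) : ∀ r k : ℕ, 1 ≤ r → r ≤ k → ∃ C : ℝ, 0 < C ∧ ∀ X : ℕ, 1 ≤ X → ∀ L : ℝ,
    (X : ℝ) ^ (k - r) ≤ L → ((Nr X r k L).card : ℝ) ≤
    C * (X : ℝ) ^ r * (L / (X : ℝ) ^ (k - r)) * (1 + L / (X : ℝ) ^ (k - r + 1)) ^ (r - 1) := by
  intro r k hr hk
  obtain ⟨C, hC, h1⟩ := h r k hr hk
  refine ⟨C, hC, fun X hX L hL => ?_⟩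
  have := h1 X hX L hL
  unfold Nr NearP
  exact this

lemma J' (h : S_J) : ∀ k : ℕ, 2 ≤ k → ∀ ε : ℝ, 0 < ε → ∃ C : ℝ, 0 < C ∧ ∀ X : ℕ, 1 ≤ X →
    ((Ex X (k + 1) k).card : ℝ) ≤ C * (X : ℝ) ^ ((k : ℝ) + 1 + ε) := by
  intro k hk ε hε
  obtain ⟨C, hC, h1⟩ := h k hk ε hε
  refine ⟨C, hC, fun X hX => ?_⟩
  have := h1 X hX
  unfold Ex ExP
  exact this

end Pool.Agent.L7h43.MW
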