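import Pool.Agent.L7h43.MW.Asm1
import Pool.Agent.L7h47.MW.N1
import Pool.Agent.L7h14.MW.W

/-! The key estimate: small frequencies. -/

set_option autoImplicit false

namespace Pool.Agent.L7h43.MW

open Finset MeasureTheory

lemma mom' (h : S_MOM) (d B : ℕ) (hB : 1 ≤ B) : ∃ C : ℝ, 0 < C ∧ ∀ (X r : ℕ) (Ξ : ℝ), 0 < Ξ →
    ∫⁻ θ in Box d B, ∫⁻ ξ in Set.Icc Ξ (2 * Ξ), ENNReal.ofReal (G d X r θ ξ ^ 2) ≤
      ENNReal.ofReal (C * Ξ * GS d X r Ξ) := by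
  obtain ⟨C, hC, h1⟩ := h d B hB
  refine ⟨C, hC, fun X r Ξ hΞ => ?_⟩
  have h2 := h1 (Fin r → ℕ) (Bx X r) (fun v => Dv d v) Ξ hΞ
  simp_rw [G_eq]
  exact h2

lemma tiny (ε K : ℝ) (A : ℕ) (hε : 0 < ε) : ∃ X₀ : ℕ, 1 ≤ X₀ ∧ ∀ X : ℕ, X₀ ≤ X →
    K * (X : ℝ) ^ A * Real.exp (-(Real.pi * ((X : ℝ) ^ ε) ^ 2)) ≤ 1 := by
  have h := tendsto_rpow_mul_exp_neg_mul_atTop_nhds_zero ((A : ℝ) / (2 * ε)) Real.pi Real.pi_pos
  have h2 : Filter.Tendsto (fun X : ℕ => (X : ℝ) ^ (2 * ε)) Filter.atTop Filter.atTop :=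
    (tendsto_rpow_atTop (by positivity)).comp tendsto_natCast_atTop_atTop
  have h3 := ((h.comp h2).const_mul K)
  rw [mul_zero] at h3
  have h4 := h3.eventually (gt_mem_nhds (show (0 : ℝ) < 1 by norm_num))
  obtain ⟨X₀, hX₀⟩ := Filter.eventually_atTop.1 h4
  refine ⟨max 1 X₀, le_max_left _ _, fun X hX => ?_⟩
  have h5 := (hX₀ X ((le_max_right _ _).trans hX)).le
  simp only [Function.comp] at h5
  have hX1 : (1 : ℝ) ≤ X := by exact_mod_cast (le_max_left _ _).trans hX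
  refine le_trans (le_of_eq ?_) h5
  rw [← Real.rpow_mul (by linarith), ← Real.rpow_natCast ((X : ℝ) ^ ε) 2, ← Real.rpow_mul (by linarith),
    ← Real.rpow_natCast (X : ℝ) A, mul_assoc]
  have e1 : 2 * ε * ((A : ℝ) / (2 * ε)) = A := by field_simp
  have e2 : ε * ((2 : ℕ) : ℝ) = 2 * ε := by push_cast; ring
  rw [e1, e2]
  congr 3
  ring

/-- the function to be integrated -/
noncomputable def Wn (d X : ℕ) (θ : Fin d → ℝ) (ξ : ℝ) : ℝ := G d X (d + 1) θ ξ ^ 2 * ‖f d X (d + 1) θ ξ‖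

lemma Wn_nonneg (d X : ℕ) (θ : Fin d → ℝ) (ξ : ℝ) : 0 ≤ Wn d X θ ξ := by
  unfold Wn; positivity

lemma measBox (d B : ℕ) : MeasurableSet (Box d B) := by
  have : Box d B = ⋂ j, {θ : Fin d → ℝ | |θ j| ≤ B} := by
    ext θ; simp [Box]
  rw [this]
  refine MeasurableSet.iInter fun j => ?_
  exact measurableSet_le (by fun_prop) measurable_const

/-- an integral bound from a pointwise bound -/
lemma dbl_le {d B : ℕ} {Ξ K M : ℝ} (hK : 0 ≤ K) {g h : (Fin d → ℝ) → ℝ → ℝ}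
    (hgh : ∀ θ ∈ Box d B, ∀ ξ ∈ Set.Icc Ξ (2 * Ξ), g θ ξ ≤ K * h θ ξ)
    (hM : ∫⁻ θ in Box d B, ∫⁻ ξ in Set.Icc Ξ (2 * Ξ), ENNReal.ofReal (h θ ξ) ≤ ENNReal.ofReal M) :
    ∫⁻ θ in Box d B, ∫⁻ ξ in Set.Icc Ξ (2 * Ξ), ENNReal.ofReal (g θ ξ) ≤ ENNReal.ofReal (K * M) := by
  calc _ ≤ ∫⁻ θ in Box d B, ∫⁻ ξ in Set.Icc Ξ (2 * Ξ), ENNReal.ofReal K * ENNReal.ofReal (h θ ξ) := by
        refine setLIntegral_mono' (measBox d B) fun θ hθ => ?_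
        refine setLIntegral_mono' measurableSet_Icc fun ξ hξ => ?_
        rw [← ENNReal.ofReal_mul hK]
        exact ENNReal.ofReal_le_ofReal (hgh θ hθ ξ hξ)
    _ = ENNReal.ofReal K * ∫⁻ θ in Box d B, ∫⁻ ξ in Set.Icc Ξ (2 * Ξ), ENNReal.ofReal (h θ ξ) := by
        rw [← lintegral_const_mul' _ _ ENNReal.ofReal_ne_top]
        congr 1
        ext θ
        rw [lintegral_const_mul' _ _ ENNReal.ofReal_ne_top]
    _ ≤ ENNReal.ofReal K * ENNReal.ofReal M := by gcongr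
    _ = _ := by rw [ENNReal.ofReal_mul hK]

lemma alg1 (CI CW CM C1 x E S Ξ c2 : ℝ) (k r m : ℕ) (hr : r + m = k)
    (hx : 1 ≤ x) (hE : 1 ≤ E) (hS : 0 ≤ S) (hCI : 1 ≤ CI) (hCW : 0 ≤ CW) (hCM : 0 ≤ CM) (hC1 : 0 ≤ C1)
    (hΞ : 0 < Ξ) (gs : ℝ) (hgs : gs ≤ C1 * x ^ r * (E / (Ξ * x ^ m)) * (2 * E) ^ k + c2)
    (hc2 : Ξ * c2 ≤ 1 / x ^ (2 * k)) :
    (CI * x) ^ (2 * m) * (CW * S) * (CM * Ξ * gs) ≤
      CI ^ (2 * k) * CW * CM * (C1 * 2 ^ k + 1) * (x ^ k * S * E ^ (k + 1)) := by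
  have hx0 : 0 < x := by linarith
  have hE0 : 0 < E := by linarith
  have h1 : Ξ * gs ≤ C1 * 2 ^ k * x ^ r * E ^ (k + 1) / x ^ m + 1 / x ^ (2 * k) := by
    calc Ξ * gs ≤ Ξ * (C1 * x ^ r * (E / (Ξ * x ^ m)) * (2 * E) ^ k + c2) := by gcongr
      _ = C1 * 2 ^ k * x ^ r * E ^ (k + 1) / x ^ m + Ξ * c2 := by
          rw [mul_pow, pow_succ]; field_simp
      _ ≤ _ := by linarith
  have h2 : x ^ (2 * m) * (C1 * 2 ^ k * x ^ r * E ^ (k + 1) / x ^ m + 1 / x ^ (2 * k)) ≤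
      (C1 * 2 ^ k + 1) * (x ^ k * E ^ (k + 1)) := by
    have e1 : x ^ (2 * m) * (C1 * 2 ^ k * x ^ r * E ^ (k + 1) / x ^ m) = C1 * 2 ^ k * (x ^ k * E ^ (k + 1)) := by
      have : x ^ (2 * m) = x ^ m * x ^ m := by rw [← pow_add]; congr 1; ring
      rw [this, ← hr]
      field_simp
      ring
    have e2 : x ^ (2 * m) * (1 / x ^ (2 * k)) ≤ 1 * (x ^ k * E ^ (k + 1)) := by
      have h3 : x ^ (2 * m) ≤ x ^ (2 * k) := pow_le_pow_right₀ hx (by omega)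
      have h4 : x ^ (2 * m) * (1 / x ^ (2 * k)) ≤ 1 := by
        rw [mul_one_div, div_le_one (by positivity)]; exact h3
      have h5 : 1 ≤ x ^ k * E ^ (k + 1) := one_le_mul_of_one_le_of_one_le (one_le_pow₀ hx) (one_le_pow₀ hE)
      linarith
    rw [mul_add, e1]
    linarith
  have h6 : CI ^ (2 * m) ≤ CI ^ (2 * k) := pow_le_pow_right₀ hCI (by omega)
  have h7 : 0 ≤ C1 * 2 ^ k * x ^ r * E ^ (k + 1) / x ^ m + 1 / x ^ (2 * k) := by positivity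
  calc (CI * x) ^ (2 * m) * (CW * S) * (CM * Ξ * gs) =
      CI ^ (2 * m) * (CW * S * CM) * (x ^ (2 * m) * (Ξ * gs)) := by rw [mul_pow]; ring
    _ ≤ CI ^ (2 * m) * (CW * S * CM) * (x ^ (2 * m) *
          (C1 * 2 ^ k * x ^ r * E ^ (k + 1) / x ^ m + 1 / x ^ (2 * k))) := by gcongr
    _ ≤ CI ^ (2 * k) * (CW * S * CM) * ((C1 * 2 ^ k + 1) * (x ^ k * E ^ (k + 1))) := by gcongr
    _ = _ := by ring

theorem case1 (hM : S_MOM) (d B : ℕ) (hd : 1 ≤ d) (hB : 1 ≤ B) (c : ℝ) (hc : 0 < c)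
    (η : ℝ) (hη : 0 < η) (hη1 : η < 1) : ∃ σ C : ℝ, 0 < σ ∧ 0 < C ∧ ∃ X₀ : ℕ, 1 ≤ X₀ ∧
    ∀ X : ℕ, X₀ ≤ X → ∀ Ξ : ℝ, c ≤ Ξ * (X : ℝ) ^ d → 2 * Ξ ≤ (X : ℝ) ^ (-η) →
    ∫⁻ θ in Box d B, ∫⁻ ξ in Set.Icc Ξ (2 * Ξ), ENNReal.ofReal (Wn d X θ ξ) ≤
      ENNReal.ofReal (C * (X : ℝ) ^ ((d : ℝ) + 2 - σ)) := by
  obtain ⟨CM, hCM, hM1⟩ := mom' hM d B hB
  obtain ⟨σ, CW, hσ, hCW, X1, hW⟩ := Pool.Agent.L7h14.MW.s_W d B hd η hη hη1
  choose! CN hCN hN using N1' Pool.Agent.L7h47.MW.s_N1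
  set k := d + 1 with hk
  set C1 : ℝ := ∑ r ∈ Finset.Icc 1 k, CN r k with hC1
  have hCNle : ∀ r, 1 ≤ r → r ≤ k → CN r k ≤ C1 := fun r h1 h2 =>
    Finset.single_le_sum (f := fun r => CN r k) (fun r hr => (hCN r k (Finset.mem_Icc.1 hr).1 (Finset.mem_Icc.1 hr).2).le)
      (Finset.mem_Icc.2 ⟨h1, h2⟩)
  have hC10 : 0 ≤ C1 := Finset.sum_nonneg fun r hr => (hCN r k (Finset.mem_Icc.1 hr).1 (Finset.mem_Icc.1 hr).2).le
  set ε : ℝ := σ / (2 * (k + 1)) with hε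
  have hε0 : 0 < ε := by rw [hε]; positivity
  set CI : ℝ := 4 * 5 ^ k with hCI
  have hCI1 : 1 ≤ CI := by
    have : (1 : ℝ) ≤ 5 ^ k := one_le_pow₀ (by norm_num)
    rw [hCI]; linarith
  obtain ⟨X2, hX21, hX2⟩ := tiny ε (CI ^ (2 * k)) (4 * k) hε0
  -- lower bound for X
  obtain ⟨X3, hX3⟩ : ∃ X3 : ℕ, ∀ X : ℕ, X3 ≤ X → 1 / c ≤ (X : ℝ) ^ (1 - η) := by
    have h2 : Filter.Tendsto (fun X : ℕ => (X : ℝ) ^ (1 - η)) Filter.atTop Filter.atTop :=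
      (tendsto_rpow_atTop (by linarith)).comp tendsto_natCast_atTop_atTop
    exact Filter.eventually_atTop.1 (h2.eventually_ge_atTop (1 / c))
  refine ⟨σ / 2, CI ^ (2 * k) * CW * CM * (C1 * 2 ^ k + 1), by positivity, by positivity,
    max (max X1 X2) X3, (hX21.trans (le_max_right _ _)).trans (le_max_left _ _), ?_⟩
  intro X hX Ξ hΞ1 hΞ2
  have hXX1 : X1 ≤ X := ((le_max_left _ _).trans (le_max_left _ _)).trans hX
  have hXX2 : X2 ≤ X := ((le_max_right _ _).trans (le_max_left _ _)).trans hX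
  have hXX3 : X3 ≤ X := (le_max_right _ _).trans hX
  have hX1' : 1 ≤ X := hX21.trans hXX2
  have hx1 : (1 : ℝ) ≤ X := by exact_mod_cast hX1'
  have hx0 : (0 : ℝ) < X := by linarith
  have hcx := hX3 X hXX3
  have hΞ0 : 0 < Ξ := by
    by_contra hcon
    have h1 : Ξ * (X : ℝ) ^ d ≤ 0 := mul_nonpos_of_nonpos_of_nonneg (not_lt.1 hcon) (by positivity)
    linarith
  have hcX : 1 / c ≤ X := hcx.trans (by
    calc (X : ℝ) ^ (1 - η) ≤ (X : ℝ) ^ (1 : ℝ) := Real.rpow_le_rpow_of_exponent_le hx1 (by linarith)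
      _ = X := Real.rpow_one _)
  -- lower bound for Ξ
  have hWlow : (X : ℝ) ^ (-((d : ℝ) + 1) + η) ≤ Ξ := by
    have e1 : (X : ℝ) ^ (-((d : ℝ) + 1) + η) = (X : ℝ) ^ (-(1 - η)) / (X : ℝ) ^ d := by
      rw [← Real.rpow_natCast, ← Real.rpow_sub hx0]; congr 1; ring
    rw [e1, div_le_iff₀ (by positivity)]
    refine le_trans ?_ hΞ1
    rw [Real.rpow_neg hx0.le, inv_le_comm₀ (by positivity) hc, ← one_div]
    exact hcx
  have hΞle : Ξ ≤ 1 := by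
    have : (X : ℝ) ^ (-η) ≤ 1 := Real.rpow_le_one_of_one_le_of_nonpos hx1 (by linarith)
    linarith
  have hinv1 : 1 ≤ 1 / Ξ := by rw [le_div_iff₀ hΞ0]; linarith
  -- choose m
  classical
  set m := Nat.findGreatest (fun m => (X : ℝ) ^ m ≤ 1 / Ξ) d with hm
  have hm1 : (X : ℝ) ^ m ≤ 1 / Ξ :=
    Nat.findGreatest_spec (P := fun m => (X : ℝ) ^ m ≤ 1 / Ξ) (m := 0) (Nat.zero_le _) (by simpa using hinv1)
  have hmd : m ≤ d := Nat.findGreatest_le d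
  have hm2 : 1 / Ξ ≤ (X : ℝ) ^ (m + 1) := by
    rcases Nat.lt_or_ge m d with h | h
    · by_contra hcon
      have h1 : (X : ℝ) ^ (m + 1) ≤ 1 / Ξ := (not_le.1 hcon).le
      have h2 := Nat.le_findGreatest (P := fun m => (X : ℝ) ^ m ≤ 1 / Ξ) (by omega : m + 1 ≤ d) h1
      omega
    · have hmd' : m = d := by omega
      rw [hmd', div_le_iff₀ hΞ0]
      rw [div_le_iff₀ hc] at hcX
      calc (1 : ℝ) ≤ X * c := hcX
        _ ≤ X * (Ξ * (X : ℝ) ^ d) := by gcongr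
        _ = (X : ℝ) ^ (d + 1) * Ξ := by ring
  set r := k - m with hr
  have hr1 : 1 ≤ r := by omega
  have hrk : r ≤ k := by omega
  have hkr : k - r = m := by omega
  set E : ℝ := (X : ℝ) ^ ε with hE
  have hE1 : 1 ≤ E := Real.one_le_rpow hx1 hε0.le
  have hE0 : 0 < E := by linarith
  set L : ℝ := E / Ξ with hL
  have hL0 : 0 < L := by positivity
  have hLm : (X : ℝ) ^ (k - r) ≤ L := by
    rw [hkr, hL]
    calc (X : ℝ) ^ m ≤ 1 / Ξ := hm1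
      _ ≤ E / Ξ := by gcongr
  have hcount := hN r k hr1 hrk X hX1' L hLm
  rw [hkr] at hcount
  have hq : L / (X : ℝ) ^ (m + 1) ≤ E := by
    rw [div_le_iff₀ (by positivity), hL]
    calc E / Ξ = E * (1 / Ξ) := by ring
      _ ≤ E * (X : ℝ) ^ (m + 1) := by gcongr
  have hcount2 : ((Nr X r k L).card : ℝ) ≤ C1 * (X : ℝ) ^ r * (E / (Ξ * (X : ℝ) ^ m)) * (2 * E) ^ k := by
    refine hcount.trans ?_
    have h1 : (1 + L / (X : ℝ) ^ (m + 1)) ^ (r - 1) ≤ (2 * E) ^ k := by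
      calc (1 + L / (X : ℝ) ^ (m + 1)) ^ (r - 1) ≤ (2 * E) ^ (r - 1) := by
            apply pow_le_pow_left₀ (by positivity)
            linarith
        _ ≤ (2 * E) ^ k := pow_le_pow_right₀ (by linarith) (by omega)
    have h2 : L / (X : ℝ) ^ m = E / (Ξ * (X : ℝ) ^ m) := by rw [hL, div_div]
    rw [h2]
    have h3 := hCNle r hr1 hrk
    gcongr
  have hcardBx : ((Bx X r).card : ℝ) ≤ (CI * X) ^ k := by
    have h1 := Pool.Agent.L7h14.MW.card_Bx_le X r k (by omega)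
    have h2 : ((Bx X r).card : ℝ) ≤ (CI * X) ^ r := by
      rw [hCI]; exact_mod_cast h1
    refine h2.trans (pow_le_pow_right₀ ?_ hrk)
    nlinarith
  have hexp : Ξ * (((Bx X r).card : ℝ) ^ 2 * Real.exp (-(Real.pi * Ξ ^ 2 * L ^ 2))) ≤ 1 / (X : ℝ) ^ (2 * k) := by
    have e1 : Real.pi * Ξ ^ 2 * L ^ 2 = Real.pi * E ^ 2 := by rw [hL]; field_simp
    rw [e1, le_div_iff₀ (by positivity)]
    have h1 := hX2 X hXX2
    calc Ξ * (((Bx X r).card : ℝ) ^ 2 * Real.exp (-(Real.pi * E ^ 2))) * (X : ℝ) ^ (2 * k)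
        ≤ 1 * (((CI * X) ^ k) ^ 2 * Real.exp (-(Real.pi * E ^ 2))) * (X : ℝ) ^ (2 * k) := by
          have := (Real.exp_pos (-(Real.pi * E ^ 2))).le
          gcongr
      _ = CI ^ (2 * k) * (X : ℝ) ^ (4 * k) * Real.exp (-(Real.pi * E ^ 2)) := by
          have e2 : (X : ℝ) ^ (4 * k) = (X : ℝ) ^ (2 * k) * (X : ℝ) ^ (2 * k) := by
            rw [← pow_add]; congr 1; ring
          have e3 : ((CI * X) ^ k) ^ 2 = CI ^ (2 * k) * (X : ℝ) ^ (2 * k) := by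
            rw [← pow_mul, mul_pow, mul_comm k 2]
          rw [e2, e3]; ring
      _ ≤ 1 := h1
  have hGS := GS_le d X r Ξ L hL0.le
  have hGS2 : GS d X r Ξ ≤ C1 * (X : ℝ) ^ r * (E / (Ξ * (X : ℝ) ^ m)) * (2 * E) ^ k +
      ((Bx X r).card : ℝ) ^ 2 * Real.exp (-(Real.pi * Ξ ^ 2 * L ^ 2)) := by
    refine hGS.trans ?_
    rw [← hk]
    linarith
  set S : ℝ := (X : ℝ) ^ (1 - σ) with hS
  have hS0 : 0 ≤ S := by positivity
  have hfin := alg1 CI CW CM C1 X E S Ξ _ k r m (by omega) hx1 hE1 hS0 hCI1 hCW.le hCM.le hC10 hΞ0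
    (GS d X r Ξ) hGS2 hexp
  have hpt : ∀ θ ∈ Box d B, ∀ ξ ∈ Set.Icc Ξ (2 * Ξ), Wn d X θ ξ ≤ ((CI * X) ^ (2 * m) * (CW * S)) * G d X r θ ξ ^ 2 := by
    intro θ hθ ξ hξ
    have h1 := hW X hXX1 θ hθ ξ (hWlow.trans hξ.1) (hξ.2.trans hΞ2) (d + 1) le_rfl
    have h2 := G_le d X r k k hrk (by omega) θ ξ
    rw [hkr] at h2
    unfold Wn
    have h3 : G d X (d + 1) θ ξ ^ 2 ≤ (G d X r θ ξ * (CI * X) ^ m) ^ 2 := by
      rw [← hk]
      exact pow_le_pow_left₀ (G_nonneg _ _ _ _ _) h2 2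
    calc G d X (d + 1) θ ξ ^ 2 * ‖f d X (d + 1) θ ξ‖ ≤ (G d X r θ ξ * (CI * X) ^ m) ^ 2 * (CW * S) := by
          gcongr
      _ = _ := by
          have : ((CI * (X : ℝ)) ^ m) ^ 2 = (CI * X) ^ (2 * m) := by rw [← pow_mul, mul_comm m 2]
          rw [mul_pow, this]; ring
  have hint := dbl_le (d := d) (B := B) (Ξ := Ξ) (K := (CI * X) ^ (2 * m) * (CW * S)) (M := CM * Ξ * GS d X r Ξ)
    (by positivity) hpt (hM1 X r Ξ hΞ0)
  refine hint.trans (ENNReal.ofReal_le_ofReal (hfin.trans (le_of_eq ?_)))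
  congr 1
  rw [hS, hE, ← Real.rpow_natCast ((X : ℝ) ^ ε), ← Real.rpow_mul hx0.le, ← Real.rpow_natCast (X : ℝ) k,
    ← Real.rpow_add hx0, ← Real.rpow_add hx0]
  congr 1
  rw [hε, hk]
  push_cast
  field_simp
  ring

end Pool.Agent.L7h43.MW
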