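import Pool.Agent.L7h43.MW.Asm2

/-! The key estimate: large frequencies. -/

set_option autoImplicit false

namespace Pool.Agent.L7h43.MW

open Finset MeasureTheory

lemma cont_f (d X i : ℕ) : Continuous fun p : (Fin d → ℝ) × ℝ => f d X i p.1 p.2 := by
  unfold f P
  refine continuous_finsetSum _ fun x _ => continuous_ee.comp ?_
  fun_prop

lemma cont_G (d X r : ℕ) : Continuous fun p : (Fin d → ℝ) × ℝ => G d X r p.1 p.2 := by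
  unfold G
  exact continuous_finsetProd _ fun i _ => (cont_f d X i).norm

lemma cont_Wn (d X : ℕ) : Continuous fun p : (Fin d → ℝ) × ℝ => Wn d X p.1 p.2 := by
  unfold Wn
  exact ((cont_G d X (d + 1)).pow 2).mul (cont_f d X (d + 1)).norm

lemma meas_inner {d : ℕ} (g : (Fin d → ℝ) × ℝ → ℝ) (hg : Continuous g) (s : Set ℝ) :
    Measurable fun θ : Fin d → ℝ => ∫⁻ ξ in s, ENNReal.ofReal (g (θ, ξ)) :=
  Measurable.lintegral_prod_right' (f := fun p : (Fin d → ℝ) × ℝ => ENNReal.ofReal (g p))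
    (ENNReal.measurable_ofReal.comp hg.measurable)

lemma dbl_add {d B : ℕ} {Ξ M N : ℝ} (hM0 : 0 ≤ M) (hN0 : 0 ≤ N) {g h : (Fin d → ℝ) × ℝ → ℝ}
    (hg : Continuous g) (hh : Continuous h) (hg0 : ∀ p, 0 ≤ g p) (hh0 : ∀ p, 0 ≤ h p)
    (h1 : ∫⁻ θ in Box d B, ∫⁻ ξ in Set.Icc Ξ (2 * Ξ), ENNReal.ofReal (g (θ, ξ)) ≤ ENNReal.ofReal M)
    (h2 : ∫⁻ θ in Box d B, ∫⁻ ξ in Set.Icc Ξ (2 * Ξ), ENNReal.ofReal (h (θ, ξ)) ≤ ENNReal.ofReal N) :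
    ∫⁻ θ in Box d B, ∫⁻ ξ in Set.Icc Ξ (2 * Ξ), ENNReal.ofReal (g (θ, ξ) + h (θ, ξ)) ≤ ENNReal.ofReal (M + N) := by
  rw [ENNReal.ofReal_add hM0 hN0]
  refine le_trans (le_of_eq ?_) (add_le_add h1 h2)
  rw [← lintegral_add_left (meas_inner g hg _)]
  congr 1
  ext θ
  rw [← lintegral_add_left]
  · congr 1
    ext ξ
    rw [ENNReal.ofReal_add (hg0 _) (hh0 _)]
  · exact ENNReal.measurable_ofReal.comp (hg.comp (Continuous.prodMk_right θ)).measurable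

lemma alg2 (CM C1 CJ x L E Ξ h : ℝ) (k : ℕ) (g1 g2 : ℝ) (hx : 1 ≤ x) (hE : 1 ≤ E) (hL : 1 ≤ L)
    (hCM : 0 ≤ CM) (hC1 : 0 ≤ C1) (hCJ : 0 ≤ CJ) (hΞ : 0 ≤ Ξ) (hh0 : 0 < h) (hh : h * h = x)
    (hg1 : g1 ≤ C1 * x ^ k * (2 * L) ^ (k + 1) + 1) (hg2 : g2 ≤ (3 * L) ^ k * (CJ * (x ^ (k + 1) * E)) + 1) :
    h * (CM * Ξ * g1) + 1 / h * (CM * Ξ * g2) ≤
      CM * ((C1 + 1) * 2 ^ (k + 1) + (CJ + 1) * 3 ^ k) * (Ξ * (x ^ k * h) * L ^ (k + 1) * E) := by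
  have hx0 : 0 < x := by linarith
  have p1 : 1 ≤ x ^ k * (2 * L) ^ (k + 1) :=
    one_le_mul_of_one_le_of_one_le (one_le_pow₀ hx) (one_le_pow₀ (by linarith))
  have p2 : 1 ≤ (3 * L) ^ k * (x ^ (k + 1) * E) :=
    one_le_mul_of_one_le_of_one_le (one_le_pow₀ (by linarith))
      (one_le_mul_of_one_le_of_one_le (one_le_pow₀ hx) hE)
  have q1 : g1 ≤ (C1 + 1) * 2 ^ (k + 1) * (x ^ k * L ^ (k + 1)) := by
    calc g1 ≤ C1 * x ^ k * (2 * L) ^ (k + 1) + x ^ k * (2 * L) ^ (k + 1) := by linarith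
      _ = _ := by rw [mul_pow]; ring
  have q2 : g2 ≤ (CJ + 1) * 3 ^ k * (x ^ (k + 1) * E * L ^ k) := by
    calc g2 ≤ (3 * L) ^ k * (CJ * (x ^ (k + 1) * E)) + (3 * L) ^ k * (x ^ (k + 1) * E) := by linarith
      _ = _ := by rw [mul_pow]; ring
  have r1 : h * (CM * Ξ * g1) ≤ CM * ((C1 + 1) * 2 ^ (k + 1)) * (Ξ * (x ^ k * h) * L ^ (k + 1) * E) := by
    calc h * (CM * Ξ * g1) ≤ h * (CM * Ξ * ((C1 + 1) * 2 ^ (k + 1) * (x ^ k * L ^ (k + 1)))) := by gcongr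
      _ = CM * ((C1 + 1) * 2 ^ (k + 1)) * (Ξ * (x ^ k * h) * L ^ (k + 1) * 1) := by ring
      _ ≤ _ := by gcongr
  have r2 : 1 / h * (CM * Ξ * g2) ≤ CM * ((CJ + 1) * 3 ^ k) * (Ξ * (x ^ k * h) * L ^ (k + 1) * E) := by
    calc 1 / h * (CM * Ξ * g2) ≤ 1 / h * (CM * Ξ * ((CJ + 1) * 3 ^ k * (x ^ (k + 1) * E * L ^ k))) := by gcongr
      _ = CM * ((CJ + 1) * 3 ^ k) * (Ξ * (x ^ k * h) * (L ^ k * 1) * E) := by
          rw [pow_succ, ← hh]; field_simp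
      _ ≤ CM * ((CJ + 1) * 3 ^ k) * (Ξ * (x ^ k * h) * (L ^ k * L) * E) := by gcongr
      _ = _ := by rw [pow_succ L]
  calc _ ≤ CM * ((C1 + 1) * 2 ^ (k + 1)) * (Ξ * (x ^ k * h) * L ^ (k + 1) * E) +
      CM * ((CJ + 1) * 3 ^ k) * (Ξ * (x ^ k * h) * L ^ (k + 1) * E) := add_le_add r1 r2
    _ = _ := by ring

theorem case2 (hM : S_MOM) (d B : ℕ) (hd : 1 ≤ d) (hB : 1 ≤ B) : ∃ C : ℝ, 0 < C ∧ ∃ X₀ : ℕ, 1 ≤ X₀ ∧
    ∀ X : ℕ, X₀ ≤ X → ∀ Ξ : ℝ, (X : ℝ) ^ (-(1 / (48 * ((d : ℝ) + 2)))) ≤ 2 * Ξ → Ξ ≤ (X : ℝ) ^ (1 / 3 : ℝ) →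
    ∫⁻ θ in Box d B, ∫⁻ ξ in Set.Icc Ξ (2 * Ξ), ENNReal.ofReal (Wn d X θ ξ) ≤
      ENNReal.ofReal (C * (X : ℝ) ^ ((d : ℝ) + 2 - 1 / 12)) := by
  obtain ⟨CM, hCM, hM1⟩ := mom' hM d B hB
  set k := d + 1 with hk
  obtain ⟨C1, hC1, hN⟩ := N1' Pool.Agent.L7h47.MW.s_N1 k k (by omega) le_rfl
  set ε : ℝ := 1 / (48 * ((d : ℝ) + 2)) with hε
  have hε0 : 0 < ε := by rw [hε]; positivity
  obtain ⟨CJ, hCJ, hJ⟩ := J' Pool.Agent.L7h14.MW.s_J k (by omega) ε hε0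
  set CI : ℝ := 4 * 5 ^ k with hCI
  have hCI1 : 1 ≤ CI := by
    have : (1 : ℝ) ≤ 5 ^ k := one_le_pow₀ (by norm_num)
    rw [hCI]; linarith
  obtain ⟨X2, hX21, hX2⟩ := tiny ε (CI ^ (2 * (k + 1))) (2 * (k + 1)) hε0
  refine ⟨CM * ((C1 + 1) * 2 ^ (k + 1) + (CJ + 1) * 3 ^ k) * 2 ^ (k + 1), by positivity, X2, hX21, ?_⟩
  intro X hX Ξ hΞ1 hΞ2
  have hX1' : 1 ≤ X := hX21.trans hX
  have hx1 : (1 : ℝ) ≤ X := by exact_mod_cast hX1'
  have hx0 : (0 : ℝ) < X := by linarith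
  have hΞ0 : 0 < Ξ := by
    have : (0 : ℝ) < (X : ℝ) ^ (-ε) := by positivity
    linarith
  set E : ℝ := (X : ℝ) ^ ε with hE
  have hE1 : 1 ≤ E := Real.one_le_rpow hx1 hε0.le
  have hE0 : 0 < E := by linarith
  set L : ℝ := 2 * E ^ 2 with hL
  have hL1 : 1 ≤ L := by rw [hL]; nlinarith
  have hΞL : E ≤ Ξ * L := by
    rw [Real.rpow_neg hx0.le] at hΞ1
    have h1 : 1 ≤ 2 * Ξ * E := by
      have := mul_le_mul_of_nonneg_right hΞ1 hE0.le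
      rwa [inv_mul_cancel₀ hE0.ne'] at this
    calc E = 1 * E := by ring
      _ ≤ (2 * Ξ * E) * E := by gcongr
      _ = Ξ * L := by rw [hL]; ring
  have hexp : Real.exp (-(Real.pi * Ξ ^ 2 * L ^ 2)) ≤ Real.exp (-(Real.pi * E ^ 2)) := by
    apply Real.exp_le_exp.2
    rw [neg_le_neg_iff]
    have : E ^ 2 ≤ (Ξ * L) ^ 2 := pow_le_pow_left₀ hE0.le hΞL 2
    have hpi := Real.pi_pos
    calc Real.pi * E ^ 2 ≤ Real.pi * (Ξ * L) ^ 2 := by gcongr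
      _ = _ := by ring
  have hsm : ∀ r, r ≤ k + 1 → ((Bx X r).card : ℝ) ^ 2 * Real.exp (-(Real.pi * Ξ ^ 2 * L ^ 2)) ≤ 1 := by
    intro r hr
    have h1 := Pool.Agent.L7h14.MW.card_Bx_le X r k hr
    have h2 : ((Bx X r).card : ℝ) ≤ (CI * X) ^ (k + 1) := by
      have h3 : ((Bx X r).card : ℝ) ≤ (CI * X) ^ r := by
        rw [hCI]; exact_mod_cast h1
      refine h3.trans (pow_le_pow_right₀ ?_ hr)
      nlinarith
    calc ((Bx X r).card : ℝ) ^ 2 * Real.exp (-(Real.pi * Ξ ^ 2 * L ^ 2)) ≤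
          ((CI * X) ^ (k + 1)) ^ 2 * Real.exp (-(Real.pi * E ^ 2)) := by gcongr
      _ = CI ^ (2 * (k + 1)) * (X : ℝ) ^ (2 * (k + 1)) * Real.exp (-(Real.pi * E ^ 2)) := by
          rw [← pow_mul, mul_pow, mul_comm (k + 1) 2]
      _ ≤ 1 := hX2 X hX
  -- first count
  have hg1 : GS d X k Ξ ≤ C1 * (X : ℝ) ^ k * (2 * L) ^ (k + 1) + 1 := by
    have h1 := GS_le d X k Ξ L (by linarith)
    have h2 := hN X hX1' L (by simpa using hL1)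
    have h3 := hsm k (by omega)
    rw [← hk] at h1
    refine h1.trans (add_le_add (h2.trans ?_) h3)
    simp only [Nat.sub_self, pow_zero, zero_add, pow_one, div_one]
    have h4 : L * (1 + L / X) ^ (k - 1) ≤ (2 * L) ^ (k + 1) := by
      have h5 : L / X ≤ L := div_le_self (by linarith) hx1
      have h6 : (1 + L / X) ^ (k - 1) ≤ (2 * L) ^ (k - 1) := by
        apply pow_le_pow_left₀ (by positivity); linarith
      have h7 : (2 * L) ^ (k - 1) ≤ (2 * L) ^ k := pow_le_pow_right₀ (by linarith) (by omega)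
      calc L * (1 + L / X) ^ (k - 1) ≤ (2 * L) * (2 * L) ^ k := by
            apply mul_le_mul (by linarith) (h6.trans h7) (by positivity) (by linarith)
        _ = _ := by ring
    calc C1 * (X : ℝ) ^ k * L * (1 + L / X) ^ (k - 1) = C1 * (X : ℝ) ^ k * (L * (1 + L / X) ^ (k - 1)) := by ring
      _ ≤ _ := by gcongr
  -- second count
  have hg2 : GS d X (k + 1) Ξ ≤ (3 * L) ^ k * (CJ * ((X : ℝ) ^ (k + 1) * E)) + 1 := by
    have h1 := GS_le d X (k + 1) Ξ L (by linarith)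
    have h2 := near_le X (k + 1) k L hL1
    have h3 := hsm (k + 1) le_rfl
    have h4 := hJ X hX1'
    rw [← hk] at h1
    refine h1.trans (add_le_add (h2.trans ?_) h3)
    have h5 : (X : ℝ) ^ ((k : ℝ) + 1 + ε) = (X : ℝ) ^ (k + 1) * E := by
      rw [hE, ← Real.rpow_natCast, ← Real.rpow_add hx0]; congr 1; push_cast; ring
    rw [h5] at h4
    gcongr
  set h : ℝ := Real.sqrt X with hh
  have hh0 : 0 < h := Real.sqrt_pos.2 hx0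
  have hhh : h * h = X := Real.mul_self_sqrt hx0.le
  have halg := alg2 CM C1 CJ X L E Ξ h k (GS d X k Ξ) (GS d X (k + 1) Ξ) hx1 hE1 hL1 hCM.le hC1.le hCJ.le
    hΞ0.le hh0 hhh hg1 hg2
  -- the two moments
  have m1 := dbl_le (d := d) (B := B) (Ξ := Ξ) (K := h) (M := CM * Ξ * GS d X k Ξ) hh0.le
    (g := fun θ ξ => h * G d X k θ ξ ^ 2) (h := fun θ ξ => G d X k θ ξ ^ 2)
    (fun θ _ ξ _ => le_rfl) (hM1 X k Ξ hΞ0)
  have m2 := dbl_le (d := d) (B := B) (Ξ := Ξ) (K := 1 / h) (M := CM * Ξ * GS d X (k + 1) Ξ) (by positivity)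
    (g := fun θ ξ => 1 / h * G d X (k + 1) θ ξ ^ 2) (h := fun θ ξ => G d X (k + 1) θ ξ ^ 2)
    (fun θ _ ξ _ => le_rfl) (hM1 X (k + 1) Ξ hΞ0)
  have hGS0 : ∀ r, 0 ≤ GS d X r Ξ := fun r =>
    Finset.sum_nonneg fun _ _ => Finset.sum_nonneg fun _ _ => (Real.exp_pos _).le
  have m3 := dbl_add (d := d) (B := B) (Ξ := Ξ) (M := h * (CM * Ξ * GS d X k Ξ))
    (N := 1 / h * (CM * Ξ * GS d X (k + 1) Ξ))
    (g := fun p => h * G d X k p.1 p.2 ^ 2) (h := fun p => 1 / h * G d X (k + 1) p.1 p.2 ^ 2)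
    (mul_nonneg hh0.le (mul_nonneg (mul_nonneg hCM.le hΞ0.le) (hGS0 _)))
    (mul_nonneg (by positivity) (mul_nonneg (mul_nonneg hCM.le hΞ0.le) (hGS0 _)))
    (continuous_const.mul ((cont_G d X k).pow 2)) (continuous_const.mul ((cont_G d X (k + 1)).pow 2))
    (fun p => mul_nonneg hh0.le (sq_nonneg _)) (fun p => mul_nonneg (by positivity) (sq_nonneg _)) m1 m2
  have m4 : ∫⁻ θ in Box d B, ∫⁻ ξ in Set.Icc Ξ (2 * Ξ), ENNReal.ofReal (Wn d X θ ξ) ≤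
      ∫⁻ θ in Box d B, ∫⁻ ξ in Set.Icc Ξ (2 * Ξ),
        ENNReal.ofReal (h * G d X k θ ξ ^ 2 + 1 / h * G d X (k + 1) θ ξ ^ 2) := by
    refine lintegral_mono fun θ => lintegral_mono fun ξ => ENNReal.ofReal_le_ofReal ?_
    unfold Wn
    rw [← hk]
    have e1 : G d X (k + 1) θ ξ = G d X k θ ξ * ‖f d X k θ ξ‖ := by
      unfold G; rw [Finset.prod_range_succ]
    rw [e1]
    have hg0 := G_nonneg d X k θ ξ
    have hn0 := norm_nonneg (f d X k θ ξ)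
    set g := G d X k θ ξ
    set n := ‖f d X k θ ξ‖
    have e2 : h * g ^ 2 + 1 / h * (g * n) ^ 2 - g ^ 2 * n = g ^ 2 * ((h - n) ^ 2 + h * n) / h := by
      field_simp
      ring
    have e3 : 0 ≤ g ^ 2 * ((h - n) ^ 2 + h * n) / h := by positivity
    linarith
  refine m4.trans (m3.trans (ENNReal.ofReal_le_ofReal (halg.trans ?_)))
  have hfin : Ξ * ((X : ℝ) ^ k * h) * L ^ (k + 1) * E ≤ 2 ^ (k + 1) * (X : ℝ) ^ ((d : ℝ) + 2 - 1 / 12) := by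
    have e1 : L ^ (k + 1) = 2 ^ (k + 1) * E ^ (2 * (k + 1)) := by
      rw [hL, mul_pow, ← pow_mul]
    have e2 : h = (X : ℝ) ^ (1 / 2 : ℝ) := by rw [hh, Real.sqrt_eq_rpow]
    calc Ξ * ((X : ℝ) ^ k * h) * L ^ (k + 1) * E ≤ (X : ℝ) ^ (1 / 3 : ℝ) * ((X : ℝ) ^ k * h) * L ^ (k + 1) * E := by
          gcongr
      _ = 2 ^ (k + 1) * ((X : ℝ) ^ (1 / 3 : ℝ) * (X : ℝ) ^ k * (X : ℝ) ^ (1 / 2 : ℝ) * E ^ (2 * (k + 1) + 1)) := by
          rw [e1, e2]; ring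
      _ ≤ 2 ^ (k + 1) * (X : ℝ) ^ ((d : ℝ) + 2 - 1 / 12) := by
          gcongr
          rw [hE, ← Real.rpow_natCast ((X : ℝ) ^ ε), ← Real.rpow_mul hx0.le, ← Real.rpow_natCast (X : ℝ) k,
            ← Real.rpow_add hx0, ← Real.rpow_add hx0, ← Real.rpow_add hx0]
          apply Real.rpow_le_rpow_of_exponent_le hx1
          have e3 : ε * ((2 * (k + 1) + 1 : ℕ) : ℝ) ≤ 1 / 12 := by
            rw [hε, hk]
            push_cast
            rw [one_div, ← div_eq_inv_mul, div_le_iff₀ (by positivity)]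
            have : (0 : ℝ) ≤ d := Nat.cast_nonneg d
            linarith
          rw [hk]
          push_cast
          push_cast at e3
          rw [hk] at e3
          push_cast at e3
          linarith
  calc CM * ((C1 + 1) * 2 ^ (k + 1) + (CJ + 1) * 3 ^ k) * (Ξ * ((X : ℝ) ^ k * h) * L ^ (k + 1) * E) ≤
      CM * ((C1 + 1) * 2 ^ (k + 1) + (CJ + 1) * 3 ^ k) * (2 ^ (k + 1) * (X : ℝ) ^ ((d : ℝ) + 2 - 1 / 12)) := by
        gcongr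
    _ = _ := by ring

end Pool.Agent.L7h43.MW
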