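import Pool.Agent.L7h43.MW.Asm3

/-! The sum over all large frequencies. -/

set_option autoImplicit false

namespace Pool.Agent.L7h43.MW

open Finset MeasureTheory

lemma Wn_le (d X : ℕ) (θ : Fin d → ℝ) (ξ : ℝ) : Wn d X θ ξ ≤ (4 * 5 ^ (d + 1) * X) ^ (2 * (d + 1) + 1) := by
  unfold Wn
  have h1 := G_le d X 0 (d + 1) (d + 1) (by omega) (by omega) θ ξ
  have h2 : G d X 0 θ ξ = 1 := by unfold G; simp
  rw [h2, one_mul, Nat.sub_zero] at h1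
  have h3 := f_le d X (d + 1) (d + 1) le_rfl θ ξ
  have h4 := G_nonneg d X (d + 1) θ ξ
  calc G d X (d + 1) θ ξ ^ 2 * ‖f d X (d + 1) θ ξ‖ ≤
      ((4 * 5 ^ (d + 1) * (X : ℝ)) ^ (d + 1)) ^ 2 * (4 * 5 ^ (d + 1) * X) := by gcongr
    _ = _ := by rw [← pow_mul, ← pow_succ]; congr 1; ring

/-- the key estimate -/
theorem key (hM : S_MOM) (d B : ℕ) (hd : 1 ≤ d) (hB : 1 ≤ B) (c : ℝ) (hc : 0 < c) :
    ∃ σ C : ℝ, 0 < σ ∧ 0 < C ∧ ∃ X₀ : ℕ, 1 ≤ X₀ ∧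
    ∀ X : ℕ, X₀ ≤ X → ∀ Ξ : ℝ, c ≤ Ξ * (X : ℝ) ^ d → Ξ ≤ (X : ℝ) ^ (1 / 3 : ℝ) →
    ∫⁻ θ in Box d B, ∫⁻ ξ in Set.Icc Ξ (2 * Ξ), ENNReal.ofReal (Wn d X θ ξ) ≤
      ENNReal.ofReal (C * (X : ℝ) ^ ((d : ℝ) + 2 - σ)) := by
  have hε0 : (0 : ℝ) < 1 / (48 * ((d : ℝ) + 2)) := by positivity
  have hε1 : (1 : ℝ) / (48 * ((d : ℝ) + 2)) < 1 := by
    rw [div_lt_one (by positivity)]
    have : (0 : ℝ) ≤ d := Nat.cast_nonneg d
    linarith
  obtain ⟨σ, C, hσ, hC, X1, hX11, h1⟩ := case1 hM d B hd hB c hc _ hε0 hε1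
  obtain ⟨C', hC', X2, hX21, h2⟩ := case2 hM d B hd hB
  refine ⟨min σ (1 / 12), max C C', lt_min hσ (by norm_num), lt_max_of_lt_left hC, max X1 X2,
    hX11.trans (le_max_left _ _), ?_⟩
  intro X hX Ξ hΞ1 hΞ2
  have hXX1 : X1 ≤ X := (le_max_left _ _).trans hX
  have hXX2 : X2 ≤ X := (le_max_right _ _).trans hX
  have hx1 : (1 : ℝ) ≤ X := by exact_mod_cast hX11.trans hXX1
  rcases le_total (2 * Ξ) ((X : ℝ) ^ (-(1 / (48 * ((d : ℝ) + 2))))) with h | h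
  · refine (h1 X hXX1 Ξ hΞ1 h).trans (ENNReal.ofReal_le_ofReal ?_)
    apply mul_le_mul (le_max_left _ _) _ (by positivity) (by positivity)
    apply Real.rpow_le_rpow_of_exponent_le hx1
    linarith [min_le_left σ (1 / 12 : ℝ)]
  · refine (h2 X hXX2 Ξ h hΞ2).trans (ENNReal.ofReal_le_ofReal ?_)
    apply mul_le_mul (le_max_right _ _) _ (by positivity) (by positivity)
    apply Real.rpow_le_rpow_of_exponent_le hx1
    linarith [min_le_right σ (1 / 12 : ℝ)]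

/-- the weighted function -/
noncomputable def Fw (d X : ℕ) (p : (Fin d → ℝ) × ℝ) : ℝ :=
  Real.exp (-(Real.pi * p.2 ^ 2 / ((X : ℝ) ^ (1 / 4 : ℝ)) ^ 2)) * Wn d X p.1 p.2

lemma cont_Fw (d X : ℕ) : Continuous (Fw d X) := by
  unfold Fw
  refine Continuous.mul ?_ (cont_Wn d X)
  refine Real.continuous_exp.comp ?_
  exact ((continuous_const.mul (continuous_snd.pow 2)).div_const _).neg

lemma Fw_nonneg (d X : ℕ) (p : (Fin d → ℝ) × ℝ) : 0 ≤ Fw d X p :=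
  mul_nonneg (Real.exp_pos _).le (Wn_nonneg _ _ _ _)

lemma volBox (d B : ℕ) : volume (Box d B) ≤ ENNReal.ofReal ((2 * B) ^ d) := by
  have h1 : Box d B ⊆ Set.Icc (fun _ => -(B : ℝ)) (fun _ => (B : ℝ)) := by
    intro θ hθ
    exact ⟨fun j => (abs_le.1 (hθ j)).1, fun j => (abs_le.1 (hθ j)).2⟩
  refine (measure_mono h1).trans ?_
  rw [Real.volume_Icc_pi]
  simp only [sub_neg_eq_add, Finset.prod_const, Finset.card_univ, Fintype.card_fin]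
  rw [← two_mul, ENNReal.ofReal_pow (by positivity)]

lemma tail (d B : ℕ) : ∃ X₀ : ℕ, 1 ≤ X₀ ∧ ∀ X : ℕ, X₀ ≤ X → ∀ a : ℝ, (X : ℝ) ^ (1 / 3 : ℝ) ≤ a →
    ∫⁻ θ in Box d B, ∫⁻ ξ in Set.Ioi a, ENNReal.ofReal (Fw d X (θ, ξ)) ≤ ENNReal.ofReal 1 := by
  have hpi := Real.pi_pos
  set CI : ℝ := 4 * 5 ^ (d + 1) with hCI
  set N := 2 * (d + 1) + 1 with hN
  obtain ⟨X1, hX11, hX1⟩ := tiny (1 / 24) ((2 * B) ^ d * CI ^ N * 2) (N + 1) (by norm_num)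
  refine ⟨max X1 (2 ^ 12), hX11.trans (le_max_left _ _), ?_⟩
  intro X hX a ha
  have hXX1 : X1 ≤ X := (le_max_left _ _).trans hX
  have hx1 : (1 : ℝ) ≤ X := by exact_mod_cast hX11.trans hXX1
  have hx0 : (0 : ℝ) < X := by linarith
  have hx2 : (2 : ℝ) ≤ (X : ℝ) ^ (1 / 12 : ℝ) := by
    have h1 : (2 : ℝ) ^ (12 : ℕ) ≤ X := by exact_mod_cast (le_max_right _ _).trans hX
    have h2 : (2 : ℝ) = ((2 : ℝ) ^ (12 : ℕ)) ^ (1 / 12 : ℝ) := by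
      rw [← Real.rpow_natCast, ← Real.rpow_mul (by norm_num)]
      norm_num
    rw [h2]
    exact Real.rpow_le_rpow (by positivity) h1 (by norm_num)
  set T : ℝ := (X : ℝ) ^ (1 / 4 : ℝ) with hT
  have hT0 : 0 < T := by positivity
  have hTX : T ≤ X := by
    rw [hT]
    calc (X : ℝ) ^ (1 / 4 : ℝ) ≤ (X : ℝ) ^ (1 : ℝ) := Real.rpow_le_rpow_of_exponent_le hx1 (by norm_num)
      _ = X := Real.rpow_one _
  have hT2 : T ^ 2 = (X : ℝ) ^ (1 / 2 : ℝ) := by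
    rw [hT, ← Real.rpow_natCast, ← Real.rpow_mul hx0.le]; norm_num
  set E : ℝ := (X : ℝ) ^ (1 / 24 : ℝ) with hE
  have hE2 : E ^ 2 = (X : ℝ) ^ (1 / 12 : ℝ) := by
    rw [hE, ← Real.rpow_natCast, ← Real.rpow_mul hx0.le]; norm_num
  have hpt : ∀ θ : Fin d → ℝ, ∀ ξ ∈ Set.Ioi a, Fw d X (θ, ξ) ≤
      ((CI * X) ^ N * Real.exp (-(Real.pi * E ^ 2))) * Real.exp (-(Real.pi / (2 * T ^ 2)) * ξ ^ 2) := by
    intro θ ξ hξ
    have hξa : a < ξ := hξ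
    unfold Fw
    have h1 := Wn_le d X θ ξ
    have h2 : Real.exp (-(Real.pi * ξ ^ 2 / T ^ 2)) ≤
        Real.exp (-(Real.pi * E ^ 2)) * Real.exp (-(Real.pi / (2 * T ^ 2)) * ξ ^ 2) := by
      rw [← Real.exp_add]
      apply Real.exp_le_exp.2
      have h3 : (X : ℝ) ^ (2 / 3 : ℝ) ≤ ξ ^ 2 := by
        have e1 : (X : ℝ) ^ (2 / 3 : ℝ) = ((X : ℝ) ^ (1 / 3 : ℝ)) ^ 2 := by
          rw [← Real.rpow_natCast, ← Real.rpow_mul hx0.le]; norm_num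
        rw [e1]
        exact pow_le_pow_left₀ (by positivity) (ha.trans hξa.le) 2
      have h4 : E ^ 2 ≤ ξ ^ 2 / (2 * T ^ 2) := by
        rw [le_div_iff₀ (by positivity), hE2, hT2]
        refine le_trans ?_ h3
        calc (X : ℝ) ^ (1 / 12 : ℝ) * (2 * (X : ℝ) ^ (1 / 2 : ℝ)) ≤
            (X : ℝ) ^ (1 / 12 : ℝ) * ((X : ℝ) ^ (1 / 12 : ℝ) * (X : ℝ) ^ (1 / 2 : ℝ)) := by gcongr
          _ = (X : ℝ) ^ (2 / 3 : ℝ) := by
            rw [← Real.rpow_add hx0, ← Real.rpow_add hx0]; norm_num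
      have h5 : Real.pi * ξ ^ 2 / T ^ 2 = Real.pi * (ξ ^ 2 / (2 * T ^ 2)) + Real.pi / (2 * T ^ 2) * ξ ^ 2 := by
        field_simp; ring
      rw [h5]
      nlinarith
    calc Real.exp (-(Real.pi * ξ ^ 2 / T ^ 2)) * Wn d X θ ξ ≤
        (Real.exp (-(Real.pi * E ^ 2)) * Real.exp (-(Real.pi / (2 * T ^ 2)) * ξ ^ 2)) * (CI * X) ^ N :=
          mul_le_mul h2 h1 (Wn_nonneg _ _ _ _) (by positivity)
      _ = _ := by ring
  have hgi : Integrable (fun ξ : ℝ => Real.exp (-(Real.pi / (2 * T ^ 2)) * ξ ^ 2)) :=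
    integrable_exp_neg_mul_sq (by positivity)
  have hint : ∫⁻ ξ : ℝ, ENNReal.ofReal (Real.exp (-(Real.pi / (2 * T ^ 2)) * ξ ^ 2)) ≤ ENNReal.ofReal (2 * T) := by
    rw [← ofReal_integral_eq_lintegral_ofReal hgi (Filter.Eventually.of_forall fun _ => (Real.exp_pos _).le)]
    apply ENNReal.ofReal_le_ofReal
    rw [integral_gaussian]
    have e1 : Real.pi / (Real.pi / (2 * T ^ 2)) = 2 * T ^ 2 := by field_simp
    rw [e1]
    apply Real.sqrt_le_iff.2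
    constructor
    · positivity
    · nlinarith [sq_nonneg T]
  calc ∫⁻ θ in Box d B, ∫⁻ ξ in Set.Ioi a, ENNReal.ofReal (Fw d X (θ, ξ)) ≤
      ∫⁻ _θ in Box d B, ENNReal.ofReal (((CI * X) ^ N * Real.exp (-(Real.pi * E ^ 2))) * (2 * T)) := by
        refine lintegral_mono fun θ => ?_
        calc ∫⁻ ξ in Set.Ioi a, ENNReal.ofReal (Fw d X (θ, ξ)) ≤
            ∫⁻ ξ in Set.Ioi a, ENNReal.ofReal ((CI * X) ^ N * Real.exp (-(Real.pi * E ^ 2))) *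
              ENNReal.ofReal (Real.exp (-(Real.pi / (2 * T ^ 2)) * ξ ^ 2)) := by
              refine setLIntegral_mono' measurableSet_Ioi fun ξ hξ => ?_
              rw [← ENNReal.ofReal_mul (by positivity)]
              exact ENNReal.ofReal_le_ofReal (hpt θ ξ hξ)
          _ ≤ ∫⁻ ξ : ℝ, ENNReal.ofReal ((CI * X) ^ N * Real.exp (-(Real.pi * E ^ 2))) *
              ENNReal.ofReal (Real.exp (-(Real.pi / (2 * T ^ 2)) * ξ ^ 2)) := setLIntegral_le_lintegral _ _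
          _ = ENNReal.ofReal ((CI * X) ^ N * Real.exp (-(Real.pi * E ^ 2))) *
              ∫⁻ ξ : ℝ, ENNReal.ofReal (Real.exp (-(Real.pi / (2 * T ^ 2)) * ξ ^ 2)) :=
              lintegral_const_mul' _ _ ENNReal.ofReal_ne_top
          _ ≤ ENNReal.ofReal ((CI * X) ^ N * Real.exp (-(Real.pi * E ^ 2))) * ENNReal.ofReal (2 * T) := by gcongr
          _ = _ := by rw [← ENNReal.ofReal_mul (by positivity)]
    _ = ENNReal.ofReal (((CI * X) ^ N * Real.exp (-(Real.pi * E ^ 2))) * (2 * T)) * volume (Box d B) := by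
        rw [setLIntegral_const]
    _ ≤ ENNReal.ofReal (((CI * X) ^ N * Real.exp (-(Real.pi * E ^ 2))) * (2 * T)) * ENNReal.ofReal ((2 * B) ^ d) := by
        gcongr
        exact volBox d B
    _ = ENNReal.ofReal ((((CI * X) ^ N * Real.exp (-(Real.pi * E ^ 2))) * (2 * T)) * (2 * B) ^ d) := by
        rw [← ENNReal.ofReal_mul (by positivity)]
    _ ≤ ENNReal.ofReal 1 := by
        apply ENNReal.ofReal_le_ofReal
        refine le_trans ?_ (hX1 X hXX1)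
        have hexp := (Real.exp_pos (-(Real.pi * E ^ 2))).le
        calc (((CI * X) ^ N * Real.exp (-(Real.pi * E ^ 2))) * (2 * T)) * (2 * B) ^ d ≤
            (((CI * X) ^ N * Real.exp (-(Real.pi * E ^ 2))) * (2 * X)) * (2 * B) ^ d := by gcongr
          _ = (2 * B) ^ d * CI ^ N * 2 * (X : ℝ) ^ (N + 1) * Real.exp (-(Real.pi * E ^ 2)) := by
            rw [mul_pow, pow_succ]; ring

lemma log_bd (d : ℕ) (c σ : ℝ) (hc : 0 < c) (hσ : 0 < σ) : ∃ C : ℝ, 0 < C ∧ ∀ X : ℕ, 1 ≤ X → ∀ N : ℕ,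
    (2 : ℝ) ^ N * c ≤ (X : ℝ) ^ (d + 1) → (N : ℝ) + 1 ≤ C * (X : ℝ) ^ σ := by
  have hl2 : 0 < Real.log 2 := Real.log_pos (by norm_num)
  refine ⟨(((d : ℝ) + 1) / σ + |Real.log c|) / Real.log 2 + 1, by positivity, ?_⟩
  intro X hX N hN
  have hx1 : (1 : ℝ) ≤ X := by exact_mod_cast hX
  have hx0 : (0 : ℝ) < X := by linarith
  have hxs : 1 ≤ (X : ℝ) ^ σ := Real.one_le_rpow hx1 hσ.le
  have h1 := Real.log_le_log (by positivity) hN
  rw [Real.log_mul (by positivity) hc.ne', Real.log_pow, Real.log_pow] at h1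
  have h2 : Real.log X ≤ (X : ℝ) ^ σ / σ := Real.log_le_rpow_div hx0.le hσ
  have h3 : (N : ℝ) * Real.log 2 ≤ ((d : ℝ) + 1) * ((X : ℝ) ^ σ / σ) + |Real.log c| := by
    have h4 := neg_abs_le (Real.log c)
    push_cast at h1
    have h5 : ((d : ℝ) + 1) * Real.log X ≤ ((d : ℝ) + 1) * ((X : ℝ) ^ σ / σ) := by gcongr
    linarith
  have h6 : (N : ℝ) ≤ ((d : ℝ) + 1) / σ / Real.log 2 * (X : ℝ) ^ σ + |Real.log c| / Real.log 2 * (X : ℝ) ^ σ := by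
    have h7 : (N : ℝ) ≤ (((d : ℝ) + 1) * ((X : ℝ) ^ σ / σ) + |Real.log c|) / Real.log 2 := by
      rw [le_div_iff₀ hl2]; exact h3
    refine h7.trans ?_
    have h8 : |Real.log c| ≤ |Real.log c| * (X : ℝ) ^ σ := le_mul_of_one_le_right (abs_nonneg _) hxs
    calc (((d : ℝ) + 1) * ((X : ℝ) ^ σ / σ) + |Real.log c|) / Real.log 2 ≤
        (((d : ℝ) + 1) * ((X : ℝ) ^ σ / σ) + |Real.log c| * (X : ℝ) ^ σ) / Real.log 2 := by gcongr
      _ = _ := by field_simp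
  calc (N : ℝ) + 1 ≤ (((d : ℝ) + 1) / σ / Real.log 2 * (X : ℝ) ^ σ + |Real.log c| / Real.log 2 * (X : ℝ) ^ σ) +
      (X : ℝ) ^ σ := by linarith
    _ = _ := by field_simp

lemma lint_biUnion_le (N : ℕ) (s : ℕ → Set ℝ) (g : ℝ → ENNReal) :
    ∫⁻ ξ in ⋃ l ∈ Finset.range N, s l, g ξ ≤ ∑ l ∈ Finset.range N, ∫⁻ ξ in s l, g ξ := by
  induction N with
  | zero => simp
  | succ n ih =>
    rw [Finset.range_add_one, Finset.set_biUnion_insert, Finset.sum_insert (by simp)]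
    exact (lintegral_union_le _ _ _).trans (add_le_add le_rfl ih)

/-- all large frequencies -/
theorem total (hM : S_MOM) (d B : ℕ) (hd : 1 ≤ d) (hB : 1 ≤ B) (c : ℝ) (hc : 0 < c) :
    ∃ σ C : ℝ, 0 < σ ∧ 0 < C ∧ ∃ X₀ : ℕ, 1 ≤ X₀ ∧ ∀ X : ℕ, X₀ ≤ X →
    ∫⁻ θ in Box d B, ∫⁻ ξ in Set.Ioi (c / (X : ℝ) ^ d), ENNReal.ofReal (Fw d X (θ, ξ)) ≤
      ENNReal.ofReal (C * (X : ℝ) ^ ((d : ℝ) + 2 - σ)) := by
  obtain ⟨σ₁, C₁, hσ₁, hC₁, X1, hX11, h1⟩ := key hM d B hd hB c hc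
  obtain ⟨X2, hX21, h2⟩ := tail d B
  -- we may decrease σ
  set σ := min σ₁ 1 with hσ
  have hσ0 : 0 < σ := lt_min hσ₁ one_pos
  have hσ1 : σ ≤ 1 := min_le_right _ _
  obtain ⟨C₂, hC₂, h3⟩ := log_bd d c (σ / 2) hc (by positivity)
  refine ⟨σ / 2, C₂ * C₁ + 1, by positivity, by positivity, max X1 X2, hX11.trans (le_max_left _ _), ?_⟩
  intro X hX
  have hXX1 : X1 ≤ X := (le_max_left _ _).trans hX
  have hXX2 : X2 ≤ X := (le_max_right _ _).trans hX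
  have hX1 : 1 ≤ X := hX11.trans hXX1
  have hx1 : (1 : ℝ) ≤ X := by exact_mod_cast hX1
  have hx0 : (0 : ℝ) < X := by linarith
  set a : ℝ := c / (X : ℝ) ^ d with ha
  have ha0 : 0 < a := by positivity
  -- number of dyadic steps
  obtain ⟨n₀, hn₀⟩ : ∃ n : ℕ, (X : ℝ) ^ (1 / 3 : ℝ) < 2 ^ n * a := by
    obtain ⟨n, hn⟩ := pow_unbounded_of_one_lt ((X : ℝ) ^ (1 / 3 : ℝ) / a) (show (1 : ℝ) < 2 by norm_num)
    exact ⟨n, by rwa [div_lt_iff₀ ha0] at hn⟩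
  classical
  have hex : ∃ n : ℕ, (X : ℝ) ^ (1 / 3 : ℝ) < 2 ^ n * a := ⟨n₀, hn₀⟩
  set N := Nat.find hex with hN
  have hN1 : (X : ℝ) ^ (1 / 3 : ℝ) < 2 ^ N * a := Nat.find_spec hex
  have hN2 : ∀ l, l < N → 2 ^ l * a ≤ (X : ℝ) ^ (1 / 3 : ℝ) := fun l hl => not_lt.1 (Nat.find_min hex hl)
  have hNC : (N : ℝ) ≤ C₂ * (X : ℝ) ^ (σ / 2) := by
    rcases Nat.eq_zero_or_pos N with h0 | h0
    · rw [h0]; push_cast; positivity
    · have h4 := hN2 (N - 1) (by omega)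
      have h5 : (2 : ℝ) ^ (N - 1) * c ≤ (X : ℝ) ^ (d + 1) := by
        rw [ha, ← mul_div_assoc, div_le_iff₀ (by positivity)] at h4
        refine h4.trans ?_
        have h6 : (X : ℝ) ^ (1 / 3 : ℝ) ≤ X := by
          calc (X : ℝ) ^ (1 / 3 : ℝ) ≤ (X : ℝ) ^ (1 : ℝ) := Real.rpow_le_rpow_of_exponent_le hx1 (by norm_num)
            _ = X := Real.rpow_one _
        calc (X : ℝ) ^ (1 / 3 : ℝ) * (X : ℝ) ^ d ≤ X * (X : ℝ) ^ d := by gcongr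
          _ = _ := by ring
      have h7 := h3 X hX1 (N - 1) h5
      have h8 : ((N - 1 : ℕ) : ℝ) + 1 = N := by
        rw [Nat.cast_sub h0]; push_cast; ring
      rw [h8] at h7
      exact h7
  -- covering
  have hcov : Set.Ioi a ⊆ (⋃ l ∈ Finset.range N, Set.Icc (2 ^ l * a) (2 * (2 ^ l * a))) ∪ Set.Ioi (2 ^ N * a) := by
    intro ξ hξ
    have hξa : a < ξ := hξ
    by_cases hbig : 2 ^ N * a < ξ
    · exact Or.inr hbig
    · left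
      have hex2 : ∃ n : ℕ, ξ ≤ 2 ^ n * a := ⟨N, not_lt.1 hbig⟩
      set n := Nat.find hex2 with hn
      have hn1 : ξ ≤ 2 ^ n * a := Nat.find_spec hex2
      have hn0 : n ≠ 0 := by
        intro h0
        rw [h0] at hn1
        simp at hn1
        linarith
      have hnN : n ≤ N := Nat.find_min' hex2 (not_lt.1 hbig)
      have hn2 : 2 ^ (n - 1) * a < ξ := not_le.1 (Nat.find_min hex2 (by omega))
      rw [Set.mem_iUnion₂]
      refine ⟨n - 1, Finset.mem_range.2 (by omega), hn2.le, ?_⟩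
      have e : (2 : ℝ) ^ n = 2 * 2 ^ (n - 1) := by
        rw [← pow_succ']; congr 1; omega
      rw [e] at hn1
      linarith
  have hsplit : ∀ θ : Fin d → ℝ, ∫⁻ ξ in Set.Ioi a, ENNReal.ofReal (Fw d X (θ, ξ)) ≤
      (∑ l ∈ Finset.range N, ∫⁻ ξ in Set.Icc (2 ^ l * a) (2 * (2 ^ l * a)), ENNReal.ofReal (Wn d X θ ξ)) +
        ∫⁻ ξ in Set.Ioi (2 ^ N * a), ENNReal.ofReal (Fw d X (θ, ξ)) := by
    intro θ
    refine (lintegral_mono_set hcov).trans ((lintegral_union_le _ _ _).trans ?_)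
    refine add_le_add ?_ le_rfl
    refine (lint_biUnion_le _ _ _).trans ?_
    refine Finset.sum_le_sum fun l _ => lintegral_mono fun ξ => ENNReal.ofReal_le_ofReal ?_
    unfold Fw
    have h4 : Real.exp (-(Real.pi * ξ ^ 2 / ((X : ℝ) ^ (1 / 4 : ℝ)) ^ 2)) ≤ 1 := by
      rw [Real.exp_le_one_iff]
      have : 0 ≤ Real.pi * ξ ^ 2 / ((X : ℝ) ^ (1 / 4 : ℝ)) ^ 2 := by
        have := Real.pi_pos
        positivity
      linarith
    have h5 := Wn_nonneg d X θ ξ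
    simp only
    nlinarith
  calc ∫⁻ θ in Box d B, ∫⁻ ξ in Set.Ioi a, ENNReal.ofReal (Fw d X (θ, ξ)) ≤
      ∫⁻ θ in Box d B, ((∑ l ∈ Finset.range N, ∫⁻ ξ in Set.Icc (2 ^ l * a) (2 * (2 ^ l * a)), ENNReal.ofReal (Wn d X θ ξ)) +
        ∫⁻ ξ in Set.Ioi (2 ^ N * a), ENNReal.ofReal (Fw d X (θ, ξ))) := lintegral_mono hsplit
    _ = (∑ l ∈ Finset.range N, ∫⁻ θ in Box d B, ∫⁻ ξ in Set.Icc (2 ^ l * a) (2 * (2 ^ l * a)), ENNReal.ofReal (Wn d X θ ξ)) +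
        ∫⁻ θ in Box d B, ∫⁻ ξ in Set.Ioi (2 ^ N * a), ENNReal.ofReal (Fw d X (θ, ξ)) := by
        rw [lintegral_add_right _ (meas_inner (Fw d X) (cont_Fw d X) _), lintegral_finsetSum]
        intro l _
        exact meas_inner (fun p => Wn d X p.1 p.2) (cont_Wn d X) _
    _ ≤ ∑ l ∈ Finset.range N, ENNReal.ofReal (C₁ * (X : ℝ) ^ ((d : ℝ) + 2 - σ₁)) + ENNReal.ofReal 1 := by
        refine add_le_add (Finset.sum_le_sum fun l hl => ?_) (h2 X hXX2 _ hN1.le)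
        refine h1 X hXX1 _ ?_ (hN2 l (Finset.mem_range.1 hl))
        rw [ha]
        have : (1 : ℝ) ≤ 2 ^ l := one_le_pow₀ (by norm_num)
        have e : 2 ^ l * (c / (X : ℝ) ^ d) * (X : ℝ) ^ d = 2 ^ l * c := by field_simp
        rw [e]
        nlinarith
    _ = ENNReal.ofReal (N * (C₁ * (X : ℝ) ^ ((d : ℝ) + 2 - σ₁)) + 1) := by
        rw [Finset.sum_const, Finset.card_range, nsmul_eq_mul, ENNReal.ofReal_add (by positivity) (by norm_num),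
          ENNReal.ofReal_mul (Nat.cast_nonneg N), ENNReal.ofReal_natCast]
    _ ≤ ENNReal.ofReal ((C₂ * C₁ + 1) * (X : ℝ) ^ ((d : ℝ) + 2 - σ / 2)) := by
        apply ENNReal.ofReal_le_ofReal
        have h4 : (X : ℝ) ^ ((d : ℝ) + 2 - σ₁) ≤ (X : ℝ) ^ ((d : ℝ) + 2 - σ) :=
          Real.rpow_le_rpow_of_exponent_le hx1 (by linarith [min_le_left σ₁ 1])
        have h5 : 1 ≤ (X : ℝ) ^ ((d : ℝ) + 2 - σ / 2) := by
          apply Real.one_le_rpow hx1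
          have : (0 : ℝ) ≤ d := Nat.cast_nonneg d
          linarith
        have h6 : (N : ℝ) * (C₁ * (X : ℝ) ^ ((d : ℝ) + 2 - σ₁)) ≤ C₂ * C₁ * (X : ℝ) ^ ((d : ℝ) + 2 - σ / 2) := by
          calc (N : ℝ) * (C₁ * (X : ℝ) ^ ((d : ℝ) + 2 - σ₁)) ≤ (C₂ * (X : ℝ) ^ (σ / 2)) * (C₁ * (X : ℝ) ^ ((d : ℝ) + 2 - σ)) := by
                gcongr
            _ = C₂ * C₁ * ((X : ℝ) ^ (σ / 2) * (X : ℝ) ^ ((d : ℝ) + 2 - σ)) := by ring
            _ = _ := by rw [← Real.rpow_add hx0]; congr 2; ring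
        calc (N : ℝ) * (C₁ * (X : ℝ) ^ ((d : ℝ) + 2 - σ₁)) + 1 ≤ C₂ * C₁ * (X : ℝ) ^ ((d : ℝ) + 2 - σ / 2) +
            (X : ℝ) ^ ((d : ℝ) + 2 - σ / 2) := add_le_add h6 h5
          _ = _ := by ring

end Pool.Agent.L7h43.MW
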