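import Pool.Agent.L7h43.MW.Asm4
import Pool.Agent.L7h14.MW.Kl

/-! Borel-Cantelli, and the neighbourhood of the frequency `0`. -/

set_option autoImplicit false

namespace Pool.Agent.L7h43.MW

open Finset MeasureTheory

theorem bc (hM : S_MOM) (d B : ℕ) (hd : 1 ≤ d) (hB : 1 ≤ B) (c : ℝ) (hc : 0 < c) :
    ∃ σ : ℝ, 0 < σ ∧ ∀ᵐ θ ∂(volume.restrict (Box d B)), ∀ᶠ n : ℕ in Filter.atTop,
      ∫⁻ ξ in Set.Ioi (c / (((2 ^ n : ℕ) : ℝ)) ^ d), ENNReal.ofReal (Fw d (2 ^ n) (θ, ξ)) ≤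
        ENNReal.ofReal ((((2 ^ n : ℕ) : ℝ)) ^ ((d : ℝ) + 2 - σ)) := by
  obtain ⟨σ₀, C, hσ₀, hC, X₀, hX₀, h⟩ := total hM d B hd hB c hc
  refine ⟨σ₀ / 2, by positivity, ?_⟩
  set g : ℕ → (Fin d → ℝ) → ENNReal := fun n θ =>
    ∫⁻ ξ in Set.Ioi (c / (((2 ^ n : ℕ) : ℝ)) ^ d), ENNReal.ofReal (Fw d (2 ^ n) (θ, ξ)) with hg
  have hgm : ∀ n, Measurable (g n) := fun n => meas_inner (Fw d (2 ^ n)) (cont_Fw d (2 ^ n)) _
  obtain ⟨n₀, hn₀⟩ : ∃ n₀ : ℕ, X₀ ≤ 2 ^ n₀ := ⟨X₀, Nat.lt_two_pow_self.le⟩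
  have hxn : ∀ n : ℕ, (0 : ℝ) < ((2 ^ n : ℕ) : ℝ) := fun n => by positivity
  set b : ℕ → ENNReal := fun n => ENNReal.ofReal ((((2 ^ n : ℕ) : ℝ)) ^ ((d : ℝ) + 2 - σ₀ / 2)) with hb
  have hb0 : ∀ n, b n ≠ 0 := fun n => by
    rw [hb]; simp only
    exact (ENNReal.ofReal_pos.2 (Real.rpow_pos_of_pos (hxn n) _)).ne'
  have hbt : ∀ n, b n ≠ ⊤ := fun n => ENNReal.ofReal_ne_top
  set s : ℕ → Set (Fin d → ℝ) := fun m => {θ | b (m + n₀) ≤ g (m + n₀) θ} with hs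
  set q : ℝ := (2 : ℝ) ^ (-(σ₀ / 2)) with hq
  have hq0 : 0 < q := by rw [hq]; positivity
  have hq1 : q < 1 := by
    rw [hq]
    exact Real.rpow_lt_one_of_one_lt_of_neg (by norm_num) (by linarith)
  have hms : ∀ m, (volume.restrict (Box d B)) (s m) ≤ ENNReal.ofReal (C * q ^ m) := by
    intro m
    have h1 := meas_ge_le_lintegral_div (μ := volume.restrict (Box d B)) (hgm (m + n₀)).aemeasurable
      (hb0 (m + n₀)) (hbt (m + n₀))
    refine h1.trans ?_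
    have h2 : ∫⁻ θ in Box d B, g (m + n₀) θ ≤
        ENNReal.ofReal (C * (((2 ^ (m + n₀) : ℕ) : ℝ)) ^ ((d : ℝ) + 2 - σ₀)) := by
      refine h (2 ^ (m + n₀)) ?_
      exact hn₀.trans (Nat.pow_le_pow_right (by norm_num) (by omega))
    refine (ENNReal.div_le_div_right h2 _).trans ?_
    rw [hb]; simp only
    rw [← ENNReal.ofReal_div_of_pos (Real.rpow_pos_of_pos (hxn _) _)]
    apply ENNReal.ofReal_le_ofReal
    rw [mul_div_assoc, ← Real.rpow_sub (hxn _)]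
    apply mul_le_mul_of_nonneg_left _ hC.le
    have e1 : (d : ℝ) + 2 - σ₀ - ((d : ℝ) + 2 - σ₀ / 2) = -(σ₀ / 2) := by ring
    rw [e1, hq]
    push_cast
    rw [← Real.rpow_natCast ((2 : ℝ) ^ (-(σ₀ / 2))) m, ← Real.rpow_natCast (2 : ℝ) (m + n₀),
      ← Real.rpow_mul (by norm_num), ← Real.rpow_mul (by norm_num)]
    apply Real.rpow_le_rpow_of_exponent_le (by norm_num)
    push_cast
    have : (0 : ℝ) ≤ n₀ := Nat.cast_nonneg _
    nlinarith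
  have hsum : ∑' m, (volume.restrict (Box d B)) (s m) ≠ ⊤ := by
    have h1 : Summable fun m : ℕ => C * q ^ m := (summable_geometric_of_lt_one hq0.le hq1).mul_left C
    exact ne_top_of_le_ne_top h1.tsum_ofReal_ne_top (ENNReal.tsum_le_tsum hms)
  have h2 := ae_eventually_notMem hsum
  filter_upwards [h2] with θ hθ
  obtain ⟨N, hN⟩ := Filter.eventually_atTop.1 hθ
  rw [Filter.eventually_atTop]
  refine ⟨N + n₀, fun n hn => ?_⟩
  have h3 := hN (n - n₀) (by omega)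
  simp only [hs, Set.mem_setOf_eq, not_le] at h3
  have e : n - n₀ + n₀ = n := by omega
  rw [e] at h3
  exact h3.le

theorem near0 (d B : ℕ) (hd : 1 ≤ d) : ∃ c C : ℝ, 0 < c ∧ 0 < C ∧ ∃ X₀ : ℕ, 1 ≤ X₀ ∧
    ∀ X : ℕ, X₀ ≤ X → ∀ θ ∈ Box d B, ∀ T H : ℝ, 0 < H →
    ∫⁻ ξ in Set.Ioc 0 (c / (X : ℝ) ^ d), ENNReal.ofReal (Kr T (1 / H) ξ * Wn d X θ ξ) ≤
      ENNReal.ofReal (C * (H ^ 2 / (X : ℝ) ^ d)) := by
  have hpi := Real.pi_pos
  obtain ⟨c, C, hc, hC, X₀, h⟩ := Pool.Agent.L7h14.MW.s_KL d B hd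
  set M : ℝ := max C (4 * 5 ^ (d + 1)) with hM
  have hM0 : 0 < M := lt_max_of_lt_left hC
  refine ⟨c, 4 * Real.pi ^ 2 * M ^ (2 * (d + 1) + 1), hc, by positivity, max 1 X₀, le_max_left _ _, ?_⟩
  intro X hX θ hθ T H hH
  have hX1 : 1 ≤ X := (le_max_left _ _).trans hX
  have hx1 : (1 : ℝ) ≤ X := by exact_mod_cast hX1
  have hx0 : (0 : ℝ) < X := by linarith
  have hpt : ∀ ξ ∈ Set.Ioc 0 (c / (X : ℝ) ^ d), Kr T (1 / H) ξ * Wn d X θ ξ ≤
      (4 * Real.pi * H ^ 2 * M ^ (2 * (d + 1) + 1) * X) * (1 + (ξ * (X : ℝ) ^ (d + 1)) ^ 2)⁻¹ := by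
    intro ξ hξ
    have hξ0 : 0 < ξ := hξ.1
    set u : ℝ := ξ * (X : ℝ) ^ (d + 1) with hu
    have hu0 : 0 < u := by positivity
    set m : ℝ := min 1 (1 / u) with hm
    have hm0 : 0 < m := lt_min one_pos (by positivity)
    have hm1 : m ≤ 1 := min_le_left _ _
    have hmu : m * u ≤ 1 := by
      have : m ≤ 1 / u := min_le_right _ _
      calc m * u ≤ 1 / u * u := by gcongr
        _ = 1 := by field_simp
    have hfm : ∀ i ≤ d + 1, ‖f d X i θ ξ‖ ≤ M * X * m := by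
      intro i hi
      rw [hm, mul_min_of_nonneg _ _ (by positivity)]
      apply le_min
      · rw [mul_one]
        refine (f_le d X i (d + 1) hi θ ξ).trans ?_
        have : (4 * 5 ^ (d + 1) : ℝ) ≤ M := le_max_right _ _
        gcongr
      · rw [mul_one_div, le_div_iff₀ hu0, hu]
        have h1 := h X ((le_max_right _ _).trans hX) θ hθ ξ hξ0 (by
          have := hξ.2
          rwa [le_div_iff₀ (by positivity)] at this) i hi
        calc ‖f d X i θ ξ‖ * (ξ * (X : ℝ) ^ (d + 1)) = (‖f d X i θ ξ‖ * (ξ * (X : ℝ) ^ d)) * X := by ring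
          _ ≤ C * X := by gcongr
          _ ≤ M * X := by gcongr; exact le_max_left _ _
    have hG : G d X (d + 1) θ ξ ≤ (M * X) ^ (d + 1) * m ^ 2 := by
      unfold G
      calc ∏ i ∈ range (d + 1), ‖f d X i θ ξ‖ ≤ ∏ _i ∈ range (d + 1), (M * X * m) := by
            refine Finset.prod_le_prod (fun _ _ => norm_nonneg _) fun i hi => ?_
            exact hfm i (Finset.mem_range.1 hi).le
        _ = (M * X) ^ (d + 1) * m ^ (d + 1) := by simp [mul_pow]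
        _ ≤ (M * X) ^ (d + 1) * m ^ 2 := by
            apply mul_le_mul_of_nonneg_left _ (by positivity)
            exact pow_le_pow_of_le_one hm0.le hm1 (by omega)
    have hG0 := G_nonneg d X (d + 1) θ ξ
    have hW : Wn d X θ ξ ≤ (M * X) ^ (2 * (d + 1) + 1) * m ^ 4 := by
      unfold Wn
      have h1 := hfm (d + 1) le_rfl
      calc G d X (d + 1) θ ξ ^ 2 * ‖f d X (d + 1) θ ξ‖ ≤
          ((M * X) ^ (d + 1) * m ^ 2) ^ 2 * (M * X * 1) := by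
            have h2 : ‖f d X (d + 1) θ ξ‖ ≤ M * X * 1 := h1.trans (by gcongr)
            gcongr
        _ = _ := by ring
    have hm4 : m ^ 4 * (u ^ 2 * (1 + u ^ 2)) ≤ 4 := by
      have e : m ^ 4 * (u ^ 2 * (1 + u ^ 2)) = m ^ 2 * (m * u) ^ 2 + (m * u) ^ 4 := by ring
      rw [e]
      have h0 : 0 ≤ m * u := by positivity
      have h1 : (m * u) ^ 2 ≤ 1 := pow_le_one₀ h0 hmu
      have h2 : (m * u) ^ 4 ≤ 1 := pow_le_one₀ h0 hmu
      have h3 : m ^ 2 ≤ 1 := pow_le_one₀ hm0.le hm1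
      nlinarith [sq_nonneg m, sq_nonneg (m * u)]
    have hK : Kr T (1 / H) ξ ≤ Real.pi * ξ ^ 2 * H ^ 2 := by
      refine (Kr_le_sq T (1 / H) ξ).trans (le_of_eq ?_)
      field_simp
    rw [← div_eq_mul_inv, le_div_iff₀ (by positivity)]
    have hWn := Wn_nonneg d X θ ξ
    calc Kr T (1 / H) ξ * Wn d X θ ξ * (1 + u ^ 2) ≤
        (Real.pi * ξ ^ 2 * H ^ 2) * ((M * X) ^ (2 * (d + 1) + 1) * m ^ 4) * (1 + u ^ 2) := by gcongr
      _ = Real.pi * H ^ 2 * M ^ (2 * (d + 1) + 1) * X * (m ^ 4 * (u ^ 2 * (1 + u ^ 2))) := by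
          rw [hu]; ring
      _ ≤ Real.pi * H ^ 2 * M ^ (2 * (d + 1) + 1) * X * 4 := by gcongr
      _ = _ := by ring
  have hXk : (0 : ℝ) < (X : ℝ) ^ (d + 1) := by positivity
  have hint : Integrable (fun ξ : ℝ => (1 + (ξ * (X : ℝ) ^ (d + 1)) ^ 2)⁻¹) :=
    integrable_inv_one_add_sq.comp_mul_right' hXk.ne'
  have hval : ∫ ξ : ℝ, (1 + (ξ * (X : ℝ) ^ (d + 1)) ^ 2)⁻¹ = Real.pi / (X : ℝ) ^ (d + 1) := by
    have h1 := Measure.integral_comp_mul_right (fun x : ℝ => (1 + x ^ 2)⁻¹) ((X : ℝ) ^ (d + 1))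
    rw [h1, integral_univ_inv_one_add_sq, smul_eq_mul, abs_of_pos (by positivity)]
    field_simp
  calc ∫⁻ ξ in Set.Ioc 0 (c / (X : ℝ) ^ d), ENNReal.ofReal (Kr T (1 / H) ξ * Wn d X θ ξ) ≤
      ∫⁻ ξ in Set.Ioc 0 (c / (X : ℝ) ^ d), ENNReal.ofReal
        ((4 * Real.pi * H ^ 2 * M ^ (2 * (d + 1) + 1) * X) * (1 + (ξ * (X : ℝ) ^ (d + 1)) ^ 2)⁻¹) := by
        refine setLIntegral_mono' measurableSet_Ioc fun ξ hξ => ?_
        exact ENNReal.ofReal_le_ofReal (hpt ξ hξ)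
    _ ≤ ∫⁻ ξ : ℝ, ENNReal.ofReal
        ((4 * Real.pi * H ^ 2 * M ^ (2 * (d + 1) + 1) * X) * (1 + (ξ * (X : ℝ) ^ (d + 1)) ^ 2)⁻¹) :=
        setLIntegral_le_lintegral _ _
    _ = ENNReal.ofReal (∫ ξ : ℝ,
        ((4 * Real.pi * H ^ 2 * M ^ (2 * (d + 1) + 1) * X) * (1 + (ξ * (X : ℝ) ^ (d + 1)) ^ 2)⁻¹)) := by
        rw [ofReal_integral_eq_lintegral_ofReal (hint.const_mul _)]
        exact Filter.Eventually.of_forall fun ξ => by positivity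
    _ = _ := by
        rw [integral_const_mul, hval]
        congr 1
        rw [pow_succ (X : ℝ) d]
        field_simp

end Pool.Agent.L7h43.MW
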