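import Pool.Agent.L7h43.MW.Main

/-! The metric theorem. -/

set_option autoImplicit false

namespace Pool.Agent.L7h43.MW

open Finset MeasureTheory

/-- choosing the dyadic scale -/
lemma scale (d : ℕ) (τ : ℝ) (N : ℕ)
    (hτ : AA d * ((3 / 2) * ((2 ^ N : ℕ) : ℝ)) ^ (d + 1) ≤ τ) : ∃ n : ℕ, N ≤ n ∧
      AA d * ((3 / 2) * ((2 ^ n : ℕ) : ℝ)) ^ (d + 1) ≤ τ ∧ τ ≤ AA d * ((7 / 2) * ((2 ^ n : ℕ) : ℝ)) ^ (d + 1) := by
  have hA : (0 : ℝ) < AA d := by exact_mod_cast AA_pos d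
  set K : ℝ := AA d * (3 / 2) ^ (d + 1) with hK
  have hK0 : 0 < K := by positivity
  set y : ℝ := 2 ^ (d + 1) with hy
  have hy1 : 1 < y := one_lt_pow₀ (by norm_num) (by omega)
  have hform : ∀ n : ℕ, (AA d : ℝ) * ((3 / 2) * ((2 ^ n : ℕ) : ℝ)) ^ (d + 1) = K * y ^ n := by
    intro n
    rw [hK, hy, mul_pow]
    push_cast
    rw [← pow_mul, ← pow_mul, mul_comm n (d + 1)]
    ring
  have hx : 1 ≤ τ / K := by
    rw [le_div_iff₀ hK0, one_mul]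
    refine le_trans ?_ hτ
    rw [hform]
    have : 1 ≤ y ^ N := one_le_pow₀ hy1.le
    nlinarith
  obtain ⟨n, hn1, hn2⟩ := exists_nat_pow_near hx hy1
  rw [le_div_iff₀ hK0] at hn1
  rw [div_lt_iff₀ hK0] at hn2
  refine ⟨n, ?_, ?_, ?_⟩
  · by_contra hlt
    push Not at hlt
    have h1 : y ^ (n + 1) ≤ y ^ N := pow_le_pow_right₀ hy1.le hlt
    rw [hform] at hτ
    have : y ^ (n + 1) * K ≤ K * y ^ N := by rw [mul_comm]; gcongr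
    linarith
  · rw [hform, mul_comm]; exact hn1
  · refine hn2.le.trans ?_
    rw [mul_comm, ← hform]
    have e : (3 / 2 : ℝ) * ((2 ^ (n + 1) : ℕ) : ℝ) = 3 * ((2 ^ n : ℕ) : ℝ) := by push_cast; ring
    rw [e]
    gcongr
    norm_num

/-- from a triple to a family of `2 k + 1` positive integers -/
lemma family (d X : ℕ) (θ : Fin d → ℝ) (τ : ℝ) (v : ((Fin (d + 1) → ℕ) × (Fin (d + 1) → ℕ)) × ℕ)
    (hv : v ∈ VV d X) : ∃ x : Fin (2 * (d + 1) + 1) → ℕ, (∀ i, 0 < x i) ∧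
      ∑ i, P d θ (x i) - τ = uu d θ τ v := by
  unfold VV at hv
  obtain ⟨hv1, hv2⟩ := Finset.mem_product.1 hv
  obtain ⟨hv3, hv4⟩ := Finset.mem_product.1 hv1
  have e : 2 * (d + 1) + 1 = (d + 1) + (d + 1) + 1 := by ring
  rw [e]
  have hI : ∀ i n, n ∈ I X i → 0 < n := fun i n h => lt_of_le_of_lt (Nat.zero_le _) (mem_I.1 h).1
  refine ⟨Fin.snoc (α := fun _ => ℕ) (Fin.append v.1.1 v.1.2) v.2, ?_, ?_⟩
  · intro i
    refine Fin.lastCases ?_ (fun j => ?_) i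
    · rw [Fin.snoc_last]
      exact hI _ _ hv2
    · rw [Fin.snoc_castSucc]
      refine Fin.addCases (fun a => ?_) (fun a => ?_) j
      · rw [Fin.append_left]
        exact hI _ _ (Pool.Agent.L7h14.MW.mem_Bx.1 hv3 a)
      · rw [Fin.append_right]
        exact hI _ _ (Pool.Agent.L7h14.MW.mem_Bx.1 hv4 a)
  · rw [Fin.sum_univ_castSucc]
    simp only [Fin.snoc_castSucc, Fin.snoc_last]
    rw [Fin.sum_univ_add]
    simp only [Fin.append_left, Fin.append_right]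
    rfl

theorem metric (d : ℕ) (hd : 1 ≤ d) : ∀ᵐ θ : Fin d → ℝ, ∀ᶠ τ : ℝ in Filter.atTop,
    ∃ x : Fin (2 * (d + 1) + 1) → ℕ, (∀ i, 0 < x i) ∧
      |∑ i, P d θ (x i) - τ| < τ ^ (-(1 / (10 * ((d : ℝ) + 1))) : ℝ) := by
  have h1 : ∀ᵐ θ : Fin d → ℝ, ∀ B : ℕ, 1 ≤ B → θ ∈ Box d B → ∀ᶠ n : ℕ in Filter.atTop, ∀ τ : ℝ,
      AA d * ((3 / 2) * ((2 ^ n : ℕ) : ℝ)) ^ (d + 1) ≤ τ → τ ≤ AA d * ((7 / 2) * ((2 ^ n : ℕ) : ℝ)) ^ (d + 1) →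
      ∃ v ∈ VV d (2 ^ n), |uu d θ τ v| < (((2 ^ n : ℕ) : ℝ)) ^ (-(1 / 8) : ℝ) := by
    rw [ae_all_iff]
    intro B
    by_cases hB : 1 ≤ B
    · have h2 := (ae_restrict_iff' (measBox d B)).1 (main d B hd hB)
      filter_upwards [h2] with θ hθ _ hm
      exact hθ hm
    · exact Filter.Eventually.of_forall fun θ h => absurd h hB
  filter_upwards [h1] with θ hθ
  obtain ⟨B, hB1, hBθ⟩ : ∃ B : ℕ, 1 ≤ B ∧ θ ∈ Box d B := by
    obtain ⟨n, hn⟩ := exists_nat_ge (∑ j, |θ j|)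
    refine ⟨max 1 n, le_max_left _ _, fun j => ?_⟩
    have h3 : |θ j| ≤ ∑ j, |θ j| := Finset.single_le_sum (f := fun j => |θ j|) (fun _ _ => abs_nonneg _) (Finset.mem_univ j)
    have h4 : (n : ℝ) ≤ ((max 1 n : ℕ) : ℝ) := by exact_mod_cast le_max_right 1 n
    linarith
  have hev := hθ B hB1 hBθ
  have hA : (0 : ℝ) < AA d := by exact_mod_cast AA_pos d
  have hd1 : (0 : ℝ) < (d : ℝ) + 1 := by positivity
  set K : ℝ := AA d * (7 / 2) ^ (d + 1) with hK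
  have hK0 : 0 < K := by positivity
  have hl := large (1 / 10) (1 / 8) (K ^ (1 / (10 * ((d : ℝ) + 1)) : ℝ)) (by norm_num) (by positivity)
  obtain ⟨N, hN⟩ := Filter.eventually_atTop.1 (hev.and hl)
  filter_upwards [Filter.eventually_ge_atTop (AA d * ((3 / 2) * ((2 ^ N : ℕ) : ℝ)) ^ (d + 1))] with τ hτ
  obtain ⟨n, hn, hτ1, hτ2⟩ := scale d τ N hτ
  obtain ⟨hn1, hn2⟩ := hN n hn
  obtain ⟨v, hv, hvu⟩ := hn1 τ hτ1 hτ2
  obtain ⟨x, hx0, hx⟩ := family d (2 ^ n) θ τ v hv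
  refine ⟨x, hx0, ?_⟩
  rw [hx]
  refine lt_of_lt_of_le hvu ?_
  have hXpos : (0 : ℝ) < ((2 ^ n : ℕ) : ℝ) := by positivity
  have hτ0 : 0 < τ := lt_of_lt_of_le (by positivity) hτ1
  rw [Real.rpow_neg hXpos.le, Real.rpow_neg hτ0.le]
  apply inv_anti₀ (by positivity)
  refine le_trans ?_ hn2
  have e : K * ((2 ^ n : ℕ) : ℝ) ^ (d + 1) = AA d * ((7 / 2) * ((2 ^ n : ℕ) : ℝ)) ^ (d + 1) := by
    rw [hK, mul_pow]; ring
  rw [← e] at hτ2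
  calc τ ^ (1 / (10 * ((d : ℝ) + 1)) : ℝ) ≤ (K * ((2 ^ n : ℕ) : ℝ) ^ (d + 1)) ^ (1 / (10 * ((d : ℝ) + 1)) : ℝ) := by
        apply Real.rpow_le_rpow hτ0.le hτ2 (by positivity)
    _ = K ^ (1 / (10 * ((d : ℝ) + 1)) : ℝ) * ((2 ^ n : ℕ) : ℝ) ^ (1 / 10 : ℝ) := by
        rw [Real.mul_rpow hK0.le (by positivity), ← Real.rpow_natCast, ← Real.rpow_mul hXpos.le]
        congr 2
        push_cast
        field_simp

/-- the final form -/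
theorem final (k : ℕ) (hk : 2 ≤ k) : ∀ᵐ θ : Fin (k - 1) → ℝ, ∀ᶠ τ : ℝ in Filter.atTop,
    ∃ x : Fin (2 * k + 1) → ℕ, (∀ i, 0 < x i) ∧
      |∑ i, ((x i : ℝ) ^ k + ∑ j : Fin (k - 1), θ j * (x i : ℝ) ^ (j.val + 1)) - τ| <
        τ ^ (-(1 / (10 * (k : ℝ)))) := by
  obtain ⟨d, rfl⟩ : ∃ d, k = d + 1 := ⟨k - 1, by omega⟩
  have h := metric d (by omega)
  unfold P at h
  push_cast
  exact h

end Pool.Agent.L7h43.MW
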