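import Pool.Agent.L7h43.MW.Asm5
import Pool.Agent.L7h43.MW.Coarse
import Pool.Agent.L7h47.MW.Mom

/-! The metric theorem: dyadic form. -/

set_option autoImplicit false

namespace Pool.Agent.L7h43.MW

open Finset MeasureTheory

/-- the index set -/
def VV (d X : ℕ) : Finset (((Fin (d + 1) → ℕ) × (Fin (d + 1) → ℕ)) × ℕ) :=
  (Bx X (d + 1) ×ˢ Bx X (d + 1)) ×ˢ I X (d + 1)

/-- the difference from `τ` -/
noncomputable def uu (d : ℕ) (θ : Fin d → ℝ) (τ : ℝ) (v : ((Fin (d + 1) → ℕ) × (Fin (d + 1) → ℕ)) × ℕ) : ℝ :=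
  ∑ i, P d θ (v.1.1 i) + ∑ i, P d θ (v.1.2 i) + P d θ v.2 - τ

lemma G_eq2 (d X r : ℕ) (θ : Fin d → ℝ) (ξ : ℝ) :
    G d X r θ ξ = ‖∑ v ∈ Bx X r, ee (ξ * ∑ i, P d θ (v i))‖ := by
  have h : ∏ i : Fin r, f d X i θ ξ = ∑ v ∈ Bx X r, ee (ξ * ∑ i, P d θ (v i)) := by
    unfold f Bx
    rw [Finset.prod_univ_sum]
    refine Finset.sum_congr rfl fun v _ => ?_
    rw [← ee_sum, ← Finset.mul_sum]
  rw [← h, norm_prod]
  unfold G
  rw [Finset.prod_range]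

lemma norm_VV (d X : ℕ) (θ : Fin d → ℝ) (τ ξ : ℝ) :
    ‖∑ v ∈ VV d X, ee (ξ * uu d θ τ v)‖ = Wn d X θ ξ := by
  have h : ∑ v ∈ VV d X, ee (ξ * uu d θ τ v) =
      (∑ v ∈ Bx X (d + 1), ee (ξ * ∑ i, P d θ (v i))) * (∑ v ∈ Bx X (d + 1), ee (ξ * ∑ i, P d θ (v i))) *
        f d X (d + 1) θ ξ * ee (-(ξ * τ)) := by
    unfold VV f
    rw [Finset.sum_product, Finset.sum_product, Finset.sum_mul_sum, Finset.sum_mul, Finset.sum_mul]
    refine Finset.sum_congr rfl fun a _ => ?_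
    rw [Finset.sum_mul, Finset.sum_mul]
    refine Finset.sum_congr rfl fun b _ => ?_
    rw [Finset.mul_sum, Finset.sum_mul]
    refine Finset.sum_congr rfl fun z _ => ?_
    rw [← ee_add, ← ee_add, ← ee_add]
    congr 1
    unfold uu
    ring
  rw [h, norm_mul, norm_mul, norm_mul, norm_ee, mul_one, ← G_eq2]
  unfold Wn
  ring

lemma card_VV (d X : ℕ) : ((VV d X).card : ℝ) ≤ (4 * 5 ^ (d + 1) * X) ^ (2 * (d + 1) + 1) := by
  unfold VV
  rw [Finset.card_product, Finset.card_product]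
  have h1 := Pool.Agent.L7h14.MW.card_Bx_le X (d + 1) (d + 1) (by omega)
  have h2 := Pool.Agent.L7h14.MW.card_I_le X (d + 1) (d + 1) le_rfl
  have h3 : (Bx X (d + 1)).card * (Bx X (d + 1)).card * (I X (d + 1)).card ≤
      (4 * 5 ^ (d + 1) * X) ^ (d + 1) * (4 * 5 ^ (d + 1) * X) ^ (d + 1) * (4 * 5 ^ (d + 1) * X) :=
    Nat.mul_le_mul (Nat.mul_le_mul h1 h1) h2
  have h4 : (4 * 5 ^ (d + 1) * X) ^ (d + 1) * (4 * 5 ^ (d + 1) * X) ^ (d + 1) * (4 * 5 ^ (d + 1) * X) =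
      (4 * 5 ^ (d + 1) * X) ^ (2 * (d + 1) + 1) := by ring
  rw [h4] at h3
  exact_mod_cast h3

/-- a power of a large number beats the constants -/
lemma large (a b K : ℝ) (hab : a < b) (hK : 0 < K) : ∀ᶠ n : ℕ in Filter.atTop,
    K * (((2 ^ n : ℕ) : ℝ)) ^ a ≤ (((2 ^ n : ℕ) : ℝ)) ^ b := by
  have h1 : Filter.Tendsto (fun n : ℕ => (((2 ^ n : ℕ) : ℝ)) ^ (b - a)) Filter.atTop Filter.atTop := by
    refine (tendsto_rpow_atTop (by linarith)).comp ?_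
    have : Filter.Tendsto (fun n : ℕ => (2 : ℕ) ^ n) Filter.atTop Filter.atTop :=
      tendsto_pow_atTop_atTop_of_one_lt (by norm_num)
    exact tendsto_natCast_atTop_atTop.comp this
  filter_upwards [h1.eventually_ge_atTop K] with n hn
  have hx : (0 : ℝ) < ((2 ^ n : ℕ) : ℝ) := by positivity
  calc K * (((2 ^ n : ℕ) : ℝ)) ^ a ≤ (((2 ^ n : ℕ) : ℝ)) ^ (b - a) * (((2 ^ n : ℕ) : ℝ)) ^ a := by gcongr
    _ = _ := by rw [← Real.rpow_add hx]; congr 1; ring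

lemma ev_of {p : ℕ → Prop} {X₀ : ℕ} (h : ∀ X, X₀ ≤ X → p X) : ∀ᶠ n : ℕ in Filter.atTop, p (2 ^ n) := by
  filter_upwards [Filter.eventually_ge_atTop X₀] with n hn
  exact h _ (hn.trans Nat.lt_two_pow_self.le)

theorem main (d B : ℕ) (hd : 1 ≤ d) (hB : 1 ≤ B) :
    ∀ᵐ θ ∂(volume.restrict (Box d B)), ∀ᶠ n : ℕ in Filter.atTop, ∀ τ : ℝ,
      AA d * ((3 / 2) * ((2 ^ n : ℕ) : ℝ)) ^ (d + 1) ≤ τ → τ ≤ AA d * ((7 / 2) * ((2 ^ n : ℕ) : ℝ)) ^ (d + 1) →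
      ∃ v ∈ VV d (2 ^ n), |uu d θ τ v| < (((2 ^ n : ℕ) : ℝ)) ^ (-(1 / 8) : ℝ) := by
  have hpi := Real.pi_pos
  obtain ⟨c₁, C₁, hc₁, hC₁, X1, hX11, hnear⟩ := near0 d B hd
  obtain ⟨σ, hσ, hbc⟩ := bc Pool.Agent.L7h47.MW.s_MOM d B hd hB c₁ hc₁
  obtain ⟨c₂, C₂, hc₂, hC₂, X2, hX21, hco⟩ := coarse d B
  obtain ⟨X3, hX31, htiny⟩ := tiny (1 / 8) ((4 * 5 ^ (d + 1)) ^ (2 * (d + 1) + 1)) (2 * (d + 1) + 1 + 1) (by norm_num)
  filter_upwards [hbc, ae_restrict_mem (measBox d B)] with θ hθ hθB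
  filter_upwards [hθ, ev_of hnear, ev_of hco, ev_of htiny,
    large ((d : ℝ)) ((d : ℝ) + 1 / 2) C₂ (by linarith) hC₂,
    large ((d : ℝ) + 2 - σ) ((d : ℝ) + 2) (8 / c₂) (by linarith) (by positivity),
    large ((d : ℝ) + 1) ((d : ℝ) + 2) (8 * C₁ / c₂) (by linarith) (by positivity),
    large 0 ((d : ℝ) + 2) (8 / c₂) (by positivity) (by positivity)] with n h1 h2 h3 h4 h5 h6 h7 h8
  intro τ hτ1 hτ2
  set X : ℕ := 2 ^ n with hX
  have hX1 : 1 ≤ X := Nat.one_le_two_pow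
  have hx1 : (1 : ℝ) ≤ X := by exact_mod_cast hX1
  have hx0 : (0 : ℝ) < X := by linarith
  have hd0 : (0 : ℝ) ≤ d := Nat.cast_nonneg d
  set T : ℝ := (X : ℝ) ^ (1 / 4 : ℝ) with hT
  have hT1 : 1 ≤ T := Real.one_le_rpow hx1 (by norm_num)
  set H : ℝ := (X : ℝ) ^ ((d : ℝ) + 1 / 2) with hH
  have hH1 : 1 ≤ H := Real.one_le_rpow hx1 (by positivity)
  have hH0 : 0 < H := by linarith
  have hT00 : 0 < 1 / H := by positivity
  have hT0T : 1 / H ≤ T := by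
    have : 1 / H ≤ 1 := by rw [div_le_one hH0]; exact hH1
    linarith
  -- the coarse sum
  have hcs := h3 θ hθB τ H hτ1 hτ2 (by rw [Real.rpow_natCast] at h5; exact h5) (by
    rw [hH, ← Real.rpow_natCast (X : ℝ) (d + 1)]
    apply Real.rpow_le_rpow_of_exponent_le hx1
    push_cast; linarith)
  have hcs2 : c₂ * (X : ℝ) ^ ((d : ℝ) + 2) ≤ ∑ v ∈ VV d X, (1 / H) * Real.exp (-(Real.pi * (1 / H) ^ 2 * uu d θ τ v ^ 2)) := by
    rw [← Finset.mul_sum]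
    unfold VV
    rw [Finset.sum_product, Finset.sum_product]
    unfold uu
    have h9 := mul_le_mul_of_nonneg_left hcs hT00.le
    refine le_trans (le_of_eq ?_) h9
    rw [← Real.rpow_natCast (X : ℝ) (2 * (d + 1)), ← Real.rpow_natCast (X : ℝ) d]
    have e : (X : ℝ) ^ ((d : ℝ) + 2) = (X : ℝ) ^ (((2 * (d + 1) : ℕ) : ℝ)) / (X : ℝ) ^ (d : ℝ) := by
      rw [← Real.rpow_sub hx0]; congr 1; push_cast; ring
    rw [e]
    field_simp
  -- the error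
  have hcmp := cmp (VV d X) (uu d θ τ) T (1 / H) hT00 hT0T
  have herr : ENNReal.ofReal |∑ v ∈ VV d X, T * Real.exp (-(Real.pi * T ^ 2 * uu d θ τ v ^ 2)) -
      ∑ v ∈ VV d X, (1 / H) * Real.exp (-(Real.pi * (1 / H) ^ 2 * uu d θ τ v ^ 2))| ≤
      ENNReal.ofReal (2 * (C₁ * (H ^ 2 / (X : ℝ) ^ d) + (X : ℝ) ^ ((d : ℝ) + 2 - σ))) := by
    refine hcmp.trans ?_
    simp_rw [norm_VV]
    rw [ENNReal.ofReal_mul (by norm_num), ENNReal.ofReal_ofNat, ENNReal.ofReal_add (by positivity) (by positivity)]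
    gcongr
    have hsub : Set.Ioi (0 : ℝ) ⊆ Set.Ioc 0 (c₁ / (X : ℝ) ^ d) ∪ Set.Ioi (c₁ / (X : ℝ) ^ d) := by
      intro x hx
      rcases le_or_gt x (c₁ / (X : ℝ) ^ d) with h | h
      · exact Or.inl ⟨hx, h⟩
      · exact Or.inr h
    refine (lintegral_mono_set hsub).trans ((lintegral_union_le _ _ _).trans (add_le_add ?_ ?_))
    · exact h2 θ hθB T H hH0
    · refine le_trans (lintegral_mono fun ξ => ENNReal.ofReal_le_ofReal ?_) h1
      unfold Fw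
      exact mul_le_mul_of_nonneg_right (Kr_le_gauss T (1 / H) ξ) (Wn_nonneg _ _ _ _)
  have herr2 := (ENNReal.ofReal_le_ofReal_iff (by positivity)).1 herr
  have hHX : H ^ 2 / (X : ℝ) ^ d = (X : ℝ) ^ ((d : ℝ) + 1) := by
    rw [hH, ← Real.rpow_natCast (X : ℝ) d, ← Real.rpow_natCast _ 2, ← Real.rpow_mul hx0.le, ← Real.rpow_sub hx0]
    congr 1; push_cast; ring
  rw [hHX] at herr2
  -- the main inequality
  have hbig : 1 < ∑ v ∈ VV d X, T * Real.exp (-(Real.pi * T ^ 2 * uu d θ τ v ^ 2)) := by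
    rw [Real.rpow_zero] at h8
    have e1 := mul_le_mul_of_nonneg_left h6 hc₂.le
    have e2 := mul_le_mul_of_nonneg_left h7 hc₂.le
    have e3 := mul_le_mul_of_nonneg_left h8 hc₂.le
    have e4 : c₂ * (8 / c₂ * (X : ℝ) ^ ((d : ℝ) + 2 - σ)) = 8 * (X : ℝ) ^ ((d : ℝ) + 2 - σ) := by field_simp
    have e5 : c₂ * (8 * C₁ / c₂ * (X : ℝ) ^ ((d : ℝ) + 1)) = 8 * C₁ * (X : ℝ) ^ ((d : ℝ) + 1) := by field_simp
    have e6 : c₂ * (8 / c₂ * 1) = 8 := by field_simp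
    rw [e4] at e1
    rw [e5] at e2
    rw [e6] at e3
    have h10 := (abs_le.1 herr2).1
    linarith
  -- conclusion
  by_contra hcon
  push Not at hcon
  have hsmall : ∑ v ∈ VV d X, T * Real.exp (-(Real.pi * T ^ 2 * uu d θ τ v ^ 2)) ≤ 1 := by
    refine le_trans ?_ h4
    calc ∑ v ∈ VV d X, T * Real.exp (-(Real.pi * T ^ 2 * uu d θ τ v ^ 2)) ≤
        ∑ v ∈ VV d X, X * Real.exp (-(Real.pi * ((X : ℝ) ^ (1 / 8 : ℝ)) ^ 2)) := by
          refine Finset.sum_le_sum fun v hv => ?_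
          have hT2 : T ≤ X := by
            calc T ≤ (X : ℝ) ^ (1 : ℝ) := Real.rpow_le_rpow_of_exponent_le hx1 (by norm_num)
              _ = X := Real.rpow_one _
          apply mul_le_mul hT2 _ (Real.exp_pos _).le hx0.le
          apply Real.exp_le_exp.2
          rw [neg_le_neg_iff, mul_assoc]
          apply mul_le_mul_of_nonneg_left _ hpi.le
          rw [← mul_pow]
          have h11 := hcon v hv
          have h12 : (X : ℝ) ^ (1 / 8 : ℝ) ≤ T * |uu d θ τ v| := by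
            calc (X : ℝ) ^ (1 / 8 : ℝ) = T * (X : ℝ) ^ (-(1 / 8) : ℝ) := by
                  rw [hT, ← Real.rpow_add hx0]; congr 1; norm_num
              _ ≤ _ := by gcongr
          have h13 := pow_le_pow_left₀ (by positivity) h12 2
          rwa [mul_pow, sq_abs, ← mul_pow] at h13
      _ = ((VV d X).card : ℝ) * (X * Real.exp (-(Real.pi * ((X : ℝ) ^ (1 / 8 : ℝ)) ^ 2))) := by
          rw [Finset.sum_const, nsmul_eq_mul]
      _ ≤ (4 * 5 ^ (d + 1) * X) ^ (2 * (d + 1) + 1) * (X * Real.exp (-(Real.pi * ((X : ℝ) ^ (1 / 8 : ℝ)) ^ 2))) := by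
          gcongr
          exact card_VV d X
      _ = _ := by rw [mul_pow, pow_succ (X : ℝ) (2 * (d + 1) + 1)]; ring
  linarith

end Pool.Agent.L7h43.MW
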