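import Mathlib

/-!
Project MW (metric Waring problem). `k = d + 1`, `P θ x = x^k + θ_{d-1} x^{d} + ... + θ_0 x`.
Goal: for almost every `θ ∈ ℝ^d` every large real number is within a power-small distance of a sum of
`2 k + 1` values of `P θ`.
-/

set_option autoImplicit false

namespace Pool.Agent.L7h43.MW

open Finset MeasureTheory

/-- `e(x) = exp(2πix)` -/
noncomputable def ee (x : ℝ) : ℂ := Complex.exp (2 * Real.pi * x * Complex.I)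

/-- the polynomial of degree `d + 1` -/
noncomputable def P (d : ℕ) (θ : Fin d → ℝ) (x : ℝ) : ℝ :=
  x ^ (d + 1) + ∑ j : Fin d, θ j * x ^ (j.val + 1)

/-- the separated intervals -/
def I (X i : ℕ) : Finset ℕ := Finset.Ioc (5 ^ i * X) (4 * 5 ^ i * X)

/-- the exponential sum -/
noncomputable def f (d X i : ℕ) (θ : Fin d → ℝ) (ξ : ℝ) : ℂ := ∑ x ∈ I X i, ee (ξ * P d θ x)

/-- all `x` with `x i ∈ I X i`, `i < r` -/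
def Bx (X r : ℕ) : Finset (Fin r → ℕ) := Fintype.piFinset fun i : Fin r => I X i

/-- the box of the coefficients -/
def Box (d B : ℕ) : Set (Fin d → ℝ) := {θ | ∀ j, |θ j| ≤ B}

/-- [ND] near-diagonal lemma: the degrees `k - r < j ≤ k` determine `x` in the `r` intervals -/
def S_ND : Prop := ∀ r k : ℕ, r ≤ k → ∃ C : ℝ, 0 < C ∧ ∀ X : ℕ, 1 ≤ X → ∀ L : ℝ, 0 ≤ L →
  ∀ x y : Fin r → ℕ, x ∈ Bx X r → y ∈ Bx X r →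
  (∀ j, k - r < j → j ≤ k → |∑ i, ((x i : ℝ) ^ j - (y i : ℝ) ^ j)| ≤ L) →
  ∀ i, |(x i : ℝ) - y i| * (X : ℝ) ^ (k - r) ≤ C * L

open Classical in
/-- [N1] counting near-diagonal solutions with `r` pairs of variables -/
def S_N1 : Prop := ∀ r k : ℕ, 1 ≤ r → r ≤ k → ∃ C : ℝ, 0 < C ∧ ∀ X : ℕ, 1 ≤ X → ∀ L : ℝ,
  (X : ℝ) ^ (k - r) ≤ L →
  (((Bx X r ×ˢ Bx X r).filter (fun p : (Fin r → ℕ) × (Fin r → ℕ) => ∀ j, 1 ≤ j → j ≤ k →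
    |∑ i, ((p.1 i : ℝ) ^ j - (p.2 i : ℝ) ^ j)| ≤ L)).card : ℝ) ≤
    C * (X : ℝ) ^ r * (L / (X : ℝ) ^ (k - r)) * (1 + L / (X : ℝ) ^ (k - r + 1)) ^ (r - 1)

open Classical in
/-- [J] exact solutions with `k + 1` pairs of variables (Hua) -/
def S_J : Prop := ∀ k : ℕ, 2 ≤ k → ∀ ε : ℝ, 0 < ε → ∃ C : ℝ, 0 < C ∧ ∀ X : ℕ, 1 ≤ X →
  (((Bx X (k + 1) ×ˢ Bx X (k + 1)).filter (fun p : (Fin (k + 1) → ℕ) × (Fin (k + 1) → ℕ) =>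
    ∀ j, 1 ≤ j → j ≤ k → ∑ i, (p.1 i) ^ j = ∑ i, (p.2 i) ^ j)).card : ℝ) ≤
    C * (X : ℝ) ^ ((k : ℝ) + 1 + ε)

/-- [MOM] second moment over the box and a dyadic range of frequencies -/
def S_MOM : Prop := ∀ d B : ℕ, 1 ≤ B → ∃ C : ℝ, 0 < C ∧ ∀ (ι : Type) (V : Finset ι)
  (D : ι → Fin (d + 1) → ℝ) (Ξ : ℝ), 0 < Ξ →
  ∫⁻ θ in Box d B, ∫⁻ ξ in Set.Icc Ξ (2 * Ξ), ENNReal.ofReal (‖∑ v ∈ V,
      ee (ξ * (D v (Fin.last d) + ∑ j : Fin d, θ j * D v j.castSucc))‖ ^ 2) ≤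
    ENNReal.ofReal (C * Ξ * ∑ v ∈ V, ∑ v' ∈ V,
      Real.exp (-(Real.pi * Ξ ^ 2 * ∑ j, (D v j - D v' j) ^ 2)))

/-- [W] power saving for all small frequencies -/
def S_W : Prop := ∀ d B : ℕ, 1 ≤ d → ∀ η : ℝ, 0 < η → η < 1 → ∃ σ C : ℝ, 0 < σ ∧ 0 < C ∧
  ∃ X₀ : ℕ, ∀ X : ℕ, X₀ ≤ X → ∀ θ ∈ Box d B, ∀ ξ : ℝ, (X : ℝ) ^ (-((d : ℝ) + 1) + η) ≤ ξ →
    ξ ≤ (X : ℝ) ^ (-η) → ∀ i ≤ d + 1, ‖f d X i θ ξ‖ ≤ C * (X : ℝ) ^ (1 - σ)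

/-- [KL] the bound of Kusmin and Landau near `0` -/
def S_KL : Prop := ∀ d B : ℕ, 1 ≤ d → ∃ c C : ℝ, 0 < c ∧ 0 < C ∧
  ∃ X₀ : ℕ, ∀ X : ℕ, X₀ ≤ X → ∀ θ ∈ Box d B, ∀ ξ : ℝ, 0 < ξ → ξ * (X : ℝ) ^ d ≤ c →
    ∀ i ≤ d + 1, ‖f d X i θ ξ‖ * (ξ * (X : ℝ) ^ d) ≤ C

end Pool.Agent.L7h43.MW
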